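import Mathlib

/-! The partition theorem of Erdos and Rado, with a wasteful bound. -/

namespace Pool.Agent.Lib.MP_c8ac39_lc.MH

open Cardinal Set

universe u

/-- A tower of exponentials. -/
noncomputable def erB : ℕ → Cardinal.{u} → Cardinal.{u}
  | 0, θ => θ
  | n + 1, θ => 2 ^ Order.succ (erB n θ)

theorem le_erB (n : ℕ) (θ : Cardinal.{u}) : θ ≤ erB n θ := by
  induction n with
  | zero => exact le_rfl
  | succ n ih => exact ih.trans ((Order.le_succ _).trans (cantor _).le)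

theorem succ_lt_of_pow {μ c : Cardinal.{u}} (hμ : ∀ c, c < μ → 2 ^ c < μ) (h : c < μ) :
    Order.succ c < μ := (Order.succ_le_of_lt (cantor c)).trans_lt (hμ c h)

theorem erB_lt {μ θ : Cardinal.{u}} (hμ : ∀ c, c < μ → 2 ^ c < μ) (h : θ < μ) (n : ℕ) :
    erB n θ < μ := by
  induction n with
  | zero => exact h
  | succ n ih => exact hμ _ (succ_lt_of_pow hμ ih)

theorem exists_strictMono_of_lt {L J : Type u} [LinearOrder L] [WellFoundedLT L] [LinearOrder J]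
    [WellFoundedLT J] {H : Set L} (h : #J < #H) : ∃ f : J → L, StrictMono f ∧ ∀ j, f j ∈ H := by
  have h1 : Ordinal.type (α := J) (· < ·) ≤ Ordinal.type (α := H) (· < ·) := by
    by_contra hc
    have := Ordinal.card_le_card (not_le.1 hc).le
    rw [Ordinal.card_type, Ordinal.card_type] at this
    exact absurd h (not_lt.2 this)
  obtain ⟨e⟩ := Ordinal.type_le_iff'.1 h1
  exact ⟨fun j => (e j).1, fun a b hab => e.map_rel_iff.2 hab, fun j => (e j).2⟩

theorem exists_endSet {L A C : Type*} [LinearOrder L] [WellFoundedLT L] (G : (A → L) → L → C)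
    (Y : Set L) (y : L) : ∃ Z : Set L, ∀ z, z ∈ Z ↔
      z ∈ Y ∧ z < y ∧ ∀ e : A → L, (∀ k, e k < z) → (∀ k, e k ∈ Z) → G e z = G e y := by
  let p : L → Prop := WellFoundedLT.fix (motive := fun _ => Prop) fun z ih =>
    z ∈ Y ∧ z < y ∧ ∀ (e : A → L) (h : ∀ k, e k < z), (∀ k, ih (e k) (h k)) → G e z = G e y
  refine ⟨{z | p z}, fun z => ?_⟩
  change p z ↔ _
  have : p z = _ := WellFoundedLT.fix_eq _ z
  rw [this]
  rfl

theorem endData_inj {L W A C : Type*} [LinearOrder L] [LinearOrder W] [WellFoundedLT W]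
    (G : (A → L) → L → C) (Y : Set L) (Z : L → Set L)
    (hZ : ∀ y z, z ∈ Z y ↔
      z ∈ Y ∧ z < y ∧ ∀ e : A → L, (∀ k, e k < z) → (∀ k, e k ∈ Z y) → G e z = G e y)
    (i : L → L → W) (hi : ∀ y ∈ Y, StrictMonoOn (i y) (Z y)) :
    InjOn (fun y => (i y '' Z y, {p : (A → W) × C | ∃ e : A → L, (∀ k, e k ∈ Z y) ∧
      (fun k => i y (e k)) = p.1 ∧ G e y = p.2})) Y := by
  set D := fun y => (i y '' Z y, {p : (A → W) × C | ∃ e : A → L, (∀ k, e k ∈ Z y) ∧
      (fun k => i y (e k)) = p.1 ∧ G e y = p.2}) with hD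
  have hR : ∀ y y2, D y = D y2 → ∀ z ∈ Z y2, ∃ z' ∈ Z y, i y z' = i y2 z := by
    intro y y2 h z hz
    have h1 : i y '' Z y = i y2 '' Z y2 := congrArg Prod.fst h
    have h2 : i y2 z ∈ i y '' Z y := h1 ▸ mem_image_of_mem _ hz
    exact h2
  have hB : ∀ y, ∀ y2 ∈ Y, D y = D y2 → ∀ e : A → L, (∀ k, e k ∈ Z y) → (∀ k, e k ∈ Z y2) →
      (∀ k, i y (e k) = i y2 (e k)) → G e y = G e y2 := by
    intro y y2 hy2 h e h1 h2 h3
    have h4 : (D y).2 = (D y2).2 := congrArg Prod.snd h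
    have h5 : ((fun k => i y (e k)), G e y) ∈ (D y).2 := ⟨e, h1, rfl, rfl⟩
    rw [h4] at h5
    obtain ⟨e', h6, h7, h8⟩ := h5
    have h9 : e' = e := funext fun k =>
      (hi y2 hy2).injOn (h6 k) (h2 k) ((congrFun h7 k).trans (h3 k))
    rw [h9] at h8
    exact h8.symm
  have hA : ∀ w : W, ∀ y ∈ Y, ∀ y2 ∈ Y, D y = D y2 → ∀ z ∈ Z y, ∀ z2 ∈ Z y2,
      i y z = w → i y2 z2 = w → ¬ z < z2 := by
    intro w
    induction w using WellFoundedLT.induction with
    | ind w ih =>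
      intro y hy y2 hy2 h z hz z2 hz2 e1 e2 hlt
      have key : ∀ x ∈ Z y2, x < z2 → x ∈ Z y ∧ i y x = i y2 x := by
        intro x hx hxz
        obtain ⟨x', hx', e3⟩ := hR y y2 h x hx
        have hw : i y2 x < w := e2 ▸ hi y2 hy2 hx hz2 hxz
        have e4 : x' = x := le_antisymm
          (not_lt.1 (ih _ hw y2 hy2 y hy h.symm x hx x' hx' rfl e3))
          (not_lt.1 (ih _ hw y hy y2 hy2 h x' hx' x hx e3 rfl))
        rw [e4] at hx' e3
        exact ⟨hx', e3⟩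
      have hz' : z ∈ Z y2 := by
        obtain ⟨a1, -, a3⟩ := (hZ y z).1 hz
        refine (hZ y2 z).2 ⟨a1, hlt.trans ((hZ y2 z2).1 hz2).2.1, fun e b1 b2 => ?_⟩
        have b3 := fun k => key (e k) (b2 k) ((b1 k).trans hlt)
        exact (a3 e b1 fun k => (b3 k).1).trans
          (hB y y2 hy2 h e (fun k => (b3 k).1) b2 fun k => (b3 k).2)
      have c1 := (key z hz' hlt).2
      have c2 := hi y2 hy2 hz' hz2 hlt
      rw [← c1, e1, e2] at c2
      exact lt_irrefl _ c2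
  have hS : ∀ y ∈ Y, ∀ y2 ∈ Y, D y = D y2 → ∀ x ∈ Z y2, x ∈ Z y ∧ i y x = i y2 x := by
    intro y hy y2 hy2 h x hx
    obtain ⟨x', hx', e3⟩ := hR y y2 h x hx
    have e4 : x' = x := le_antisymm
      (not_lt.1 (hA _ y2 hy2 y hy h.symm x hx x' hx' rfl e3))
      (not_lt.1 (hA _ y hy y2 hy2 h x' hx' x hx e3 rfl))
    rw [e4] at hx' e3
    exact ⟨hx', e3⟩
  have hN : ∀ y ∈ Y, ∀ y2 ∈ Y, D y = D y2 → ¬ y < y2 := by
    intro y hy y2 hy2 h hlt
    have h1 : y ∈ Z y2 := (hZ y2 y).2 ⟨hy, hlt, fun e _ b2 =>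
      hB y y2 hy2 h e (fun k => (hS y hy y2 hy2 h _ (b2 k)).1) b2
        fun k => (hS y hy y2 hy2 h _ (b2 k)).2⟩
    exact lt_irrefl _ ((hZ y y).1 (hS y hy y2 hy2 h y h1).1).2.1
  intro y hy y2 hy2 h
  exact le_antisymm (not_lt.1 (hN y2 hy2 y hy h.symm)) (not_lt.1 (hN y hy y2 hy2 h))

theorem exists_endHom {L C : Type u} [LinearOrder L] [WellFoundedLT L] {l : Cardinal.{u}}
    (hl : ℵ₀ ≤ l) (hC : #C ≤ l) (n : ℕ) (G : (Fin n → L) → L → C) (Y : Set L)
    (hY : 2 ^ Order.succ l < #Y) : ∃ (y : L) (Z : Set L), Z ⊆ Y ∧ l < #Z ∧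
      ∀ z ∈ Z, ∀ e : Fin n → L, (∀ k, e k < z) → (∀ k, e k ∈ Z) → G e z = G e y := by
  classical
  choose Z hZ using exists_endSet G Y
  by_contra hc
  have h1 : ∀ y, #(Z y) ≤ l := fun y => not_lt.1 fun h =>
    hc ⟨y, Z y, fun z hz => ((hZ y z).1 hz).1, h, fun z hz => ((hZ y z).1 hz).2.2⟩
  have hW : #(Order.succ l).ord.ToType = Order.succ l := mk_ord_toType _
  have hm : ℵ₀ ≤ Order.succ l := hl.trans (Order.le_succ l)
  generalize hWdef : (Order.succ l).ord = o at hW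
  have hne : Nonempty o.ToType := mk_ne_zero_iff.1 (by
    rw [hW]; exact (aleph0_pos.trans_le hm).ne')
  have h2 : ∀ y, ∃ i : L → o.ToType, StrictMonoOn i (Z y) := by
    intro y
    obtain ⟨f, hf, -⟩ := exists_strictMono_of_lt (L := o.ToType) (J := Z y) (H := univ)
      (by rw [mk_univ, hW]; exact (h1 y).trans_lt (Order.lt_succ l))
    refine ⟨fun z => if h : z ∈ Z y then f ⟨z, h⟩ else Classical.arbitrary _, ?_⟩
    intro a ha b hb hab
    simp only [dif_pos ha, dif_pos hb]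
    exact hf hab
  choose i hi using h2
  have h3 := endData_inj G Y Z hZ i fun y _ => hi y
  have h4 : #Y ≤ #(Set o.ToType × Set ((Fin n → o.ToType) × C)) :=
    mk_le_of_injective (f := fun y : Y => (i y '' Z y, {p : (Fin n → o.ToType) × C |
      ∃ e : Fin n → L, (∀ k, e k ∈ Z y) ∧ (fun k => i y (e k)) = p.1 ∧ G e y = p.2}))
      fun a b h => Subtype.ext (h3 a.2 b.2 h)
  have h5 : #((Fin n → o.ToType) × C) ≤ Order.succ l := by
    have : #(Fin n → o.ToType) ≤ Order.succ l := by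
      simp only [mk_pi, prod_const, mk_fintype, Fintype.card_fin, lift_uzero, lift_natCast, hW]
      exact_mod_cast power_nat_le hm
    rw [mk_prod, lift_id, lift_id]
    exact (mul_le_mul' this (hC.trans (Order.le_succ l))).trans (mul_eq_self hm).le
  rw [mk_prod, lift_id, lift_id, mk_set, mk_set, hW] at h4
  have h6 : (2 : Cardinal) ^ #((Fin n → o.ToType) × C) ≤ 2 ^ Order.succ l :=
    power_le_power_left two_ne_zero h5
  exact absurd hY (not_lt.2 (h4.trans ((mul_le_mul' le_rfl h6).trans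
    (mul_eq_self (hm.trans (cantor _).le)).le)))

theorem erdos_rado {L C : Type u} [LinearOrder L] [WellFoundedLT L] {θ : Cardinal.{u}}
    (hθ : ℵ₀ ≤ θ) (hC : #C ≤ θ) (n : ℕ) (F : (Fin n → L) → C) (Y : Set L) (hY : erB n θ < #Y) :
    ∃ H : Set L, H ⊆ Y ∧ θ < #H ∧
      ∃ c, ∀ e : Fin n → L, StrictMono e → (∀ i, e i ∈ H) → F e = c := by
  induction n generalizing Y with
  | zero => exact ⟨Y, subset_rfl, hY, F Fin.elim0, fun e _ _ => congrArg F (Subsingleton.elim _ _)⟩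
  | succ n ih =>
    obtain ⟨y, Z, h1, h2, h3⟩ := exists_endHom (hθ.trans (le_erB n θ)) (hC.trans (le_erB n θ)) n
      (fun e z => F (Fin.snoc e z)) Y hY
    obtain ⟨H, k1, k2, c, k3⟩ := ih (fun e => F (Fin.snoc e y)) Z h2
    refine ⟨H, k1.trans h1, k2, c, fun e he hH => ?_⟩
    have a1 := h3 (e (Fin.last n)) (k1 (hH _)) (Fin.init e)
      (fun k => he (Fin.castSucc_lt_last k)) fun k => k1 (hH _)
    have a2 := k3 (Fin.init e) (fun a b hab => he (Fin.castSucc_lt_castSucc_iff.2 hab))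
      fun k => hH _
    simp only [Fin.snoc_init_self] at a1
    exact a1.trans a2

theorem erdos_rado' {L C : Type u} [LinearOrder L] [WellFoundedLT L] {θ : Cardinal.{u}}
    (hθ : ℵ₀ ≤ θ) (hC : #C ≤ θ) {I : Type} [Fintype I] [LinearOrder I] (F : (I → L) → C)
    (Y : Set L) (hY : erB (Fintype.card I) θ < #Y) :
    ∃ H : Set L, H ⊆ Y ∧ θ < #H ∧
      ∃ c, ∀ e : I → L, StrictMono e → (∀ i, e i ∈ H) → F e = c := by
  let φ := monoEquivOfFin I rfl
  obtain ⟨H, h0, h1, c, h2⟩ := erdos_rado hθ hC _ (fun e => F (e ∘ φ.symm)) Y hY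
  refine ⟨H, h0, h1, c, fun e he hH => ?_⟩
  rw [← h2 (e ∘ φ) (he.comp φ.strictMono) fun i => hH _]
  congr 1
  funext i
  simp

end Pool.Agent.Lib.MP_c8ac39_lc.MH
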