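import Pool.Agent.Lib.MP_c8ac39_lc.Meas
import Pool.Agent.Lib.MP_c8ac39_lc.MH.ER

/-! A well order `K` of Mahlo length, inaccessible points, ranked types. -/

namespace Pool.Agent.Lib.MP_c8ac39_lc.MH

open Cardinal Filter Set
open Pool.Agent.Lib.MP_2739cb_lc (mk_iUnion_le_of_le chain_lemma)

universe u v

/-- Inaccessible points. -/
structure Good {K : Type u} [LinearOrder K] (ζ : K) : Prop where
  unc : ℵ₀ < #(Iio ζ)
  init : ∀ β, β < ζ → #(Iio β) < #(Iio ζ)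
  reg : ∀ S : Set K, S ⊆ Iio ζ → #S < #(Iio ζ) → ∃ β, β < ζ ∧ ∀ z ∈ S, z < β
  pow : ∀ c, c < #(Iio ζ) → 2 ^ c < #(Iio ζ)

def Closed {K : Type u} [LinearOrder K] (F : K → K) (ζ : K) : Prop := ∀ β, β < ζ → F β < ζ

class Mh (K : Type u) [LinearOrder K] : Prop where
  iio : ∀ k : K, #(Iio k) < #K
  bounded : ∀ S : Set K, #S < #K → ∃ k, ∀ z ∈ S, z < k
  mahlo : ∀ F : K → K, ∃ ζ, Good ζ ∧ Closed F ζ

section NoMh

variable {K : Type u} [LinearOrder K]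

namespace Good

variable {ζ : K} (h : Good ζ)
include h

theorem exists_gt {β : K} (hβ : β < ζ) : ∃ β', β' < ζ ∧ β < β' := by
  obtain ⟨β', h1, h2⟩ := h.reg {β} (singleton_subset_iff.2 hβ)
    (by rw [mk_singleton]; exact one_lt_aleph0.trans h.unc)
  exact ⟨β', h1, h2 β rfl⟩

theorem exists_lt : ∃ β, β < ζ := by
  obtain ⟨⟨β, hβ⟩⟩ : Nonempty (Iio ζ) :=
    mk_ne_zero_iff.1 (aleph0_pos.trans h.unc).ne'
  exact ⟨β, hβ⟩

theorem bdd_fam {ι : Type u} (f : ι → K) (hι : #ι < #(Iio ζ)) (hf : ∀ i, f i < ζ) :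
    ∃ β, β < ζ ∧ ∀ i, f i < β := by
  obtain ⟨β, h1, h2⟩ := h.reg (range f) (by rintro _ ⟨i, rfl⟩; exact hf i)
    (mk_range_le.trans_lt hι)
  exact ⟨β, h1, fun i => h2 _ ⟨i, rfl⟩⟩

theorem mk_fin_lt {α : Type u} [Finite α] : #α < #(Iio ζ) := (lt_aleph0_of_finite α).trans h.unc

theorem mul_lt {a b : Cardinal.{u}} (ha : a < #(Iio ζ)) (hb : b < #(Iio ζ)) :
    a * b < #(Iio ζ) := mul_lt_of_lt h.unc.le ha hb

theorem mk_Iic_lt {β : K} (hβ : β < ζ) : #(Iic β) < #(Iio ζ) := by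
  rw [← Iio_insert]
  exact mk_insert_le.trans_lt
    (add_lt_of_lt h.unc.le (h.init β hβ) (one_lt_aleph0.trans h.unc))

theorem mk_powerset_lt {α : Type u} {S : Set α} (hS : #S < #(Iio ζ)) : #(𝒫 S) < #(Iio ζ) := by
  rw [mk_powerset]; exact h.pow _ hS

theorem mk_pi_lt {d : ℕ} {β : K} (hβ : β < ζ) : #{f : Fin d → K | ∀ j, f j < β} < #(Iio ζ) := by
  have h1 : #{f : Fin d → K | ∀ j, f j < β} ≤ #(Fin d → Iio β) :=
    mk_le_of_injective (f := fun f j => ⟨f.1 j, f.2 j⟩) fun f g hfg =>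
      Subtype.ext (funext fun j => Subtype.mk.inj (congrFun hfg j))
  refine h1.trans_lt ?_
  simp only [mk_pi, prod_const, lift_uzero, mk_fin, lift_natCast, power_natCast]
  clear h1
  induction d with
  | zero => simpa using one_lt_aleph0.trans h.unc
  | succ d ih => rw [pow_succ]; exact mul_lt_of_lt h.unc.le ih (h.init β hβ)

theorem mk_iUnion_lt [WellFoundedLT K] {α ι : Type u} (f : ι → Set α) (hι : #ι < #(Iio ζ))
    (hf : ∀ i, #(f i) < #(Iio ζ)) : #(⋃ i, f i) < #(Iio ζ) := by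
  choose g h1 h2 using fun i => exists_le_mk_Iio_of_lt (hf i)
  obtain ⟨k, h3, h4⟩ := h.bdd_fam g hι h1
  exact (mk_iUnion_le f).trans_lt ((mul_le_mul' le_rfl (ciSup_le' fun i =>
    (h2 i).trans (mk_le_mk_of_subset (Iio_subset_Iio (h4 i).le)))).trans_lt
      (mul_lt_of_lt h.unc.le hι (h.init k h3)))

end Good

/-- A cardinal below every inaccessible point above `β`. -/
def Low (β : K) (c : Cardinal.{u}) : Prop := ∀ γ, Good γ → β < γ → c < #(Iio γ)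

theorem Low.mono {β β' : K} {c c' : Cardinal.{u}} (h : Low β c) (h1 : β ≤ β') (h2 : c' ≤ c) :
    Low β' c' := fun γ hγ h3 => h2.trans_lt (h γ hγ (h1.trans_lt h3))

theorem Low.mul {β : K} {a b : Cardinal.{u}} (ha : Low β a) (hb : Low β b) : Low β (a * b) :=
  fun γ hγ h => hγ.mul_lt (ha γ hγ h) (hb γ hγ h)

theorem Low.pow {β : K} {a : Cardinal.{u}} (ha : Low β a) : Low β (2 ^ a) :=
  fun γ hγ h => hγ.pow _ (ha γ hγ h)

theorem low_Iio (β : K) : Low β #(Iio β) := fun _ hγ h => hγ.init β h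

theorem low_Iic (β : K) : Low β #(Iic β) := fun _ hγ h => hγ.mk_Iic_lt h

end NoMh

variable {K : Type u} [LinearOrder K] [Mh K]

theorem exists_good_gt (k : K) : ∃ γ, Good γ ∧ k < γ := by
  obtain ⟨γ, h1, h2⟩ := Mh.mahlo fun _ : K => k
  obtain ⟨β, hβ⟩ := h1.exists_lt
  exact ⟨γ, h1, h2 β hβ⟩

theorem Low.lt_K {β : K} {c : Cardinal.{u}} (h : Low β c) : c < #K :=
  let ⟨γ, h1, h2⟩ := exists_good_gt β; (h γ h1 h2).trans (Mh.iio γ)

theorem unc_K : ℵ₀ < #K :=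
  let ⟨γ, h1, _⟩ := Mh.mahlo (id : K → K); h1.unc.trans (Mh.iio γ)

theorem aleph0_le_K : ℵ₀ ≤ #K := (unc_K (K := K)).le

instance : Infinite K := Cardinal.infinite_iff.2 aleph0_le_K

theorem mk_Iic_lt (k : K) : #(Iic k) < #K := (low_Iic k).lt_K

theorem bounded {S : Set K} (hS : #S < #K) : ∃ k, ∀ z ∈ S, z < k := Mh.bounded S hS

theorem bounded_fam {ι : Type u} (f : ι → K) (h : #ι < #K) : ∃ k, ∀ i, f i < k :=
  let ⟨k, hk⟩ := bounded (mk_range_le.trans_lt h : #(range f) < #K); ⟨k, fun i => hk _ ⟨i, rfl⟩⟩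

theorem exists_le_mk_Iio {c : Cardinal.{u}} (hc : c < #K) : ∃ k : K, c ≤ #(Iio k) := by
  obtain ⟨S, hS⟩ := le_mk_iff_exists_set.1 hc.le
  obtain ⟨k, hk⟩ := bounded (hS.trans_lt hc)
  exact ⟨k, hS ▸ mk_le_mk_of_subset hk⟩

theorem mk_iUnion_lt_K {α ι : Type u} (f : ι → Set α) (h : #ι < #K) (hf : ∀ i, #(f i) < #K) :
    #(⋃ i, f i) < #K := by
  choose g hg using fun i => exists_le_mk_Iio (hf i)
  obtain ⟨k, hk⟩ := bounded_fam g h
  exact (mk_iUnion_le f).trans_lt ((mul_le_mul' le_rfl (ciSup_le' fun i =>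
    (hg i).trans (mk_le_mk_of_subset (Iio_subset_Iio (hk i).le)))).trans_lt
      (mul_lt_of_lt aleph0_le_K h (Mh.iio k)))

theorem exists_gt_K (k : K) : ∃ k', k < k' := let ⟨γ, _, h⟩ := exists_good_gt k; ⟨γ, h⟩

theorem mk_fin_lt {α : Type u} [Finite α] : #α < #K := (lt_aleph0_of_finite α).trans unc_K

variable [WellFoundedLT K]

variable (K) in
noncomputable def kz : K := wellFounded_lt.min (univ : Set K) univ_nonempty

theorem kz_le (k : K) : kz K ≤ k := not_lt.1 (wellFounded_lt.not_lt_min univ (mem_univ k))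

theorem Good.kz_lt {ζ : K} (h : Good ζ) : kz K < ζ :=
  let ⟨β, hβ⟩ := h.exists_lt; (kz_le β).trans_lt hβ

/-! ### Ranked types -/

class Rk (K : Type u) [LinearOrder K] (ι : Type u) where
  rk : ι → K
  low : ∀ β : K, Low β #{t | rk t ≤ β}

export Rk (rk)

omit [WellFoundedLT K] in
theorem Rk.small {ι : Type u} [Rk K ι] (β : K) : #{t : ι | rk t ≤ β} < #K := (Rk.low β).lt_K

instance rkK {K : Type u} [LinearOrder K] [Mh K] : Rk K K := ⟨id, low_Iic⟩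

instance rkProd {α β : Type u} [Rk K α] [Rk K β] : Rk K (α × β) where
  rk t := max (rk t.1) (rk t.2)
  low b := by
    have : {t : α × β | max (rk t.1) (rk t.2) ≤ b} = {t | rk t ≤ b} ×ˢ {t | rk t ≤ b} := by
      ext t; simp
    rw [this, mk_setProd]
    exact (Rk.low b).mul (Rk.low b)

noncomputable instance rkULift {α : Type} [Finite α] : Rk K (ULift.{u} α) :=
  ⟨fun _ => kz K, fun _ _ hγ _ => hγ.mk_fin_lt⟩

omit [WellFoundedLT K] in
@[simp] theorem rk_K (k : K) : (rk k : K) = k := rfl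

omit [Mh K] [WellFoundedLT K] in
@[simp] theorem rk_prod {α β : Type u} [Rk K α] [Rk K β] (t : α × β) :
    (rk t : K) = max (rk t.1) (rk t.2) := rfl

@[simp] theorem rk_ulift {α : Type} [Finite α] (t : ULift.{u} α) : (rk t : K) = kz K := rfl

omit [WellFoundedLT K] in
theorem exists_rk_bound {ι : Type u} [Rk K ι] (S : Sm K ι) :
    {β : K | ∀ t ∈ S.1, rk t ≤ β}.Nonempty := by
  obtain ⟨k, hk⟩ := bounded (mk_image_le.trans_lt S.2 : #((rk : ι → K) '' S.1) < #K)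
  exact ⟨k, fun t ht => (hk _ ⟨t, ht, rfl⟩).le⟩

noncomputable def rkS {ι : Type u} [Rk K ι] (S : Sm K ι) : K :=
  wellFounded_lt.min _ (exists_rk_bound S)

theorem rkS_le {ι : Type u} [Rk K ι] (S : Sm K ι) (β : K) : rkS S ≤ β ↔ ∀ t ∈ S.1, rk t ≤ β :=
  ⟨fun h t ht => (wellFounded_lt.min_mem _ (exists_rk_bound S) t ht).trans h,
    fun h => not_lt.1 (wellFounded_lt.not_lt_min {β : K | ∀ t ∈ S.1, rk t ≤ β} h)⟩

noncomputable instance rkSm {ι : Type u} [Rk K ι] : Rk K (Sm K ι) where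
  rk := rkS
  low b γ hγ hb := by
    refine lt_of_le_of_lt ?_ (hγ.mk_powerset_lt (Rk.low (ι := ι) b γ hγ hb))
    refine mk_le_of_injective (f := fun S : {S : Sm K ι | rkS S ≤ b} =>
      (⟨S.1.1, (rkS_le _ _).1 S.2⟩ : 𝒫 {t : ι | rk t ≤ b})) fun S S' h => ?_
    exact Subtype.ext (Subtype.ext (Subtype.mk.inj h))

theorem rk_Sm_le {ι : Type u} [Rk K ι] (S : Sm K ι) (β : K) :
    rk S ≤ β ↔ ∀ t ∈ S.1, rk t ≤ β := rkS_le S β

/-- Pulling back a rank along an injection. -/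
@[reducible] def Rk.pull {α β : Type u} [Rk K β] (f : α → β) (hf : Function.Injective f) :
    Rk K α where
  rk a := rk (f a)
  low b := (Rk.low b).mono le_rfl (mk_preimage_of_injective f {t | rk t ≤ b} hf)

noncomputable instance rkPi {d : ℕ} : Rk K (Fin d → K) :=
  Rk.pull (fun f => (⟨range fun j => (ULift.up j, f j), (finite_range _).lt_aleph0.trans unc_K⟩ :
    Sm K (ULift.{u} (Fin d) × K))) (by
      intro f g h
      funext j
      have : (ULift.up j, f j) ∈ range fun j => (ULift.up.{u} j, g j) := by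
        rw [← Subtype.mk.inj h]; exact ⟨j, rfl⟩
      obtain ⟨j', hj⟩ := this
      obtain ⟨h1, h2⟩ := Prod.mk.inj hj
      rw [← h2, ULift.up_inj.1 h1])

theorem rk_pi_le {d : ℕ} (f : Fin d → K) (β : K) : rk f ≤ β ↔ ∀ j, f j ≤ β := by
  refine (rk_Sm_le _ β).trans ⟨fun h j => ?_, ?_⟩
  · exact (le_max_right _ _).trans (h (ULift.up j, f j) ⟨j, rfl⟩)
  · rintro h _ ⟨j, rfl⟩
    exact max_le (kz_le β) (h j)

omit [WellFoundedLT K] in
theorem mk_le_K (ι : Type u) [Rk K ι] : #ι ≤ #K := by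
  have : (univ : Set ι) ⊆ ⋃ β : K, {t | rk t ≤ β} := fun t _ => mem_iUnion.2 ⟨rk t, le_rfl⟩
  rw [← mk_univ]
  exact (mk_le_mk_of_subset this).trans
    (mk_iUnion_le_of_le _ aleph0_le_K le_rfl fun β => (Rk.small β).le)

theorem Good.rk_Sm_lt {ζ : K} (h : Good ζ) {ι : Type u} [Rk K ι] (S : Sm K ι)
    (h1 : #S.1 < #(Iio ζ)) (h2 : ∀ t ∈ S.1, rk t < ζ) : rk S < ζ := by
  obtain ⟨β, h3, h4⟩ := h.bdd_fam (fun t : S.1 => (rk t.1 : K)) h1 fun t => h2 t.1 t.2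
  exact ((rk_Sm_le S β).2 fun t ht => (h4 ⟨t, ht⟩).le).trans_lt h3

theorem Good.rk_pi_lt {ζ : K} (h : Good ζ) {d : ℕ} (f : Fin d → K) (h2 : ∀ j, f j < ζ) :
    rk f < ζ := by
  obtain ⟨β, h3, h4⟩ := h.bdd_fam (fun j : ULift.{u} (Fin d) => f j.down) h.mk_fin_lt
    fun j => h2 j.down
  exact ((rk_pi_le f β).2 fun j => (h4 ⟨j⟩).le).trans_lt h3

/-! ### The partition property -/

def PP (X : Type u) [Rk K X] (d : ℕ) (ζ Λ : K) : Prop :=
  ∀ F : (Fin d → K) → (Fin d → K) → Set X, (∀ a b, ∀ x ∈ F a b, rk x ≤ ζ) →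
    ∃ h, Hom F ζ h ∧ ∀ j a, a < ζ → h j a < Λ

omit [Mh K] in
theorem pp_of_card (X : Type u) [Rk K X] (d : ℕ) (ζ Λ : K) {θ : Cardinal.{u}} (h0 : ℵ₀ ≤ θ)
    (h1 : #(Iio ζ) ≤ θ) (h2 : #(𝒫 {x : X | rk x ≤ ζ}) ≤ θ)
    (h3 : erB (Fintype.card (Fin d ×ₗ Bool)) θ < #(Iio Λ)) : PP X d ζ Λ := by
  classical
  intro F hF
  obtain ⟨H, h0', h1', c, h2'⟩ := erdos_rado' h0 h2 (I := Fin d ×ₗ Bool)
    (fun e => (⟨F (fun j => e (toLex (j, false))) (fun j => e (toLex (j, true))), hF _ _⟩ :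
      𝒫 {x : X | rk x ≤ ζ})) (Iio Λ) h3
  obtain ⟨h, h3, h4⟩ := exists_strictMono_of_lt (J := ULift.{u} (Fin d) ×ₗ Iio ζ) (H := H)
    (by
      change #(ULift.{u} (Fin d) × Iio ζ) < _
      rw [mk_prod, lift_id, lift_id]
      exact lt_of_le_of_lt ((mul_le_mul' ((lt_aleph0_of_finite _).le.trans h0) h1).trans
        (mul_eq_self h0).le) h1')
  refine ⟨fun j a => if ha : a < ζ then h (toLex (ULift.up j, ⟨a, ha⟩)) else a, ⟨?_, c.1, ?_⟩, ?_⟩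
  · intro j j' a a' ha ha' he
    simp only [dif_pos ha, dif_pos ha'] at he
    obtain ⟨h5, h6⟩ := Prod.mk.inj (toLex.injective (h3.injective he))
    exact ⟨ULift.up_inj.1 h5, Subtype.mk.inj h6⟩
  · intro a b hab
    let e : Fin d ×ₗ Bool → K := fun t =>
      h (toLex (ULift.up (ofLex t).1, if (ofLex t).2 then ⟨b (ofLex t).1, (hab _).2⟩
        else ⟨a (ofLex t).1, (hab _).1.trans (hab _).2⟩))
    have he : StrictMono e := by
      intro s t hst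
      apply h3
      rw [Prod.Lex.lt_iff] at hst ⊢
      rcases hst with h5 | ⟨h5, h6⟩
      · exact Or.inl h5
      · refine Or.inr ⟨congrArg ULift.up h5, ?_⟩
        obtain ⟨h7, h8⟩ := Bool.lt_iff.1 h6
        simp only [ofLex_toLex, h7, h8, h5]
        exact (hab _).1
    have := congrArg Subtype.val (h2' e he fun i => h4 _)
    simp only [e, ofLex_toLex] at this
    rw [← this]
    congr 1
    · funext j; simp [(hab j).1.trans (hab j).2]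
    · funext j; simp [(hab j).2]
  · intro j a ha
    simp only [dif_pos ha]
    exact h0' (h4 _)

theorem Good.exists_Lam {γ ζ : K} (hγ : Good γ) (h : ζ < γ) :
    ∃ Λ, Λ < γ ∧ ∀ d, PP (XT K d) d ζ Λ := by
  have h1 : ∀ d : ULift.{u} ℕ, ∃ Λ, Λ < γ ∧ ∀ Λ', Λ ≤ Λ' → PP (XT K d.down) d.down ζ Λ' := by
    rintro ⟨d⟩
    let θ := max ℵ₀ (max #(Iio ζ) #(𝒫 {x : XT K d | rk x ≤ ζ}))
    have h2 : θ < #(Iio γ) :=
      max_lt hγ.unc (max_lt (hγ.init ζ h) (hγ.mk_powerset_lt (Rk.low ζ γ hγ h)))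
    obtain ⟨Λ, h3, h4⟩ := exists_le_mk_Iio_of_lt
      (succ_lt_of_pow hγ.pow (erB_lt hγ.pow h2 (Fintype.card (Fin d ×ₗ Bool))))
    exact ⟨Λ, h3, fun Λ' h5 => pp_of_card _ d ζ Λ' (θ := θ) (le_max_left _ _)
      ((le_max_left _ _).trans (le_max_right _ _)) ((le_max_right _ _).trans (le_max_right _ _))
      ((Order.lt_succ _).trans_le (h4.trans (mk_le_mk_of_subset (Iio_subset_Iio h5))))⟩
  choose f h2 h3 using h1
  obtain ⟨Λ, h4, h5⟩ := hγ.bdd_fam f (by simpa using hγ.unc) h2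
  exact ⟨Λ, h4, fun d => h3 ⟨d⟩ Λ (h5 _).le⟩

theorem exists_Lam (ζ : K) : {Λ | ∀ d, PP (XT K d) d ζ Λ}.Nonempty :=
  let ⟨_, h1, h2⟩ := exists_good_gt ζ; let ⟨Λ, _, h3⟩ := h1.exists_Lam h2; ⟨Λ, h3⟩

noncomputable def Lam (ζ : K) : K := wellFounded_lt.min _ (exists_Lam ζ)

theorem PP_Lam (ζ : K) (d : ℕ) : PP (XT K d) d ζ (Lam ζ) :=
  wellFounded_lt.min_mem _ (exists_Lam ζ) d

theorem Good.lam {γ : K} (hγ : Good γ) (β : K) (h : β < γ) : Lam β < γ := by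
  obtain ⟨Λ, h1, h2⟩ := hγ.exists_Lam h
  exact (not_lt.1 (wellFounded_lt.not_lt_min {Λ | ∀ d, PP (XT K d) d β Λ} h2)).trans_lt h1

/-! ### The stationary set and the Mahlo segments -/

/-- The inaccessible points that are not Mahlo. -/
def Sset (K : Type u) [LinearOrder K] : Set K :=
  {ζ | Good ζ ∧ ∃ F, Closed F ζ ∧ ∀ β, β < ζ → Good β → ¬ Closed F β}

/-- Initial segments of Mahlo length. -/
def Seg (B : Set K) : Prop := B = Set.univ ∨ ∃ μ, Good μ ∧ μ ∉ Sset K ∧ B = Iio μ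

namespace Seg

variable {B : Set K} (hB : Seg B)
include hB

omit [Mh K] [WellFoundedLT K] in
theorem low {a b : K} (h : a ≤ b) (hb : b ∈ B) : a ∈ B := by
  rcases hB with rfl | ⟨μ, -, -, rfl⟩
  · trivial
  · exact h.trans_lt hb

omit [Mh K] [WellFoundedLT K] in
theorem lt_of_notMem {a b : K} (ha : a ∈ B) (hb : b ∉ B) : a < b :=
  not_le.1 fun h => hb (hB.low h ha)

theorem kz_mem : kz K ∈ B := by
  rcases hB with rfl | ⟨μ, h, -, rfl⟩
  · trivial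
  · exact h.kz_lt

omit [Mh K] [WellFoundedLT K] hB in
theorem max_mem {a b : K} (ha : a ∈ B) (hb : b ∈ B) : max a b ∈ B := by
  rcases le_total a b with h | h
  · rwa [max_eq_right h]
  · rwa [max_eq_left h]

omit [WellFoundedLT K] in
theorem bdd {β : K} (hβ : β ∈ B) {Z : Set K} (hZ : Low β #Z) :
    ∃ γ ∈ B, ∀ z ∈ Z, z ∈ B → z < γ := by
  rcases hB with rfl | ⟨μ, h, -, rfl⟩
  · obtain ⟨γ, h⟩ := bounded hZ.lt_K
    exact ⟨γ, trivial, fun z hz _ => h z hz⟩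
  · obtain ⟨γ, h1, h2⟩ := h.reg (Z ∩ Iio μ) inter_subset_right
      ((mk_le_mk_of_subset inter_subset_left).trans_lt (hZ μ h hβ))
    exact ⟨γ, h1, fun z hz hz' => h2 z ⟨hz, hz'⟩⟩

theorem exists_closed' (F : K → K) (hF : ∀ β ∈ B, F β ∈ B) :
    ∃ ζ ∈ Sset K, ζ ∈ B ∧ Closed F ζ := by
  have h0 : ∃ ζ ∈ B, Good ζ ∧ Closed F ζ := by
    rcases hB with rfl | ⟨μ, h, h', rfl⟩
    · exact let ⟨ζ, h⟩ := Mh.mahlo F; ⟨ζ, trivial, h⟩
    · by_contra hc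
      exact h' ⟨h, F, hF, fun β h1 h2 h3 => hc ⟨β, h1, h2, h3⟩⟩
  obtain ⟨ζ₀, h3, h4⟩ := h0
  obtain ⟨ζ, h1, h2⟩ := wellFounded_lt.has_min {ζ : K | Good ζ ∧ Closed F ζ} ⟨ζ₀, h4⟩
  exact ⟨ζ, ⟨h1.1, F, h1.2, fun β hβ h3 h4 => h2 β ⟨h3, h4⟩ hβ⟩,
    hB.low (not_lt.1 (h2 ζ₀ h4)) h3, h1.2⟩

theorem exists_closed {ι : Type u} [Rk K ι] (G : ι → K) (hG : ∀ t, rk t ∈ B → G t ∈ B) {β₀ : K}
    (h₀ : β₀ ∈ B) : ∃ ζ ∈ Sset K, ζ ∈ B ∧ β₀ < ζ ∧ ∀ t, rk t < ζ → G t < ζ := by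
  have h1 : ∀ β : K, ∃ γ, β ∈ B → γ ∈ B ∧ ∀ t, rk t ≤ β → G t < γ := by
    intro β
    by_cases hβ : β ∈ B
    · obtain ⟨γ, h1, h2⟩ := hB.bdd hβ (Z := G '' {t | rk t ≤ β})
        ((Rk.low β).mono le_rfl mk_image_le)
      exact ⟨γ, fun _ => ⟨h1, fun t ht => h2 _ ⟨t, ht, rfl⟩ (hG t (hB.low ht hβ))⟩⟩
    · exact ⟨β, fun h => absurd h hβ⟩
  choose F hF using h1
  obtain ⟨ζ, h1, h2, h3⟩ := hB.exists_closed' (fun β => max (F β) β₀)
    fun β hβ => max_mem (hF β hβ).1 h₀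
  exact ⟨ζ, h1, h2, (le_max_right _ _).trans_lt (h3 _ h1.1.kz_lt), fun t ht =>
    ((hF (rk t) (hB.low ht.le h2)).2 t le_rfl).trans ((le_max_left _ _).trans_lt (h3 _ ht))⟩

end Seg

omit [Mh K] [WellFoundedLT K] in
theorem seg_univ : Seg (Set.univ : Set K) := Or.inl rfl

end Pool.Agent.Lib.MP_c8ac39_lc.MH
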