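import Pool.Agent.Lib.MP_c8ac39_lc.Defs

/-!
Definitions used in the statements: regular and Mahlo cardinals inside a structure `(M, E)`,
and Mahlo cardinals.
-/

namespace Pool.Agent.Lib.MP_c8ac39_lc.MH

open Pool.Agent.Lib.MP_2739cb_lc

universe u v

section Notions

variable {M : Type v} (E : M → M → Prop)

/-- `κ` is a regular cardinal: an infinite cardinal all of whose subsets of size `< κ` are
bounded below `κ`. -/
def IsRegIn (κ : M) : Prop :=
  IsCard E κ ∧ IsLimit E κ ∧ ∀ C, Sub E C κ → Small E C κ → ∃ γ, E γ κ ∧ Sub E C γ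

/-- `κ` is a Mahlo cardinal: regular, uncountable, a strong limit (the power set of every
`α < κ` has size `< κ`), and every closed unbounded `C ⊆ κ` has a regular cardinal as a member. -/
def IsMahloIn (κ : M) : Prop :=
  IsRegIn E κ ∧ (∃ l, E l κ ∧ IsLimit E l) ∧
    (∀ α W, E α κ → (∀ z, E z W ↔ Sub E z α) → Small E W κ) ∧
    ∀ C, Sub E C κ → (∀ α, E α κ → ∃ γ, E γ C ∧ E α γ) →
      (∀ β, E β κ → IsLimit E β → (∀ α, E α β → ∃ γ, E γ C ∧ E α γ ∧ E γ β) → E β C) →
      ∃ β, E β C ∧ IsRegIn E β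

end Notions

/-- `κ` is Mahlo: it is inaccessible and the regular cardinals are stationary below `κ`. -/
def IsMahlo (κ : Cardinal.{u}) : Prop :=
  κ.IsInaccessible ∧
    IsStationary {a : Set.Iio κ.ord | ∃ c : Cardinal.{u}, c.IsRegular ∧ c.ord = a.1}

end Pool.Agent.Lib.MP_c8ac39_lc.MH
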