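import Pool.Agent.Lib.MP_c8ac39_lc.Bridge
import Pool.Agent.Lib.MP_c8ac39_lc.MH.Defs

/-! First order facts on regular cardinals in the quotient model, and their truth values. -/

namespace Pool.Agent.Lib.MP_c8ac39_lc.MH

open Pool.Agent.Lib.MP_2739cb_lc Nm

universe u

set_option synthInstance.maxSize 4000

variable {P : Type u} [Preorder P] [OrderTop P]

/-- `F` is a single valued relation. -/
def FnIn (F : Mod P) : Prop := ∀ a b b', App EM F a b → App EM F a b' → b = b'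

/-- Single valued relations on an ordinal below `m` are bounded below `m`. -/
def BddIn (m : Mod P) : Prop :=
  ∀ l F, EM l m → FnIn F → ∃ γ, EM γ m ∧ ∀ a b, EM a l → EM b m → App EM F a b → EM b γ

def fnR (F : Nm P) : RO P := RO.all fun a => RO.all fun b => RO.all fun b' =>
  RO.imp (appR F a b) (RO.imp (appR F a b') (RO.eq b b'))

omit [OrderTop P] in
instance : Ext (fnR (P := P)) := by unfold fnR; infer_instance

theorem T_fnR (F : Nm P) : T (fnR F) ↔ FnIn (cls F) := by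
  simp only [fnR, FnIn, T_all, T_imp, T_app, T_eq, cls_rep]

def bddR (m : Nm P) : RO P := RO.all fun l => RO.all fun F => RO.imp (RO.mem l m)
  (RO.imp (fnR F) (RO.ex fun γ => RO.and (RO.mem γ m) (RO.all fun a => RO.all fun b =>
    RO.imp (RO.mem a l) (RO.imp (RO.mem b m) (RO.imp (appR F a b) (RO.mem b γ))))))

omit [OrderTop P] in
instance : Ext (bddR (P := P)) := by unfold bddR; infer_instance

theorem T_bddR (m : Nm P) : T (bddR m) ↔ BddIn (cls m) := by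
  simp only [bddR, BddIn, T_all, T_imp, T_ex, T_and, T_mem, T_app, T_fnR, cls_rep]

def limR (l : Nm P) : RO P := RO.and (RO.ex fun z => RO.mem z l) (RO.all fun α =>
  RO.imp (RO.mem α l) (RO.ex fun β => RO.and (RO.mem β l) (RO.mem α β)))

omit [OrderTop P] in
instance : Ext (limR (P := P)) := by unfold limR; infer_instance

theorem T_limR (l : Nm P) : T (limR l) ↔ IsLimit EM (cls l) := by
  simp only [limR, IsLimit, T_all, T_imp, T_ex, T_and, T_mem, cls_rep]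

/-- A definable map from part of `β` onto `W` gives an injection of `W` into `β`. -/
theorem cardLe_of_surj {F W β : Mod P} (hF : FnIn F)
    (h : ∀ z, EM z W → ∃ b, EM b β ∧ App EM F b z) : CardLe EM W β := by
  obtain ⟨f, B, f1, f2⟩ := choice_fun (fun z b => EM b β ∧ App EM F b z) W h
  obtain ⟨g, g1, g2⟩ := fun_ex (fun z b => App EM f z b) W β fun z hz => by
    obtain ⟨b, h1, -⟩ := M_zfc.app_total f1 hz
    exact ⟨b, ⟨(f2 _ _ h1).1, h1⟩, fun b' hb' => M_zfc.app_unique f1 hb'.2 h1⟩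
  exact ⟨g, g1, fun a a' b h1 h2 =>
    hF b a a' (f2 _ _ ((g2 _ _).1 h1).2.2).2 (f2 _ _ ((g2 _ _).1 h2).2.2).2⟩

theorem isRegIn_of_bddIn {m : Mod P} (h1 : IsOrd EM m) (h2 : IsLimit EM m) (h3 : BddIn m) :
    IsRegIn EM m := by
  refine ⟨⟨h1, ?_⟩, h2, ?_⟩
  · rintro α hα ⟨f, f1, f2⟩
    obtain ⟨γ, h4, h5⟩ := h3 α f hα fun _ _ _ => M_zfc.app_unique f1.1
    obtain ⟨c, hc⟩ := f2 γ h4
    exact M_zfc.not_mem_self γ (h5 c γ (M_zfc.app_mem f1.1 hc).1 h4 hc)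
  · rintro C hC ⟨α, hα, f, f1, f2⟩
    obtain ⟨D, hD⟩ := sep (fun a => ∃ c, App EM f c a) α
    obtain ⟨g, g1, g2⟩ := fun_ex (fun a c => App EM f c a) D C fun a ha => by
      obtain ⟨-, c, hc⟩ := (hD a).1 ha
      exact ⟨c, ⟨(M_zfc.app_mem f1 hc).1, hc⟩, fun c' hc' => f2 _ _ _ hc'.2 hc⟩
    obtain ⟨γ, h4, h5⟩ := h3 α g hα fun _ _ _ => M_zfc.app_unique g1
    refine ⟨γ, h4, fun c hc => ?_⟩
    obtain ⟨a, h6, h7⟩ := M_zfc.app_total f1 hc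
    exact h5 a c h7 (hC c hc) ((g2 _ _).2 ⟨(hD a).2 ⟨h7, c, h6⟩, hc, h6⟩)

theorem bddIn_of_isRegIn {m : Mod P} (h : IsRegIn EM m) : BddIn m := by
  intro l F hl hF
  obtain ⟨C, hC⟩ := sep (fun b => ∃ a, EM a l ∧ App EM F a b) m
  obtain ⟨γ, h1, h2⟩ := h.2.2 C (fun b hb => ((hC b).1 hb).1)
    ⟨l, hl, cardLe_of_surj hF fun z hz => ((hC z).1 hz).2⟩
  exact ⟨γ, h1, fun a b ha hb hab => h2 b ((hC b).2 ⟨hb, a, ha, hab⟩)⟩

theorem big_isRegIn {k : Mod P} (h : Big k) : IsRegIn EM k := by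
  refine ⟨h.isCard, h.lim, fun C hC hs => ?_⟩
  obtain ⟨γ, h1, h2⟩ := h.bdd (fun c η => c = η) C hs fun c η η' _ e e' => e.symm.trans e'
  exact ⟨γ, h1, fun c hc => h2 c c hc (hC c hc) rfl⟩

theorem big_of_reg {k m : Mod P} (hk : Big k) (hm : EM m k) (h : IsRegIn EM m) : Big m := by
  refine ⟨h.1.1, h.2.1, fun ψ φ _ _ => ?_, fun φ _ C hC hφ => ?_⟩
  · have : ∀ {ι : Type} (f : (ι → Mod P) → Mod P) [Tm f], Df fun v => ψ (f v) :=
      fun f _ => Df.of1 ψ f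
    obtain ⟨B, hB⟩ := hk.greedy (fun ζ => EM ζ m ∧ ψ ζ) φ
    refine ⟨B, fun ζ => (hB ζ).trans ⟨fun h1 => ⟨h1.2.1.1, h1.2.1.2, h1.2.2⟩, fun h1 => ?_⟩⟩
    exact ⟨hk.ord.1 m hm ζ h1.1, ⟨h1.1, h1.2.1⟩, h1.2.2⟩
  · have : ∀ {ι : Type} (f g : (ι → Mod P) → Mod P) [Tm f] [Tm g], Df fun v => φ (f v) (g v) :=
      fun f g _ _ => Df.of2 φ f g
    obtain ⟨α, hα, f, f1, f2⟩ := hC
    obtain ⟨D, hD⟩ := sep (fun a => ∃ η, EM η m ∧ ∃ c, EM c C ∧ φ c η ∧ App EM f c a) α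
    obtain ⟨g, g1, g2⟩ := fun_ex (fun a η => ∃ c, EM c C ∧ φ c η ∧ App EM f c a) D m
      fun a ha => by
        obtain ⟨-, η, h1, c, h2, h3, h4⟩ := (hD a).1 ha
        refine ⟨η, ⟨h1, c, h2, h3, h4⟩, ?_⟩
        rintro η' ⟨-, c', -, h5, h6⟩
        exact hφ c η' η h2 (f2 _ _ _ h6 h4 ▸ h5) h3
    obtain ⟨γ, h1, h2⟩ := bddIn_of_isRegIn h α g hα fun _ _ _ => M_zfc.app_unique g1
    refine ⟨γ, h1, fun c η hc hη hcη => ?_⟩
    obtain ⟨a, h3, h4⟩ := M_zfc.app_total f1 hc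
    exact h2 a η h4 hη ((g2 _ _).2 ⟨(hD a).2 ⟨h4, η, hη, c, hc, hcη, h3⟩, hη, c, hc, hcη, h3⟩)

/-- A Mahlo cardinal does not inject into the power set of a smaller ordinal. -/
theorem no_inj_pow {m β G : Mod P} (h : IsMahloIn EM m) (hβ : EM β m)
    (h1 : ∀ a z, App EM G a z → Sub EM z β) (h2 : ∀ a, EM a m → ∃ z, App EM G a z)
    (h3 : ∀ a a' z, App EM G a z → App EM G a' z → a = a') : False := by
  obtain ⟨W, hW⟩ := M_power β
  obtain ⟨α, hα, f, f1, f2⟩ := h.2.2.1 β W hβ hW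
  obtain ⟨D, hD⟩ := sep (fun x => ∃ a, EM a m ∧ ∃ z, App EM G a z ∧ App EM f z x) α
  obtain ⟨g, g1, g2⟩ := fun_ex (fun x a => ∃ z, App EM G a z ∧ App EM f z x) D m fun x hx => by
    obtain ⟨-, a, h4, z, h5, h6⟩ := (hD x).1 hx
    refine ⟨a, ⟨h4, z, h5, h6⟩, ?_⟩
    rintro a' ⟨-, z', h7, h8⟩
    exact h3 a' a z (f2 _ _ _ h8 h6 ▸ h7) h5
  obtain ⟨γ, h4, h5⟩ := bddIn_of_isRegIn h.1 α g hα fun _ _ _ => M_zfc.app_unique g1
  obtain ⟨z, hz⟩ := h2 γ h4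
  obtain ⟨x, h6, h7⟩ := M_zfc.app_total f1 ((hW z).2 (h1 γ z hz))
  exact M_zfc.not_mem_self γ
    (h5 x γ h7 h4 ((g2 _ _).2 ⟨(hD x).2 ⟨h7, γ, h4, z, hz, h6⟩, h4, z, hz, h6⟩))

end Pool.Agent.Lib.MP_c8ac39_lc.MH
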