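import Pool.Agent.Lib.MP_c8ac39_lc.MH.BigM
import Pool.Agent.Lib.MP_c8ac39_lc.MH.Base

/-! A point that is forced to be Mahlo is Mahlo in the ground. -/

namespace Pool.Agent.Lib.MP_c8ac39_lc.MH

open Cardinal Filter Set Pool.Agent.Lib.MP_2739cb_lc Nm

universe u

set_option synthInstance.maxSize 4000

variable {K : Type u} [LinearOrder K] [WellFoundedLT K] {P : Type u} [Preorder P] [OrderTop P]

/-- The condition `q` forces that `m` is the set of the ordinals in `B`. -/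
structure NameOf (B : Set K) (m : Nm P) (q : P) : Prop where
  mem : ∀ a ∈ B, ∀ r, r ≤ q → FMem (nk a) m r
  of_mem : ∀ x r, r ≤ q → FMem x m r → ∃ s, s ≤ r ∧ ∃ a ∈ B, FEq x (nk a) s

theorem NameOf.mono {B : Set K} {m : Nm P} {q r : P} (h : NameOf B m q) (hr : r ≤ q) :
    NameOf B m r :=
  ⟨fun a ha s hs => h.mem a ha s (hs.trans hr), fun x s hs => h.of_mem x s (hs.trans hr)⟩

theorem nameOf_kN (q : P) : NameOf (univ : Set K) (kN K) q :=
  ⟨fun a _ r _ => nk_mem_kN a r, fun _ r _ h =>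
    let ⟨s, hs, a, h1⟩ := mem_kN h r le_rfl; ⟨s, hs, a, trivial, h1⟩⟩

theorem nameOf_nk {m : Nm P} {μ : K} {q : P} (h : FEq m (nk μ) q) : NameOf (Iio μ) m q :=
  ⟨fun _ ha r hr => (nk_mem_nk ha r).subst_right (h.mono hr).symm, fun _ r hr h1 =>
    let ⟨s, hs, a, h2, h3⟩ := mem_nk (h1.subst_right (h.mono hr)) r le_rfl; ⟨s, hs, a, h2, h3⟩⟩

/-- Forced regularity gives regularity in the ground. -/
theorem bdd_ground {μ β : K} {p : P} (hp : (pairInj P).s p) (h : (bddR (nk μ)).s p) (hβ : β < μ)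
    {S : Set K} (h1 : S ⊆ Iio μ) (h2 : #S ≤ #(Iio β)) : ∃ g, g < μ ∧ ∀ s ∈ S, s < g := by
  obtain ⟨e⟩ := (Cardinal.le_def _ _).1 h2
  obtain ⟨r, -, γ, h3, h4⟩ := h (nk β)
    (relNm (I := S) (fun s => nk (e s).1) (fun s => nk s.1) fun _ => pr True) p le_rfl
    (nk_mem_nk hβ p) p le_rfl (fun a b b' q hq h5 q' hq' h6 => FEq.reg fun w hw => by
      obtain ⟨r₁, hr₁, s, -, e1, e2⟩ := of_app_relNm (RO.mono hp hq) h5 w (hw.trans hq')
      obtain ⟨r₂, hr₂, s', -, e3, e4⟩ :=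
        of_app_relNm (RO.mono hp (hq'.trans hq)) h6 r₁ (hr₁.trans hw)
      obtain rfl : s = s' := e.injective (Subtype.ext (nk_inj ((e1.mono hr₂).symm.trans e3)))
      exact ⟨r₂, hr₂.trans hr₁, (e2.mono hr₂).trans e4.symm⟩) p le_rfl
  obtain ⟨t, ht, g, hg, h5⟩ := mem_nk h3 r le_rfl
  exact ⟨g, hg, fun s hs => nk_lt (FMem.subst_right (h4 (nk (e ⟨s, hs⟩).1) (nk s) t ht
    (nk_mem_nk (e _).2 t) t le_rfl (nk_mem_nk (h1 hs) t) t le_rfl
    (app_relNm (I := S) ⟨s, hs⟩ trivial)) h5)⟩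

theorem lim_ground {l : K} {p : P} (h : (limR (nk l)).s p) : ℵ₀ ≤ #(Iio l) := by
  have : Nonempty (Iio l) := by
    obtain ⟨r, -, z, hz⟩ := h.1 p le_rfl
    obtain ⟨-, -, a, ha, -⟩ := mem_nk hz r le_rfl
    exact ⟨⟨a, ha⟩⟩
  have : NoMaxOrder (Iio l) := ⟨fun a => by
    obtain ⟨r, -, β, h1, h2⟩ := h.2 (nk a.1) p le_rfl (nk_mem_nk a.2 p) p le_rfl
    obtain ⟨s, hs, b, hb, e⟩ := mem_nk h1 r le_rfl
    exact ⟨⟨b, hb⟩, (nk_lt (a := a.1) (b := b) (FMem.subst_right (FMem.mono h2 hs) e) :)⟩⟩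
  exact aleph0_le_mk _

/-- The closure points of a map are unbounded below an inaccessible closure point. -/
theorem Good.exists_closed_gt {μ α : K} (h : Good μ) {G : K → K} (hG : Closed G μ) (hα : α < μ) :
    ∃ γ, γ < μ ∧ α < γ ∧ Closed G γ := by
  have h1 : ∀ a : Iio μ, ∃ a' : Iio μ, a.1 < a'.1 ∧ ∀ β, β < a.1 → G β < a'.1 := fun a => by
    obtain ⟨b, h1, h2⟩ := h.bdd_fam (fun β : Iio a.1 => G β.1) (h.init _ a.2)
      fun β => hG _ (lt_trans β.2 a.2)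
    obtain ⟨c, h3, h4⟩ := h.exists_gt (max_lt a.2 h1)
    exact ⟨⟨c, h3⟩, (le_max_left _ _).trans_lt h4, fun β hβ =>
      (h2 ⟨β, hβ⟩).trans ((le_max_right _ _).trans_lt h4)⟩
  choose f f1 f2 using h1
  obtain ⟨β, h2, h3⟩ := h.bdd_fam (fun n : ULift.{u} ℕ => (f^[n.down] ⟨α, hα⟩).1)
    (by simpa using h.unc) fun n => (f^[n.down] ⟨α, hα⟩).2
  obtain ⟨γ, h4, h5⟩ := wellFounded_lt.has_min {γ : K | ∀ n : ℕ, (f^[n] ⟨α, hα⟩).1 < γ}
    ⟨β, fun n => h3 ⟨n⟩⟩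
  refine ⟨γ, (not_lt.1 (h5 β fun n => h3 ⟨n⟩)).trans_lt h2, h4 0, fun x hx => ?_⟩
  obtain ⟨n, hn⟩ := not_forall.1 fun hc => h5 x hc hx
  have h6 := h4 (n + 1 + 1)
  rw [Function.iterate_succ_apply', Function.iterate_succ_apply'] at h6
  exact (f2 _ x ((not_lt.1 hn).trans_lt (f1 _))).trans h6

theorem init_ground {μ : K} {p : P} (hp : (pairInj P).s p) (h : (bddR (nk μ)).s p) (β : K)
    (hβ : β < μ) : #(Iio β) < #(Iio μ) := by
  by_contra hc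
  obtain ⟨g, h1, h2⟩ := bdd_ground hp h hβ subset_rfl (not_lt.1 hc)
  exact lt_irrefl _ (h2 g h1)

theorem reg_ground {μ : K} {p : P} (hp : (pairInj P).s p) (h : (bddR (nk μ)).s p) (S : Set K)
    (h1 : S ⊆ Iio μ) (h2 : #S < #(Iio μ)) : ∃ β, β < μ ∧ ∀ z ∈ S, z < β :=
  let ⟨_, h3, h4⟩ := exists_le_mk_Iio_of_lt h2; bdd_ground hp h h3 h1 h4

/-- No injection into the power set of a smaller ordinal. -/
def powR (m : Nm P) : RO P := RO.all fun β => RO.all fun G => RO.imp (RO.mem β m)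
  (RO.imp (RO.all fun a => RO.all fun z => RO.imp (appR G a z) (subR z β))
  (RO.imp (RO.all fun a => RO.imp (RO.mem a m) (RO.ex fun z => appR G a z))
  (RO.imp (RO.all fun a => RO.all fun a' => RO.all fun z =>
    RO.imp (appR G a z) (RO.imp (appR G a' z) (RO.eq a a'))) RO.bot)))

omit [OrderTop P] in
instance : Ext (powR (P := P)) := by unfold powR; infer_instance

/-- Every club has a regular member. -/
def clubR (m : Nm P) : RO P := RO.all fun C => RO.imp (subR C m)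
  (RO.imp (RO.all fun α => RO.imp (RO.mem α m) (RO.ex fun γ => RO.and (RO.mem γ C) (RO.mem α γ)))
  (RO.imp (RO.all fun β => RO.imp (RO.mem β m) (RO.imp (limR β)
    (RO.imp (RO.all fun α => RO.imp (RO.mem α β) (RO.ex fun γ =>
      RO.and (RO.mem γ C) (RO.and (RO.mem α γ) (RO.mem γ β)))) (RO.mem β C))))
  (RO.ex fun β => RO.and (RO.mem β C) (RO.and (limR β) (bddR β)))))

omit [OrderTop P] in
instance : Ext (clubR (P := P)) := by unfold clubR; infer_instance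

theorem pow_ground {μ : K} {p : P} (hp : (pairInj P).s p) (h : (powR (nk μ)).s p)
    (c : Cardinal.{u}) (hc : c < #(Iio μ)) : 2 ^ c < #(Iio μ) := by
  obtain ⟨β, hβ, h1⟩ := exists_le_mk_Iio_of_lt hc
  by_contra h2
  obtain ⟨j⟩ := (Cardinal.le_def (Iio μ) (Set (Iio β))).1 (by
    rw [mk_set]
    exact (not_lt.1 h2).trans (power_le_power_left two_ne_zero h1))
  let σ : Iio μ → Nm P := fun a =>
    famNm (I := Iio β) (fun ξ => nk ξ.1) fun ξ => pr (ξ ∈ j a)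
  have key : ∀ i i' r, FEq (σ i) (σ i') r → j i ⊆ j i' := fun i i' r e ξ hξ => by
    have h3 : FMem (nk ξ.1) (σ i) r :=
      (fmem_famNm _ _ _ _).2 (RO.ex_intro ξ ⟨hξ, FEq.refl _ _⟩)
    obtain ⟨s, -, ξ', h4, h5⟩ := (fmem_famNm _ _ _ _).1 (h3.subst_right e) r le_rfl
    obtain rfl : ξ = ξ' := Subtype.ext (nk_inj h5)
    exact h4
  refine h (nk β) (relNm (I := Iio μ) (fun a => nk a.1) σ fun _ => pr True) p le_rfl
    (nk_mem_nk hβ p) p le_rfl (fun a z q hq h3 => RO.reg fun w hw => ?_) p le_rfl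
    (fun a q _ ha w hw => ?_) p le_rfl fun a a' z q hq h3 q' hq' h4 => FEq.reg fun w hw => ?_
  · obtain ⟨r, hr, i, -, -, e⟩ := of_app_relNm (RO.mono hp hq) h3 w hw
    refine ⟨r, hr, Ext.subst (fun z => subR z _) e.symm fun x s _ hx => FMem.reg fun t ht => ?_⟩
    obtain ⟨v, hv, ξ, -, e'⟩ := (fmem_famNm _ _ _ _).1 hx t ht
    exact ⟨v, hv, (nk_mem_nk ξ.2 v).subst_left (FEq.symm e')⟩
  · obtain ⟨r, hr, a₀, h3, e⟩ := mem_nk ha w hw
    exact ⟨r, hr, σ ⟨a₀, h3⟩, Ext.subst (fun a => appR _ a _) e.symm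
      (app_relNm (I := Iio μ) ⟨a₀, h3⟩ trivial)⟩
  · obtain ⟨r₁, hr₁, i, -, e1, e2⟩ := of_app_relNm (RO.mono hp hq) h3 w (hw.trans hq')
    obtain ⟨r₂, hr₂, i', -, e3, e4⟩ :=
      of_app_relNm (RO.mono hp (hq'.trans hq)) h4 r₁ (hr₁.trans hw)
    have e5 := (e2.mono hr₂).symm.trans e4
    obtain rfl : i = i' := j.injective (subset_antisymm (key _ _ _ e5) (key _ _ _ e5.symm))
    exact ⟨r₂, hr₂.trans hr₁, (e1.mono hr₂).trans e3.symm⟩

theorem club_ground {μ : K} {p : P} (hp : (pairInj P).s p) (h : (clubR (nk μ)).s p)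
    (hμ : Good μ) : μ ∉ Sset K := by
  rintro ⟨-, F, hF, hc⟩
  have h1 : ∀ γ, ∃ g, γ < μ → g < μ ∧ max ℵ₀ (2 ^ #(Iio γ)) ≤ #(Iio g) := fun γ => by
    by_cases hγ : γ < μ
    · obtain ⟨g, h1⟩ := exists_le_mk_Iio_of_lt (max_lt hμ.unc (hμ.pow _ (hμ.init γ hγ)))
      exact ⟨g, fun _ => h1⟩
    · exact ⟨γ, fun h => absurd h hγ⟩
  choose g hg using h1
  let G : K → K := fun γ => max (F γ) (g γ)
  have hG : Closed G μ := fun γ hγ => max_lt (hF γ hγ) (hg γ hγ).1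
  let C : Nm P := famNm (I := K) nk fun a => pr (a < μ ∧ Closed G a)
  have c1 : ∀ a w, a < μ → Closed G a → FMem (nk a) C w := fun a w h1 h2 =>
    (fmem_famNm _ _ _ _).2 (RO.ex_intro a ⟨⟨h1, h2⟩, FEq.refl _ _⟩)
  have c2 : ∀ x w, FMem x C w → ∀ q, q ≤ w → ∃ r, r ≤ q ∧ ∃ a, (a < μ ∧ Closed G a) ∧
      FEq x (nk a) r := fun x w hx => (fmem_famNm _ _ _ _).1 hx
  obtain ⟨r, hr, β, h2, h3, h4⟩ := h C p le_rfl
    (fun x q _ hx => FMem.reg fun w hw =>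
      let ⟨r, hr, _, h1, e⟩ := c2 x q hx w hw; ⟨r, hr, (nk_mem_nk h1.1 r).subst_left e.symm⟩)
    p le_rfl (fun α q _ hα w hw => by
      obtain ⟨r, hr, a, h1, e⟩ := mem_nk hα w hw
      obtain ⟨γ, h2, h3, h4⟩ := hμ.exists_closed_gt hG h1
      exact ⟨r, hr, nk γ, c1 γ r h2 h4, (nk_mem_nk h3 r).subst_left e.symm⟩)
    p le_rfl (fun β q _ hβ q₁ hq₁ _ q₂ hq₂ h1 => FMem.reg fun w hw => by
      obtain ⟨r, hr, b, h2, e⟩ := mem_nk hβ w (hw.trans (hq₂.trans hq₁))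
      refine ⟨r, hr, (c1 b r h2 fun x hx => ?_).subst_left e.symm⟩
      obtain ⟨s, hs, γ, h3, h4, h5⟩ := h1 (nk x) r (hr.trans hw)
        ((nk_mem_nk hx r).subst_right e.symm) r le_rfl
      obtain ⟨t, ht, a, h6, e'⟩ := c2 γ s h3 s le_rfl
      exact (h6.2 x (nk_lt (FMem.subst_right (FMem.mono h4 ht) e'))).trans
        (nk_lt (((FMem.mono h5 ht).subst_left e').subst_right (e.mono (ht.trans hs)))))
    p le_rfl
  obtain ⟨s, hs, b, ⟨h5, h6⟩, e⟩ := c2 β r h2 r le_rfl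
  have p1 := RO.mono hp (hs.trans hr)
  have b1 := Ext.subst limR e (RO.mono h3 hs)
  have b2 := Ext.subst bddR e (RO.mono h4 hs)
  have b3 : ∀ γ, γ < b → max ℵ₀ (2 ^ #(Iio γ)) < #(Iio b) := fun γ hγ =>
    (hg γ (hγ.trans h5)).2.trans_lt
      (init_ground p1 b2 _ ((le_max_right _ _).trans_lt (h6 γ hγ)))
  obtain ⟨⟨γ, hγ⟩⟩ : Nonempty (Iio b) :=
    mk_ne_zero_iff.1 (aleph0_pos.trans_le (lim_ground b1)).ne'
  refine hc b h5 ⟨(le_max_left _ _).trans_lt (b3 γ hγ), init_ground p1 b2, reg_ground p1 b2,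
    fun c hc => ?_⟩ fun γ hγ => (le_max_left _ _).trans_lt (h6 γ hγ)
  obtain ⟨δ, h7, h8⟩ := exists_le_mk_Iio_of_lt hc
  exact ((power_le_power_left two_ne_zero h8).trans (le_max_right _ _)).trans_lt (b3 δ h7)

theorem seg_of_mahlo [Mh K] {m : Nm P} (h1 : EM (cls m) (cls (kN K)))
    (h2 : IsMahloIn EM (cls m)) :
    T (RO.dense fun r => ∃ B : Set K, Seg B ∧ NameOf B m r) := by
  have F1 := (T_mem _ _).2 h1
  have F2 := (T_bddR m).2 (bddIn_of_isRegIn h2.1)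
  have F3 : T (RO.ex fun l => RO.and (RO.mem l m) (limR l)) := by
    simpa only [T_ex, T_and, T_mem, T_limR, cls_rep] using h2.2.1
  have F4 : T (powR m) := by
    simp only [powR, T_all, T_imp, T_ex, T_mem, T_eq, T_app, T_sub, T_bot, cls_rep]
    exact fun β G => no_inj_pow h2
  have F5 : T (clubR m) := by
    simp only [clubR, T_all, T_imp, T_ex, T_and, T_mem, T_sub, T_limR, T_bddR, cls_rep]
    intro C c1 c2 c3
    obtain ⟨β, h3, h4⟩ := h2.2.2.2 C c1 c2 c3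
    exact ⟨β, h3, h4.2.1, bddIn_of_isRegIn h4⟩
  have F6 := T_pairInj (P := P)
  unfold T at *
  filter_upwards [F1, F2, F3, F4, F5, F6] with p f1 f2 f3 f4 f5 f6 q hq
  obtain ⟨r, hr, μ, e⟩ := mem_kN f1 q hq
  have hp := hr.trans hq
  have p1 := RO.mono f6 hp
  have b1 := Ext.subst bddR e (RO.mono f2 hp)
  have hμ : Good μ := by
    refine ⟨?_, init_ground p1 b1, reg_ground p1 b1,
      pow_ground p1 (Ext.subst powR e (RO.mono f4 hp))⟩
    obtain ⟨s, hs, l, h3, h4⟩ := f3 r hp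
    obtain ⟨t, ht, a, h5, e'⟩ := mem_nk (FMem.subst_right h3 (e.mono hs)) s le_rfl
    exact (lim_ground (Ext.subst limR e' (RO.mono h4 ht))).trans_lt (init_ground p1 b1 a h5)
  exact ⟨r, hr, Iio μ, Or.inr ⟨μ, hμ, club_ground p1 (Ext.subst clubR e (RO.mono f5 hp)) hμ, rfl⟩,
    nameOf_nk e⟩

end Pool.Agent.Lib.MP_c8ac39_lc.MH
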