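import Pool.Agent.Lib.MP_c8ac39_lc.MH.Up

/-! The measurable case: the tail is the ultrapower of the product. -/

namespace Pool.Agent.Lib.MP_c8ac39_lc.MH

open Cardinal Filter Set Pool.Agent.Lib.MP_2739cb_lc Nm

universe u v

section Ms

variable {K : Type u} [LinearOrder K] [Ms K] [WellFoundedLT K]

theorem ae_good : ∀ᶠ ζ in UF K, Good ζ := by
  have h1 : ∀ᶠ ζ in UF K, ∀ β, β < ζ → 2 ^ #(Iio β) < #(Iio ζ) := diagK fun β => by
    obtain ⟨k, hk⟩ := MP_c8ac39_lc.exists_le_mk_Iio (succ_lt_K (two_pow_lt (Ms.iio β)))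
    exact (ae_gt k).mono fun x hx => (Order.lt_succ _).trans_le
      (hk.trans (mk_le_mk_of_subset (Iio_subset_Iio hx.le)))
  filter_upwards [h1, MP_c8ac39_lc.ae_good] with ζ h2 h3
  refine ⟨h3.unc, h3.init, h3.reg, fun c hc => ?_⟩
  obtain ⟨β, h4, h5⟩ := exists_le_mk_Iio_of_lt hc
  exact (power_le_power_left two_ne_zero h5).trans_lt (h2 β h4)

theorem mh_of_ms : Mh K :=
  ⟨Ms.iio, fun _ hS => MP_c8ac39_lc.bounded hS,
    fun F => (ae_good.and (diagK fun β => ae_gt (F β))).exists⟩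

end Ms

variable {K : Type u} [LinearOrder K] [Ms K] [Mh K] [WellFoundedLT K]

omit [WellFoundedLT K] in
theorem diagR {ι : Type u} [Rk K ι] {Q : ι → K → Prop} (h : ∀ t, ∀ᶠ x in UF K, Q t x) :
    ∀ᶠ x in UF K, ∀ t, rk t < x → Q t x :=
  (diagK (Q := fun β x => ∀ t ∈ {t : ι | rk t ≤ β}, Q t x)
    fun β => ae_ball (Rk.small β) fun t _ => h t).mono fun _ hx t ht => hx _ ht t le_rfl

omit [WellFoundedLT K] in
theorem regressR {ι : Type u} [Rk K ι] {g : K → ι} (h : ∀ᶠ x in UF K, rk (g x) < x) :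
    ∃ t, ∀ᶠ x in UF K, g x = t := by
  obtain ⟨β, hβ⟩ := regress h
  obtain ⟨t, -, ht⟩ := ae_const g (Rk.small β) (hβ.mono fun x hx => hx.le)
  exact ⟨t, ht⟩

omit [Mh K] [WellFoundedLT K] in
theorem ae_not_S : ∀ᶠ ζ in UF K, ζ ∉ Sset K := by
  classical
  apply ae_not
  intro hS
  have h1 : ∀ ζ : K, ∃ F : K → K, ζ ∈ Sset K →
      Closed F ζ ∧ ∀ β, β < ζ → Good β → ¬ Closed F β := by
    intro ζ
    by_cases h : ζ ∈ Sset K
    · exact let ⟨F, hF⟩ := h.2; ⟨F, fun _ => hF⟩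
    · exact ⟨id, fun h' => absurd h' h⟩
  choose F hF using h1
  choose G hG using fun β : K => regress (g := fun ζ => F ζ β)
    ((hS.and (ae_gt β)).mono fun ζ h => (hF ζ h.1).1 β h.2)
  have h2 := hS.and (diagK hG)
  obtain ⟨ζ₁, h3, h4⟩ := h2.exists
  obtain ⟨ζ₂, ⟨h5, h6⟩, h7⟩ := (h2.and (ae_gt ζ₁)).exists
  refine (hF ζ₂ h5).2 ζ₁ h7 h3.1 fun β hβ => ?_
  rw [h6 β (hβ.trans h7), ← h4 β hβ]
  exact (hF ζ₁ h3).1 β hβ

structure RC (K : Type u) [LinearOrder K] [Ms K] [Mh K] [WellFoundedLT K] where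
  f : K → PC K
  up : ∀ α, ∀ x ∈ (f α).g, α < x.1

namespace RC

instance : Preorder (RC K) where
  le g f := ∀ᶠ α in UF K, g.f α ≤ f.f α
  le_refl _ := Eventually.of_forall fun _ => le_rfl
  le_trans _ _ _ h1 h2 := (Eventually.and h1 h2).mono fun _ h => h.1.trans h.2

theorem le_def {g f : RC K} : g ≤ f ↔ ∀ᶠ α in UF K, g.f α ≤ f.f α := Iff.rfl

instance : OrderTop (RC K) where
  top := ⟨fun _ => ⊤, fun _ _ h => h.elim⟩
  le_top _ := Eventually.of_forall fun _ => le_top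

theorem exists_lb {ι : Type u} [LinearOrder ι] (r : ι → K) (hr : ∀ α, #{i | r i < α} ≤ #(Iio α))
    (J : Set ι) (c : ι → RC K) (hc : ∀ j ∈ J, ∀ k ∈ J, j ≤ k → c k ≤ c j) :
    ∃ b : RC K, ∀ k ∈ J, b ≤ c k := by
  have hs : ∀ β : K, Low β #{i | r i ≤ β} := fun β γ hγ hβ => by
    obtain ⟨β', h0, h⟩ := hγ.exists_gt hβ
    exact (mk_le_mk_of_subset fun i (hi : r i ≤ β) => (hi.trans_lt h : r i < β')).trans_lt
      ((hr β').trans_lt (hγ.init β' h0))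
  let _ : Rk K ι := ⟨r, hs⟩
  have h1 : ∀ᶠ α in UF K, ∀ t : ι × ι, rk t < α → t.1 ∈ J → t.2 ∈ J → t.1 ≤ t.2 →
      (c t.2).f α ≤ (c t.1).f α :=
    diagR fun t => ae_imp fun h1 => ae_imp fun h2 => ae_imp fun h3 => hc _ h1 _ h2 h3
  have h2 : ∀ α : K, ∃ q : PC K, (∀ x ∈ q.g, α < x.1) ∧ ((∀ t : ι × ι, rk t < α → t.1 ∈ J →
      t.2 ∈ J → t.1 ≤ t.2 → (c t.2).f α ≤ (c t.1).f α) → ∀ k ∈ J, r k < α → q ≤ (c k).f α) := by
    intro α
    by_cases h : ∀ t : ι × ι, rk t < α → t.1 ∈ J → t.2 ∈ J → t.1 ≤ t.2 →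
      (c t.2).f α ≤ (c t.1).f α
    swap
    · exact ⟨⊤, fun _ h => h.elim, fun h' => absurd h' h⟩
    have h3 : #{i | i ∈ J ∧ r i < α} ≤ #(Iio α) :=
      (mk_le_mk_of_subset fun i hi => hi.2).trans (hr α)
    obtain ⟨q, hq⟩ := PC.exists_lb (fun i : {i | i ∈ J ∧ r i < α} => (c i.1).f α) (by
      intro i j ζ a ξ v v' h4 h5
      rcases le_total i.1 j.1 with h6 | h6
      · exact ((c j.1).f α).fn ζ a ξ v v' (h (i.1, j.1) (max_lt i.2.2 j.2.2) i.2.1 j.2.1 h6 h4) h5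
      · exact ((c i.1).f α).fn ζ a ξ v v' h4 (h (j.1, i.1) (max_lt j.2.2 i.2.2) j.2.1 i.2.1 h6 h5))
      (h3.trans_lt (Ms.iio α)) (by
        rintro γ hγ ⟨i, x, hx, h4⟩
        exact h3.trans_lt (hγ.init α (((c i.1).up α x hx).trans_le h4)))
    refine ⟨q, fun x hx => ?_, fun _ k hk h4 x hx => ?_⟩
    · rw [hq] at hx
      obtain ⟨i, hi⟩ := mem_iUnion.1 hx
      exact (c i.1).up α x hi
    · rw [hq]
      exact mem_iUnion.2 ⟨⟨k, hk, h4⟩, hx⟩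
  choose q h3 h4 using h2
  exact ⟨⟨q, h3⟩, fun k hk => (h1.and (ae_gt (r k))).mono fun α h => h4 α h.1 k hk h.2⟩

end RC

instance : Tl K (RC K) := ⟨RC.exists_lb⟩

abbrev PP2 (K : Type u) [LinearOrder K] [Ms K] [Mh K] [WellFoundedLT K] := PC K × RC K

def BU (X : K → RO (PP2 K)) (x : PP2 K) : Prop :=
  ∀ᶠ α in UF K, ∀ r, r ≤ x.1 → r ≤ x.2.f α → (X α).s (r, x.2)

theorem BU.mono {X : K → RO (PP2 K)} {x y : PP2 K} (h : BU X x) (hy : y ≤ x) : BU X y :=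
  (Eventually.and h hy.2).mono fun _ h1 r h2 h3 =>
    RO.mono (h1.1 r (h2.trans hy.1) (h3.trans h1.2)) ⟨le_rfl, hy.2⟩

def inU (X : K → RO (PP2 K)) : RO (PP2 K) := RO.dense (BU X)

theorem inU_intro {X : K → RO (PP2 K)} {x : PP2 K} (h : BU X x) : (inU X).s x :=
  RO.dense_intro (fun _ _ h1 h2 => h2.mono h1) h

theorem inU_mono {X X' : K → RO (PP2 K)} {x : PP2 K} (h : (inU X).s x)
    (hX : ∀ γ y, y ≤ x → (X γ).s y → (X' γ).s y) : (inU X').s x := by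
  intro y hy
  obtain ⟨z, hz, h1⟩ := h y hy
  exact ⟨z, hz, Eventually.mono h1 fun α h2 r h3 h4 =>
    hX α (r, z.2) (le_trans (b := z) ⟨h3, le_rfl⟩ (hz.trans hy)) (h2 r h3 h4)⟩

theorem inU_of_ae {X : K → RO (PP2 K)} {x : PP2 K} (h : ∀ᶠ α in UF K, (X α).s x) :
    (inU X).s x :=
  inU_intro (h.mono fun _ h1 _ h2 _ => RO.mono h1 ⟨h2, le_rfl⟩)

theorem inU_nonempty {X : K → RO (PP2 K)} {x : PP2 K} (h : (inU X).s x) :
    ∃ y, y ≤ x ∧ ∃ α, (X α).s y := by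
  obtain ⟨z, hz, h1⟩ := h x le_rfl
  obtain ⟨α, h2, h3⟩ := (Eventually.and h1 (ae_gt (rk z.1))).exists
  obtain ⟨r, h4, h5⟩ := PC.exists_le₂
    (PC.compat_of_sep (fun x hx => (PC.lt_of_rk h3 x hx).le) (z.2.up α))
  exact ⟨(r, z.2), le_trans (b := z) ⟨h4, le_rfl⟩ hz, α, h2 r h4 h5⟩

omit [Ms K] in
theorem le_of_res {r p : PC K} {α : K} (hα : α ∉ Sset K) (h1 : r ≤ p.res (Iio α))
    (h2 : r ≤ p.res (Ioi α)) : r ≤ p := by
  intro x hx
  rcases lt_trichotomy x.1 α with h | h | h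
  · exact h1 ⟨hx, h⟩
  · exact absurd (h ▸ (p.ok x hx).1) hα
  · exact h2 ⟨hx, h⟩

theorem inU_em (X : K → RO (PP2 K)) (x : PP2 K) :
    ∃ y, y ≤ x ∧ ((inU X).s y ∨ (inU fun γ => RO.not (X γ)).s y) := by
  classical
  obtain ⟨p, f⟩ := x
  obtain ⟨f₁, h1, h2⟩ := R_fusion (ι := K) le_rfl
    (fun α y => (X α).s y ∨ (RO.not (X α)).s y) p f
    (fun α x y hy h => h.imp (fun h => RO.mono h hy) fun h => RO.mono (a := RO.not (X α)) h hy)
    fun α x _ => RO.decide (X α) x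
  have h3 : ∀ α, ∃ q : PC K, rk p < α → q ≤ p ∧ q ≤ f₁.f α ∧
      ((X α).s (q, f₁) ∨ (RO.not (X α)).s (q, f₁)) := by
    intro α
    by_cases h : rk p < α
    · obtain ⟨r, h4, h5⟩ := PC.exists_le₂
        (PC.compat_of_sep (fun x hx => (PC.lt_of_rk h x hx).le) (f₁.up α))
      obtain ⟨q, h6, h7⟩ := h2 α r h4
      exact ⟨q, fun _ => ⟨h6.trans h4, h6.trans h5, h7⟩⟩
    · exact ⟨p, fun h' => absurd h' h⟩
  choose q hq using h3
  obtain ⟨p', h4⟩ := regressR (g := fun α => (q α).res (Iio α))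
    (ae_good.mono fun α hα => PC.rk_res_lt _ hα)
  let f₂ : RC K := ⟨fun α => (q α).res (Ioi α), fun α x hx => hx.2⟩
  have h5 : f₂ ≤ f₁ := (ae_gt (rk p)).mono fun α hα x hx => ⟨(hq α hα).2.1 hx, f₁.up α x hx⟩
  have h6 : p' ≤ p := by
    obtain ⟨α, h6, h7⟩ := (h4.and (ae_gt (rk p))).exists
    rw [← h6]
    exact PC.res_le_of_rk (hq α h7).1 h7
  refine ⟨(p', f₂), ⟨h6, h5.trans h1⟩, ?_⟩
  have key : ∀ Y : K → RO (PP2 K), (∀ᶠ α in UF K, (Y α).s (q α, f₁)) → (inU Y).s (p', f₂) := by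
    intro Y hY
    refine inU_intro ?_
    filter_upwards [hY, h4, ae_not_S] with α h7 h8 h9 r h10 h11
    exact RO.mono h7 ⟨le_of_res h9 (h8 ▸ h10) h11, h5⟩
  by_cases h : ∀ᶠ α in UF K, (X α).s (q α, f₁)
  · exact Or.inl (key _ h)
  · refine Or.inr (key _ ?_)
    filter_upwards [ae_not h, ae_gt (rk p)] with α h7 h8
    exact (hq α h8).2.2.resolve_left h7

theorem inU_all {ι : Type u} (hι : #ι < #K) {X : ι → K → RO (PP2 K)} {x : PP2 K}
    (h : ∀ i, (inU (X i)).s x) : (inU fun γ => RO.all fun i => X i γ).s x := by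
  classical
  rintro ⟨q, g⟩ hq
  obtain ⟨f₁, h1, h2⟩ := R_fusion hι.le (fun i y => BU (X i) y) q g
    (fun i x y hy h => h.mono hy) fun i y hy => h i y (hy.trans hq)
  have h3 : ∀ (i : ι) (a : PC K), ∃ a', a ≤ q → a' ≤ a ∧ BU (X i) (a', f₁) := by
    intro i a
    by_cases ha : a ≤ q
    · exact let ⟨a', h⟩ := h2 i a ha; ⟨a', fun _ => h⟩
    · exact ⟨a, fun h => absurd h ha⟩
  choose e he using h3
  have h4 : ∀ᶠ α in UF K, ∀ a : PC K, rk a < α → ∀ i, a ≤ q → rk (e i a) < α ∧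
      ∀ r, r ≤ e i a → r ≤ f₁.f α → (X i α).s (r, f₁) :=
    diagR fun a => ae_forall hι fun i => ae_imp fun ha => (ae_gt _).and (he i a ha).2
  refine ⟨(q, f₁), ⟨le_rfl, h1⟩, ?_⟩
  filter_upwards [h4, ae_good, ae_gt (rk q)] with α h5 h6 h7 r h8 h9 i
  refine RO.reg fun y hy => ?_
  have h10 := PC.res_le_of_rk (hy.1.trans h8) h7
  obtain ⟨h11, h12⟩ := h5 _ (PC.rk_res_lt y.1 h6) i h10
  obtain ⟨r', h13, h14⟩ := PC.exists_le₂
    (PC.compat_of_res (PC.lt_of_rk h11) (he i _ h10).1)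
  exact ⟨(r', y.2), ⟨h14, le_rfl⟩,
    RO.mono (h12 r' h13 (h14.trans (hy.1.trans h9))) ⟨le_rfl, hy.2⟩⟩

noncomputable def uR (z : Nm (PP2 K)) : RO (PP2 K) := inU fun γ => RO.mem (nk γ) z

instance : Ext (uR (K := K)) :=
  ⟨fun _ _ _ e h => inU_mono h fun _ _ hy h1 => FMem.subst_right h1 (e.mono hy)⟩

theorem inU_tail {X : K → RO (PP2 K)} {x : PP2 K} (h : (inU X).s x) (k : K) :
    ∃ y, y ≤ x ∧ ∃ α, k < α ∧ (X α).s y := by
  obtain ⟨y, hy, α, h1⟩ := inU_nonempty (inU_all (ι := ULift.{u} Bool) mk_fin_lt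
    (X := fun b γ => cond b.down (X γ) (pr (k < γ))) (x := x) (by
      rintro ⟨_ | _⟩
      · exact inU_of_ae (ae_gt k)
      · exact h))
  exact ⟨y, hy, α, h1 ⟨false⟩, h1 ⟨true⟩⟩

theorem measurable_kN : IsMeasurableIn EM (cls (kN K : Nm (PP2 K))) := by
  refine ⟨big_kN.isCard, ⟨_, EM_on omega_lt_kap, isLimit_on Ordinal.isSuccLimit_omega0⟩, ?_⟩
  obtain ⟨W, hW⟩ := M_power (cls (kN K : Nm (PP2 K)))
  obtain ⟨U, hU⟩ := M_sep uR W
  simp only [hW] at hU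
  refine ⟨U, fun A hA => ((hU A).1 hA).1, (hU _).2 ⟨fun _ h => h, T_subst uR (cls_rep _).symm
    (T.of_forall fun p => inU_of_ae (Eventually.of_forall fun α => nk_mem_kN α p))⟩,
    fun A hA => ?_, fun A B hA h1 h2 => (hU B).2 ⟨h2, ?_⟩, fun A B h1 h2 => ?_,
    fun A ξ hA h1 => ?_, fun F C h1 h2 h3 => (hU C).2 ⟨fun z hz => ((h3 z).1 hz).1, ?_⟩⟩
  · have : T (RO.ex fun z => RO.mem z (rep A)) := ((hU A).1 hA).2.mono fun p hp q hq =>
      let ⟨y, hy, α, h⟩ := inU_nonempty (RO.mono hp hq); ⟨y, hy, _, h⟩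
    simpa only [T_ex, T_mem, cls_rep] using this
  · have H : T (RO.all fun z => RO.imp (RO.mem z (rep A)) (RO.mem z (rep B))) := by
      simpa only [T_all, T_imp, T_mem, cls_rep, Sub] using h1
    exact ((hU A).1 hA).2.mono₂ H fun p h3 h4 => inU_mono h3 fun γ y hy h5 => h4 _ y hy h5
  · have H : T (RO.all fun z => RO.iff (RO.mem z (rep B))
        (RO.and (RO.mem z (kN K)) (RO.not (RO.mem z (rep A))))) := by
      simpa only [T_all, T_iff, T_and, T_not, T_mem, cls_rep] using h2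
    have : T (RO.or (uR (rep A)) (uR (rep B))) := H.mono fun p hp q hq => by
      obtain ⟨y, hy, h3 | h3⟩ := inU_em (fun γ => RO.mem (nk γ) (rep A)) q
      · exact ⟨y, hy, Or.inl h3⟩
      · exact ⟨y, hy, Or.inr (inU_mono h3 fun γ w hw h4 =>
          (hp _).2 w (hw.trans (hy.trans hq)) ⟨nk_mem_kN _ _, h4⟩)⟩
    exact ((T_or _ _).1 this).imp (fun h => (hU A).2 ⟨h1, h⟩)
      fun h => (hU B).2 ⟨fun z hz => ((h2 z).1 hz).1, h⟩
  · have H : T (RO.all fun z => RO.imp (RO.mem z (rep A)) (RO.eq z (rep ξ))) := by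
      simpa only [T_all, T_imp, T_eq, T_mem, cls_rep] using fun z => (h1 z).1
    obtain ⟨p, h2, h3⟩ := ((T_and _ _).2 ⟨((hU A).1 hA).2, H⟩).nonempty
    obtain ⟨y, hy, α, h4⟩ := inU_nonempty h2
    obtain ⟨z, hz, β, h5, h6⟩ := inU_tail (RO.mono h2 hy) α
    exact h5.ne (nk_inj ((FEq.mono (h3 _ y hy h4) hz).trans (FEq.symm (h3 _ z (hz.trans hy) h6))))
  · obtain ⟨α, hα, f, hf⟩ := h2
    have H1 : T (RO.all fun A => RO.imp (RO.mem A (rep F)) (uR A)) := by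
      rw [T_all]
      intro A
      rw [T_imp, T_mem, cls_rep, cls_rep]
      exact fun h => ((hU A).1 (h1 A h)).2
    have H2 : T (RO.all fun z => RO.imp (RO.and (RO.mem z (kN K)) (RO.all fun A =>
        RO.imp (RO.mem A (rep F)) (RO.mem z A))) (RO.mem z (rep C))) := by
      simpa only [T_all, T_imp, T_and, T_mem, cls_rep] using fun z => (h3 z).2
    refine ((T_and _ _).2 ⟨H1, (T_and _ _).2 ⟨H2, (T_and _ _).2 ⟨T_total hf.1, (T_and _ _).2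
      ⟨T_injective hf, T_mem_rep hα⟩⟩⟩⟩).mono ?_
    rintro p ⟨h4, h5, h6, h7, h8⟩
    refine RO.reg fun q hq => ?_
    obtain ⟨r, hr, k, hk⟩ := mem_kN h8 q hq
    have hrp := hr.trans hq
    refine ⟨r, hr, inU_mono (inU_all (Ms.iio k) (x := r) (X := fun (i : Iio k) γ => RO.all fun A =>
      RO.imp (RO.and (RO.mem A (rep F)) (appR (rep f) A (nk i.1))) (RO.mem (nk γ) A))
      fun i => RO.reg fun y hy => ?_) fun γ y hy h9 => h5 _ y (hy.trans hrp) ⟨nk_mem_kN _ _,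
        fun A w hw hA => FMem.reg fun w₁ hw₁ => ?_⟩⟩
    · by_cases h : ∃ z, z ≤ y ∧ ∃ A, FMem A (rep F) z ∧ (appR (rep f) A (nk i.1)).s z
      · obtain ⟨z, hz, A, h9, h10⟩ := h
        have hzp := hz.trans (hy.trans hrp)
        exact ⟨z, hz, inU_mono (h4 A z hzp h9) fun γ w hw h11 A' w' hw' h12 =>
          FMem.subst_right (FMem.mono h11 hw') (h7 _ _ _ w' (hw'.trans (hw.trans hzp))
            (RO.mono h10 (hw'.trans hw)) w' le_rfl h12.2)⟩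
      · exact ⟨y, le_rfl, inU_of_ae (Eventually.of_forall fun γ A w hw h9 =>
          absurd ⟨w, hw, A, h9⟩ h)⟩
    · obtain ⟨w₂, hw₂, b, h10, h11⟩ := h6 A w (hw.trans (hy.trans hrp)) hA w₁ hw₁
      have hw' : w₂ ≤ y := hw₂.trans (hw₁.trans hw)
      obtain ⟨w₃, hw₃, i, hi, h12⟩ := mem_nk (FMem.subst_right h11 (hk.mono (hw'.trans hy)))
        w₂ le_rfl
      exact ⟨w₃, hw₃.trans hw₂, h9 ⟨i, hi⟩ A w₃ (hw₃.trans hw')
        ⟨FMem.mono hA (hw₃.trans (hw₂.trans hw₁)),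
          Ext.subst (fun b => appR (rep f) A b) h12 (RO.mono h10 hw₃)⟩⟩

end Pool.Agent.Lib.MP_c8ac39_lc.MH
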