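import Pool.Agent.Lib.MP_c8ac39_lc.MH.Bridge
import Pool.Agent.Lib.MP_c8ac39_lc.MH.Ult

/-! The two main theorems. -/

namespace Pool.Agent.Lib.MP_c8ac39_lc.MH

open Cardinal Filter Set Pool.Agent.Lib.MP_2739cb_lc Nm

universe u

section Ground

variable {K : Type u} [LinearOrder K] [WellFoundedLT K]

theorem bdd_of_regular {c : Cardinal.{u}} (hc : c.IsRegular) (h : c.ord ≤ kap K) {S : Set K}
    (h1 : #S < c) (h2 : ∀ z ∈ S, oK z < c.ord) : ∃ k : K, oK k < c.ord ∧ ∀ z ∈ S, z < k := by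
  have h3 : ⨆ z : S, oK z.1 + 1 < c.ord :=
    Ordinal.iSup_add_one_lt_of_lt_cof (by rwa [hc.cof_ord]) fun z => h2 z.1 z.2
  obtain ⟨k, hk⟩ := exists_oK (h3.trans_le h)
  refine ⟨k, hk ▸ h3, fun z hz => oK_lt_oK.1 ?_⟩
  rw [hk]
  exact (lt_add_one _).trans_le (Ordinal.le_iSup (fun z : S => oK z.1 + 1) ⟨z, hz⟩)

theorem exists_closed_top (h1 : ℵ₀ < #K) (h2 : ∀ k : K, #(Iio k) < #K)
    (h3 : ∀ S : Set K, #S < #K → ∃ k, ∀ z ∈ S, z < k) (G : K → K) (α : K) :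
    ∃ γ, α < γ ∧ Closed G γ := by
  choose nx hnx using fun a : K => h3 (insert a (G '' Iio a)) (mk_insert_le.trans_lt
    (add_lt_of_lt h1.le (mk_image_le.trans_lt (h2 a)) (one_lt_aleph0.trans h1)))
  obtain ⟨γ, h4, h5⟩ := wellFounded_lt.has_min {γ : K | ∀ n : ℕ, nx^[n] α < γ} (by
    obtain ⟨k, hk⟩ := h3 (range fun n : ℕ => nx^[n] α)
      ((countable_range _).le_aleph0.trans_lt h1)
    exact ⟨k, fun n => hk _ ⟨n, rfl⟩⟩)
  refine ⟨γ, h4 0, fun β hβ => ?_⟩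
  obtain ⟨n, hn⟩ : ∃ n : ℕ, β ≤ nx^[n] α := by
    by_contra hc
    push Not at hc
    exact h5 β hc hβ
  have h6 : β < nx^[n + 1] α := by
    rw [Function.iterate_succ_apply']
    exact hn.trans_lt (hnx _ _ (mem_insert _ _))
  have h7 := h4 (n + 2)
  rw [Function.iterate_succ_apply'] at h7
  exact (hnx _ _ (mem_insert_of_mem _ ⟨β, h6, rfl⟩)).trans h7

end Ground

theorem mh_of_mahlo {κ : Cardinal.{u}} (h : IsMahlo κ) : Mh κ.ord.ToType := by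
  have hK : #κ.ord.ToType = κ := by simp
  have hk : kap κ.ord.ToType = κ.ord := Ordinal.type_toType _
  have h1 : ℵ₀ < #κ.ord.ToType := h.1.aleph0_lt.trans_eq hK.symm
  have h2 : ∀ k : κ.ord.ToType, #(Iio k) < #κ.ord.ToType := fun k =>
    Cardinal.mk_Iio_lt k (by simp)
  have h3 : ∀ S : Set κ.ord.ToType, #S < #κ.ord.ToType → ∃ k, ∀ z ∈ S, z < k := fun S hS =>
    let ⟨k, _, h4⟩ := bdd_of_regular h.1.isRegular hk.ge (hS.trans_eq hK)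
      fun z _ => (oK_lt_kap z).trans_eq hk
    ⟨k, h4⟩
  refine ⟨h2, h3, fun F => ?_⟩
  have h4 : ∀ β : κ.ord.ToType, ∃ g : κ.ord.ToType, max ℵ₀ (2 ^ #(Iio β)) ≤ #(Iio g) := by
    intro β
    obtain ⟨S, hS⟩ := le_mk_iff_exists_set.1 (max_lt h1
      ((h.1.isStrongPrelimit ((h2 β).trans_eq hK)).trans_eq hK.symm)).le
    obtain ⟨k, h4⟩ := h3 S (hS.trans_lt (max_lt h1
      ((h.1.isStrongPrelimit ((h2 β).trans_eq hK)).trans_eq hK.symm)))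
    exact ⟨k, hS ▸ mk_le_mk_of_subset h4⟩
  choose g hg using h4
  let e := Ordinal.ToType.mk (o := κ.ord)
  obtain ⟨a, ⟨c, hc, ha⟩, h5⟩ := h.2 (t := {a | Closed (fun β => max (F β) (g β)) (e a)}) ⟨by
    intro t ht _ _ x hx β hβ
    obtain ⟨y, hy, h5⟩ := (lt_isLUB_iff hx).1 (e.symm_apply_lt.2 hβ)
    exact (ht hy β (e.symm_apply_lt.1 h5)).trans_le (e.monotone (hx.1 hy)), by
    intro a
    obtain ⟨γ, h5, h6⟩ := exists_closed_top h1 h2 h3 (fun β => max (F β) (g β)) (e a)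
    exact ⟨e.symm γ, by simpa using h6, (e.lt_symm_apply.2 h5).le⟩⟩
  have h6 : oK (e a) = c.ord := ha ▸ congrArg Subtype.val (e.symm_apply_apply a)
  have h7 : #(Iio (e a)) = c := by
    rw [← card_ord c, ← h6]
    rfl
  have h8 : ∀ β, β < e a → #(Iio β) < #(Iio (e a)) := fun β hβ =>
    h7 ▸ lt_ord.1 (h6 ▸ oK_lt_oK.2 hβ)
  have h9 : ∀ β, β < e a → max ℵ₀ (2 ^ #(Iio β)) < #(Iio (e a)) := fun β hβ =>
    (hg β).trans_lt (h8 _ ((le_max_right _ _).trans_lt (h5 β hβ)))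
  refine ⟨e a, ⟨?_, h8, fun S h10 h11 => ?_, fun d hd => ?_⟩,
    fun β hβ => (le_max_left _ _).trans_lt (h5 β hβ)⟩
  · obtain ⟨β, h10, -⟩ := exists_le_mk_Iio_of_lt (ζ := e a) (h7 ▸ hc.pos)
    exact (le_max_left _ _).trans_lt (h9 β h10)
  · obtain ⟨k, h12, h13⟩ := bdd_of_regular hc (h6 ▸ (oK_lt_kap _).le) (h7 ▸ h11)
      fun z hz => h6 ▸ oK_lt_oK.2 (h10 hz)
    exact ⟨k, oK_lt_oK.1 (h6 ▸ h12), h13⟩
  · obtain ⟨β, h10, h11⟩ := exists_le_mk_Iio_of_lt hd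
    exact ((power_le_power_left two_ne_zero h11).trans (le_max_right _ _)).trans_lt (h9 β h10)

theorem hl_all {K : Type u} [LinearOrder K] [Mh K] [WellFoundedLT K] {R : Type u} [Preorder R]
    [OrderTop R] [Tl K R] (m : Mod (PC K × R))
    (hm : m = cls (kN K) ∨ EM m (cls (kN K)) ∧ IsMahloIn EM m) (δ σ : Mod (PC K × R))
    (hδ : IsFinOrd EM δ) (hδ' : ∃ x, EM x δ) (hσ : EM σ m) : HL EM δ σ m := by
  rcases hm with rfl | ⟨h1, h2⟩
  · exact hl_of_name big_kN mahlo_kN.2.1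
      (T.of_forall fun _ q _ => ⟨q, le_rfl, _, seg_univ, nameOf_kN q⟩) hδ hδ' hσ
  · obtain ⟨m, rfl⟩ := cls_surj m
    exact hl_of_name (big_of_reg big_kN h1 h2.1) h2.2.1 (seg_of_mahlo h1 h2) hδ hδ' hσ

theorem mainA {κ : Cardinal.{u}} (hκ : IsMeasurable κ) :
    ∃ (M : Type (u + 1)) (E : M → M → Prop), IsZFC E ∧ ∃ k : M, IsMeasurableIn E k ∧
      ∀ m : M, (m = k ∨ E m k ∧ IsMahloIn E m) →
        ∀ δ σ : M, IsFinOrd E δ → (∃ x, E x δ) → E σ m → (∃ x, E x σ) → HL E δ σ m := by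
  obtain ⟨h1, X, W, h2, h3, h4⟩ := hκ
  obtain ⟨e⟩ : Nonempty (X ≃ κ.ord.ToType) := Cardinal.eq.1 (by simp [h2])
  have hK : #κ.ord.ToType = κ := by simp
  obtain ⟨inst⟩ : Nonempty (Ms κ.ord.ToType) := by
    refine exists_Ms (h1.trans_eq hK.symm) (fun k => ?_) (W.map e) (fun S hS hA => ?_) fun x hx => ?_
    · exact Cardinal.mk_Iio_lt k (by simp)
    · rw [Ultrafilter.mem_map, preimage_sInter, ← sInter_image]
      exact h3 _ (mk_image_le.trans_lt (hS.trans_eq hK)) (by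
        rintro _ ⟨A, hA', rfl⟩
        exact hA A hA')
    · rw [Ultrafilter.mem_map, ← e.image_symm_eq_preimage, image_singleton] at hx
      exact h4 _ hx
  have : Mh κ.ord.ToType := mh_of_ms
  exact ⟨Mod (PP2 κ.ord.ToType), EM, M_zfc, _, measurable_kN,
    fun m hm δ σ h5 h6 h7 _ => hl_all m hm δ σ h5 h6 h7⟩

theorem mainB {κ : Cardinal.{u}} (hκ : IsMahlo κ) :
    ∃ (M : Type (u + 1)) (E : M → M → Prop), IsZFC E ∧ ∃ k : M, IsMahloIn E k ∧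
      ∀ m : M, (m = k ∨ E m k ∧ IsMahloIn E m) →
        ∀ δ σ : M, IsFinOrd E δ → (∃ x, E x δ) → E σ m → (∃ x, E x σ) → HL E δ σ m := by
  have := mh_of_mahlo hκ
  exact ⟨Mod (PC κ.ord.ToType × PUnit.{u + 1}), EM, M_zfc, _, mahlo_kN,
    fun m hm δ σ h5 h6 h7 _ => hl_all m hm δ σ h5 h6 h7⟩

end Pool.Agent.Lib.MP_c8ac39_lc.MH
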