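import Pool.Agent.Lib.MP_c8ac39_lc.MH.Pos

/-! Uniformizing a family of conditions indexed by tuples of rows. -/

namespace Pool.Agent.Lib.MP_c8ac39_lc.MH

open Cardinal Filter Set

universe u v

variable {K : Type u} [LinearOrder K] [Mh K] [WellFoundedLT K]

/-- A condition concentrated on one coordinate. -/
def mkAt {ζ : K} (hζ : ζ ∈ Sset K) (g : Set (K × K × K × K))
    (fn : ∀ a ξ v v', (ζ, a, ξ, v) ∈ g → (ζ, a, ξ, v') ∈ g → v = v')
    (ok : ∀ x ∈ g, x.1 = ζ ∧ x.2.1 < Lam ζ ∧ x.2.2.1 < ζ ∧ x.2.2.2 < ζ)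
    (hs : #g < #(Iio ζ)) : PC K where
  g := g
  fn ζ' a ξ v v' h h' := by
    obtain rfl : ζ' = ζ := (ok _ h).1
    exact fn a ξ v v' h h'
  ok x hx := by
    obtain ⟨h1, h2⟩ := ok x hx
    rw [h1]
    exact ⟨hζ, h2⟩
  east γ hγ := by
    by_cases h : ζ ≤ γ
    · exact ((mk_le_mk_of_subset fun _ hx => hx.1).trans_lt hs).trans_le
        (mk_le_mk_of_subset (Iio_subset_Iio h))
    · have : {x ∈ g | x.1 ≤ γ} = ∅ :=
        eq_empty_of_forall_notMem fun x hx => h ((ok x hx.1).1 ▸ hx.2)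
      rw [this]
      simpa using aleph0_pos.trans hγ.unc
  small := hs.trans (Mh.iio ζ)

theorem mk_lt_of_le {ζ : K} (hζ : Good ζ) {p : PC K} (h : ∀ x ∈ p.g, x.1 ≤ ζ) :
    #p.g < #(Iio ζ) := by
  refine lt_of_le_of_lt (mk_le_mk_of_subset ?_) (p.east ζ hζ)
  exact fun x hx => ⟨hx, h x hx⟩

theorem uniform {d : ℕ} {ζ : K} (hζ : Good ζ) (L : (Fin d → K) → PC K) (cl : (Fin d → K) → K)
    (hL : ∀ a, ∀ x ∈ (L a).g, x.1 ≤ ζ) (hcl : ∀ a, cl a < ζ) :
    ∃ h : Fin d → K → K, (∀ j a, a < ζ → h j a < Lam ζ) ∧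
      (∀ j j' a a', a < ζ → a' < ζ → h j a = h j' a' → j = j' ∧ a = a') ∧
      ∀ a b : Fin d → K, (∀ j, a j < ζ) → (∀ j, b j < ζ) →
        cl (fun j => h j (a j)) = cl (fun j => h j (b j)) ∧
        (∀ x ∈ (L fun j => h j (a j)).g, x.1 < ζ → x ∈ (L fun j => h j (b j)).g) ∧
        PC.Compat (L fun j => h j (a j)) (L fun j => h j (b j)) ∧
        ∀ j e ξ v, e < ζ → (ζ, h j e, ξ, v) ∈ (L fun j => h j (a j)).g →
          (ζ, h j (b j), ξ, v) ∈ (L fun j => h j (b j)).g := by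
  classical
  let R : (Fin d → K) → Set K := fun a => (fun x => x.2.1) '' {x ∈ (L a).g | x.1 = ζ} ∪ range a
  have hR : ∀ a, #(R a) < #(Iio ζ) := fun a =>
    (mk_union_le _ _).trans_lt (add_lt_of_lt hζ.unc.le (mk_image_le.trans_lt
      ((mk_le_mk_of_subset fun _ hx => hx.1).trans_lt (mk_lt_of_le hζ (hL a))))
      ((finite_range a).lt_aleph0.trans hζ.unc))
  have hcode : ∀ a, ∃ code : K → K, InjOn code (R a) ∧ ∀ r, code r < ζ := by
    intro a
    obtain ⟨e⟩ := (hR a).le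
    refine ⟨fun r => if h : r ∈ R a then (e ⟨r, h⟩).1 else kz K, fun r hr r' hr' h => ?_,
      fun r => ?_⟩
    · simp only [dif_pos hr, dif_pos hr'] at h
      exact Subtype.mk.inj (e.injective (Subtype.ext h))
    · beta_reduce
      split_ifs
      · exact (e _).2
      · exact hζ.kz_lt
  choose code hc1 hc2 using hcode
  let sel : (Fin d → Bool) → (Fin d → K) → (Fin d → K) → Fin d → K :=
    fun u a b j => if u j then b j else a j
  let Pat : (Fin d → K) → (Fin d → K) → Set (K × K × K × K) := fun a b =>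
    {x | ∃ r ∈ R a ∩ R b, x = (code a r, code b r, kz K, kz K)}
  let F₀ : Tag d → (Fin d → K) → (Fin d → K) → Set (K × K × K × K) := fun t a b =>
    match t with
    | .inl (u, v) => Pat (sel u a b) (sel v a b)
    | .inr (.inl j) => {(code a (a j), kz K, kz K, kz K)}
    | .inr (.inr 0) => {x ∈ (L a).g | x.1 < ζ}
    | .inr (.inr 1) => {(cl a, kz K, kz K, kz K)}
    | .inr (.inr 2) => {x | ∃ r ξ v, (ζ, r, ξ, v) ∈ (L a).g ∧ x = (code a r, ξ, v, kz K)}
  have hk := kz_le ζ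
  obtain ⟨h, ⟨h1, c, h2⟩, h3⟩ := PP_Lam ζ d (fun a b => {x | x.2 ∈ F₀ x.1.down a b}) (by
    rintro a b ⟨⟨⟨u, v⟩ | j | k⟩, x⟩ hx
    · obtain ⟨r, -, rfl⟩ := hx
      simp [hk, (hc2 _ _).le]
    · obtain rfl : x = _ := hx
      simp [hk, (hc2 _ _).le]
    · fin_cases k
      · obtain ⟨h1, h2⟩ := hx
        obtain ⟨-, h3, h4, h5⟩ := (L a).ok x h1
        exact max_le hk (max_le h2.le (max_le (h3.trans (hζ.lam _ h2)).le
          (max_le (h4.trans h2).le (h5.trans h2).le)))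
      · obtain rfl : x = _ := hx
        simp [hk, (hcl _).le]
      · obtain ⟨r, ξ, v, h1, rfl⟩ := hx
        obtain ⟨-, -, h4, h5⟩ := (L a).ok _ h1
        exact max_le hk (max_le (hc2 _ _).le (max_le h4.le (max_le h5.le hk))))
  choose up hup1 hup2 using fun (a : K) (ha : a < ζ) => hζ.exists_gt ha
  let G : (Fin d → K) → Fin d → K := fun a j => h j (a j)
  have h4 : ∀ t (a b a' b' : Fin d → K), (∀ j, a j < b j ∧ b j < ζ) →
      (∀ j, a' j < b' j ∧ b' j < ζ) → F₀ t (G a) (G b) = F₀ t (G a') (G b') := by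
    intro t a b a' b' h5 h6
    ext x
    exact Set.ext_iff.1 ((h2 a b h5).trans (h2 a' b' h6).symm) (ULift.up t, x)
  have h5 : ∀ (t : Fin d ⊕ Fin 3) (a b : Fin d → K) (ha : ∀ j, a j < ζ) (hb : ∀ j, b j < ζ),
      F₀ (.inr t) (G a) (G fun j => up _ (ha j)) = F₀ (.inr t) (G b) (G fun j => up _ (hb j)) :=
    fun t a b ha hb => h4 _ _ _ _ _ (fun j => ⟨hup2 _ _, hup1 _ _⟩) fun j => ⟨hup2 _ _, hup1 _ _⟩
  have h6 : ∀ (a b : Fin d → K), (∀ j, a j < ζ) → (∀ j, b j < ζ) → ∃ lo hi : Fin d → K,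
      (∀ j, lo j < hi j ∧ hi j < ζ) ∧ sel (fun j => decide (b j < a j)) (G lo) (G hi) = G a ∧
        sel (fun j => decide (a j < b j)) (G lo) (G hi) = G b := by
    intro a b ha hb
    refine ⟨fun j => min (a j) (b j), fun j => if a j = b j then up _ (ha j) else max (a j) (b j),
      fun j => ?_, funext fun j => ?_, funext fun j => ?_⟩
    · beta_reduce
      split_ifs with h7
      · rw [← h7, min_self]; exact ⟨hup2 _ _, hup1 _ _⟩
      · exact ⟨min_lt_max.2 h7, max_lt (ha j) (hb j)⟩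
    · rcases lt_trichotomy (a j) (b j) with h7 | h7 | h7
      · simp [sel, G, h7.le, h7.not_gt]
      · simp [sel, G, h7]
      · simp [sel, G, h7, h7.le, h7.ne']
    · rcases lt_trichotomy (a j) (b j) with h7 | h7 | h7
      · simp [sel, G, h7, h7.le, h7.ne]
      · simp [sel, G, h7]
      · simp [sel, G, h7.le, h7.not_gt]
  have h7 : ∀ (a b a' b' : Fin d → K), (∀ j, a j < ζ) → (∀ j, b j < ζ) → (∀ j, a' j < ζ) →
      (∀ j, b' j < ζ) → (∀ j, (b j < a j ↔ b' j < a' j) ∧ (a j < b j ↔ a' j < b' j)) →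
      Pat (G a) (G b) = Pat (G a') (G b') := by
    intro a b a' b' ha hb ha' hb' hs
    obtain ⟨lo, hi, h8, h9, h10⟩ := h6 a b ha hb
    obtain ⟨lo', hi', h8', h9', h10'⟩ := h6 a' b' ha' hb'
    have := h4 (.inl (fun j => decide (b j < a j), fun j => decide (a j < b j))) lo hi lo' hi' h8 h8'
    simp only [F₀] at this
    rw [h9, h10] at this
    rw [this]
    simp only [fun j => (hs j).1, fun j => (hs j).2]
    rw [h9', h10']
  have h8 : ∀ (a b : Fin d → K), (∀ j, a j < ζ) → (∀ j, b j < ζ) → ∀ r ∈ R (G a) ∩ R (G b),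
      code (G a) r = code (G b) r := by
    intro a b ha hb r hr
    obtain ⟨x0, k0⟩ : ∃ x0, x0 < ζ := ⟨_, hζ.kz_lt⟩
    obtain ⟨x1, k1, l1⟩ := hζ.exists_gt k0
    obtain ⟨x2, k2, l2⟩ := hζ.exists_gt k1
    have l3 := l1.trans l2
    let a' : Fin d → K := fun j => if a j < b j then x0 else if b j < a j then x2 else x0
    let b' : Fin d → K := fun j => if a j < b j then x1 else if b j < a j then x1 else x0
    let c' : Fin d → K := fun j => if a j < b j then x2 else x0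
    have ha' : ∀ j, a' j < ζ := fun j => by simp only [a']; split_ifs <;> assumption
    have hb' : ∀ j, b' j < ζ := fun j => by simp only [b']; split_ifs <;> assumption
    have hc' : ∀ j, c' j < ζ := fun j => by simp only [c']; split_ifs <;> assumption
    have e0 : (code (G a) r, code (G b) r, kz K, kz K) ∈ Pat (G a) (G b) := ⟨r, hr, rfl⟩
    have e1 := h7 a b a' b' ha hb ha' hb' (fun j => by
      rcases lt_trichotomy (a j) (b j) with h | h | h
      · simp [a', b', h, h.not_gt, l1, l1.not_gt]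
      · simp [a', b', h]
      · simp [a', b', h, h.not_gt, l2, l2.not_gt]) ▸ e0
    have e2 := h7 a b b' c' ha hb hb' hc' (fun j => by
      rcases lt_trichotomy (a j) (b j) with h | h | h
      · simp [c', b', h, h.not_gt, l2, l2.not_gt]
      · simp [c', b', h]
      · simp [c', b', h, h.not_gt, l1, l1.not_gt]) ▸ e0
    have e3 := h7 a b a' c' ha hb ha' hc' (fun j => by
      rcases lt_trichotomy (a j) (b j) with h | h | h
      · simp [c', a', h, h.not_gt, l3, l3.not_gt]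
      · simp [c', a', h]
      · simp [c', a', h, h.not_gt, l3, l3.not_gt]) ▸ e0
    obtain ⟨r1, m1, e1⟩ := e1
    obtain ⟨r2, m2, e2⟩ := e2
    obtain ⟨r3, m3, e3⟩ := e3
    simp only [Prod.mk.injEq, and_true] at e1 e2 e3
    have e4 : r1 = r3 := hc1 _ m1.1 m3.1 (e1.1.symm.trans e3.1)
    have e5 : r3 = r2 := hc1 _ m3.2 m2.2 (e3.2.symm.trans e2.2)
    rw [e2.1, e1.2, e4, e5]
  have h9 : ∀ (a b : Fin d → K), (∀ j, a j < ζ) → (∀ j, b j < ζ) → ∀ r r' ξ v,
      (ζ, r, ξ, v) ∈ (L (G a)).g → r' ∈ R (G b) → code (G a) r = code (G b) r' →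
        (ζ, r', ξ, v) ∈ (L (G b)).g := by
    intro a b ha hb r r' ξ v h10 h11 h12
    have : (code (G a) r, ξ, v, kz K) ∈ F₀ (.inr (.inr 2)) (G b) (G fun j => up _ (hb j)) :=
      h5 (.inr 2) a b ha hb ▸ ⟨r, ξ, v, h10, rfl⟩
    obtain ⟨r'', ξ', v', h13, h14⟩ := this
    simp only [Prod.mk.injEq, and_true] at h14
    obtain ⟨h14, rfl, rfl⟩ := h14
    rwa [hc1 _ h11 (Or.inl ⟨_, ⟨h13, rfl⟩, rfl⟩) (h12.symm.trans h14)]
  have h10 : ∀ (a b : Fin d → K), (∀ j, a j < ζ) → (∀ j, b j < ζ) →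
      ∀ x ∈ (L (G a)).g, x.1 < ζ → x ∈ (L (G b)).g := by
    intro a b ha hb x h11 h12
    have : x ∈ F₀ (.inr (.inr 0)) (G b) (G fun j => up _ (hb j)) :=
      h5 (.inr 0) a b ha hb ▸ ⟨h11, h12⟩
    exact this.1
  refine ⟨h, h3, h1, fun a b ha hb => ⟨?_, h10 a b ha hb, ?_, ?_⟩⟩
  · exact (Prod.mk.inj (singleton_injective (h5 (.inr 1) a b ha hb))).1
  · intro ζ' r ξ v v' h11 h12
    rcases (hL _ _ h11).eq_or_lt with h13 | h13
    · obtain rfl : ζ' = ζ := h13
      have m1 : r ∈ R (G a) := Or.inl ⟨_, ⟨h11, rfl⟩, rfl⟩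
      have m2 : r ∈ R (G b) := Or.inl ⟨_, ⟨h12, rfl⟩, rfl⟩
      exact (L _).fn _ _ _ _ _ (h9 a b ha hb r r ξ v h11 m2 (h8 a b ha hb r ⟨m1, m2⟩)) h12
    · exact (L _).fn _ _ _ _ _ (h10 a b ha hb _ h11 h13) h12
  · intro j e ξ v he h11
    have ha' : ∀ i, Function.update a j e i < ζ := fun i => by
      rw [Function.update_apply]; split_ifs
      · exact he
      · exact ha i
    have m1 : h j e ∈ R (G a) := Or.inl ⟨_, ⟨h11, rfl⟩, rfl⟩
    have m0 : G (Function.update a j e) j = h j e := by simp [G]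
    have m2 : h j e ∈ R (G (Function.update a j e)) := Or.inr ⟨j, m0⟩
    have h12 := h9 a _ ha ha' _ _ ξ v h11 m2 (h8 a _ ha ha' _ ⟨m1, m2⟩)
    refine h9 _ b ha' hb _ _ ξ v h12 (Or.inr ⟨j, rfl⟩) ?_
    rw [← m0]
    exact (Prod.mk.inj (singleton_injective (h5 (.inl j) _ b ha' hb))).1

end Pool.Agent.Lib.MP_c8ac39_lc.MH
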