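import Pool.Agent.Lib.MP_c8ac39_lc.MH.Base
import Pool.Agent.Lib.MP_2739cb_lc.Names

/-! The Easton product over the stationary set, times a closed tail. -/

namespace Pool.Agent.Lib.MP_c8ac39_lc.MH

open Cardinal Filter Set
open Pool.Agent.Lib.MP_2739cb_lc (mk_iUnion_le_of_le chain_lemma RO)

universe u v

@[ext] structure PC (K : Type u) [LinearOrder K] [Mh K] [WellFoundedLT K] where
  g : Set (K × K × K × K)
  fn : ∀ ζ a ξ v v', (ζ, a, ξ, v) ∈ g → (ζ, a, ξ, v') ∈ g → v = v'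
  ok : ∀ x ∈ g, x.1 ∈ Sset K ∧ x.2.1 < Lam x.1 ∧ x.2.2.1 < x.1 ∧ x.2.2.2 < x.1
  east : ∀ γ, Good γ → #{x ∈ g | x.1 ≤ γ} < #(Iio γ)
  small : #g < #K

variable {K : Type u} [LinearOrder K] [Mh K] [WellFoundedLT K]

namespace PC

instance : Preorder (PC K) where
  le q p := p.g ⊆ q.g
  le_refl _ := subset_rfl
  le_trans _ _ _ h1 h2 := Subset.trans h2 h1

theorem le_def {q p : PC K} : q ≤ p ↔ p.g ⊆ q.g := Iff.rfl

def res (A : Set K) (p : PC K) : PC K where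
  g := {x ∈ p.g | x.1 ∈ A}
  fn ζ a ξ v v' h h' := p.fn ζ a ξ v v' h.1 h'.1
  ok x hx := p.ok x hx.1
  east γ hγ := by
    refine lt_of_le_of_lt (mk_le_mk_of_subset ?_) (p.east γ hγ)
    exact fun _ hx => ⟨hx.1.1, hx.2⟩
  small := (mk_le_mk_of_subset fun _ hx => hx.1).trans_lt p.small

instance : OrderTop (PC K) where
  top := ⟨∅, fun _ _ _ _ _ h => h.elim, fun _ h => h.elim, fun γ hγ => by
    simpa using aleph0_pos.trans hγ.unc, by simpa using aleph0_pos.trans unc_K⟩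
  le_top _ := empty_subset _

theorem le_res (A : Set K) (p : PC K) : p ≤ p.res A := fun _ hx => hx.1

theorem mem_res {A : Set K} {p : PC K} {x : K × K × K × K} :
    x ∈ (p.res A).g ↔ x ∈ p.g ∧ x.1 ∈ A := Iff.rfl

def Compat (p q : PC K) : Prop := ∀ ζ a ξ v v', (ζ, a, ξ, v) ∈ p.g → (ζ, a, ξ, v') ∈ q.g → v = v'

theorem exists_lb {ι : Type u} (c : ι → PC K) (hfn : ∀ i j, Compat (c i) (c j)) (hι : #ι < #K)
    (he : ∀ γ, Good γ → (∃ i, ∃ x ∈ (c i).g, x.1 ≤ γ) → #ι < #(Iio γ)) :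
    ∃ q : PC K, q.g = ⋃ i, (c i).g := by
  refine ⟨⟨⋃ i, (c i).g, ?_, ?_, fun γ hγ => ?_, mk_iUnion_lt_K _ hι fun i => (c i).small⟩, rfl⟩
  · intro ζ a ξ v v' h h'
    obtain ⟨i, hi⟩ := mem_iUnion.1 h
    obtain ⟨j, hj⟩ := mem_iUnion.1 h'
    exact hfn i j ζ a ξ v v' hi hj
  · intro x hx
    obtain ⟨i, hi⟩ := mem_iUnion.1 hx
    exact (c i).ok x hi
  · by_cases h : ∃ i, ∃ x ∈ (c i).g, x.1 ≤ γ
    · refine lt_of_le_of_lt (mk_le_mk_of_subset ?_)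
        (hγ.mk_iUnion_lt (fun i => {x ∈ (c i).g | x.1 ≤ γ}) (he γ hγ h) fun i => (c i).east γ hγ)
      rintro x ⟨hx, h1⟩
      obtain ⟨i, hi⟩ := mem_iUnion.1 hx
      exact mem_iUnion.2 ⟨i, hi, h1⟩
    · have : {x ∈ ⋃ i, (c i).g | x.1 ≤ γ} = ∅ := by
        refine eq_empty_of_forall_notMem fun x hx => h ?_
        obtain ⟨i, hi⟩ := mem_iUnion.1 hx.1
        exact ⟨i, x, hi, hx.2⟩
      rw [this]
      simpa using aleph0_pos.trans hγ.unc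

theorem exists_lb₂ {p q : PC K} (h : Compat p q) : ∃ r : PC K, r.g = p.g ∪ q.g := by
  obtain ⟨r, hr⟩ := exists_lb (ι := ULift.{u} Bool) (fun b => if b.down then p else q)
    (by
      rintro ⟨_ | _⟩ ⟨_ | _⟩
      · exact q.fn
      · exact fun ζ a ξ v v' h1 h2 => (h ζ a ξ v' v h2 h1).symm
      · exact h
      · exact p.fn) mk_fin_lt fun γ hγ _ => hγ.mk_fin_lt
  refine ⟨r, hr.trans (subset_antisymm ?_ ?_)⟩
  · rintro x hx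
    obtain ⟨⟨_ | _⟩, hi⟩ := mem_iUnion.1 hx
    · exact Or.inr hi
    · exact Or.inl hi
  · rintro x (hx | hx)
    · exact mem_iUnion.2 ⟨⟨true⟩, hx⟩
    · exact mem_iUnion.2 ⟨⟨false⟩, hx⟩

theorem exists_le₂ {p q : PC K} (h : Compat p q) : ∃ r : PC K, r ≤ p ∧ r ≤ q := by
  obtain ⟨r, hr⟩ := exists_lb₂ h
  exact ⟨r, le_def.2 (hr ▸ subset_union_left), le_def.2 (hr ▸ subset_union_right)⟩

theorem compat_of_sep {p q : PC K} {α : K} (hp : ∀ x ∈ p.g, x.1 ≤ α) (hq : ∀ x ∈ q.g, α < x.1) :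
    Compat p q := fun ζ a ξ v v' h h' => absurd (hq (ζ, a, ξ, v') h') (not_lt.2 (hp (ζ, a, ξ, v) h))

/-- A condition living below `α` that extends the part of `r` below `α` is compatible with `r`. -/
theorem compat_of_res {p r : PC K} {α : K} (hp : ∀ x ∈ p.g, x.1 < α) (h : p ≤ r.res (Iio α)) :
    Compat p r := fun ζ a ξ v v' h1 h2 => p.fn ζ a ξ v v' h1 (h ⟨h2, hp (ζ, a, ξ, v) h1⟩)

noncomputable instance : Rk K (PC K) :=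
  Rk.pull (fun p => (⟨p.g, p.small⟩ : Sm K (K × K × K × K))) fun _ _ h =>
    PC.ext (Subtype.mk.inj h)

theorem lt_of_rk {p : PC K} {ζ : K} (h : rk p < ζ) : ∀ x ∈ p.g, x.1 < ζ := fun x hx =>
  ((le_max_left _ _).trans ((rk_Sm_le ⟨p.g, p.small⟩ _).1 le_rfl x hx)).trans_lt h

theorem rk_lt {p : PC K} {ζ : K} (hζ : Good ζ) (h : ∀ x ∈ p.g, x.1 < ζ) : rk p < ζ := by
  refine hζ.rk_Sm_lt ⟨p.g, p.small⟩ ?_ fun x hx => ?_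
  · refine lt_of_le_of_lt (mk_le_mk_of_subset ?_) (p.east ζ hζ)
    exact fun x hx => ⟨hx, (h x hx).le⟩
  · obtain ⟨-, h1, h2, h3⟩ := p.ok x hx
    have := h x hx
    exact max_lt this (max_lt (h1.trans (hζ.lam _ this)) (max_lt (h2.trans this) (h3.trans this)))

theorem rk_res_lt (p : PC K) {ζ : K} (hζ : Good ζ) : rk (p.res (Iio ζ)) < ζ :=
  rk_lt hζ fun _ hx => hx.2

theorem res_le_of_rk {q p : PC K} {ζ : K} (h : q ≤ p) (hp : rk p < ζ) : q.res (Iio ζ) ≤ p :=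
  fun x hx => ⟨h hx, lt_of_rk hp x hx⟩

end PC

/-- Tails: chains of length at most `K` have lower bounds. -/
class Tl (K : Type u) [LinearOrder K] (R : Type u) [Preorder R] : Prop where
  lb : ∀ {ι : Type u} [LinearOrder ι] (r : ι → K) (_ : ∀ α, #{i | r i < α} ≤ #(Iio α))
    (J : Set ι) (c : ι → R) (_ : ∀ j ∈ J, ∀ k ∈ J, j ≤ k → c k ≤ c j), ∃ b : R, ∀ k ∈ J, b ≤ c k

instance : Tl K PUnit.{u + 1} := ⟨fun _ _ _ _ _ => ⟨PUnit.unit, fun _ _ => le_rfl⟩⟩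

variable {R : Type u} [Preorder R] [Tl K R]

theorem R_fusion {ι : Type u} (hι : #ι ≤ #K) (D : ι → PC K × R → Prop) (p₀ : PC K) (f₀ : R)
    (ho : ∀ i x y, y ≤ x → D i x → D i y)
    (hd : ∀ i x, x ≤ (p₀, f₀) → ∃ y, y ≤ x ∧ D i y) :
    ∃ f₁, f₁ ≤ f₀ ∧ ∀ i p, p ≤ p₀ → ∃ p', p' ≤ p ∧ D i (p', f₁) := by
  classical
  obtain ⟨e⟩ : #(ι × PC K) ≤ #K := by
    rw [mk_prod, lift_id, lift_id]
    exact (mul_le_mul' hι (mk_le_K (PC K))).trans (mul_eq_self aleph0_le_K).le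
  have h1 : ∀ (k : K) (f : R), ∃ g, g ≤ f ∧ ∀ t, e t = k → t.2 ≤ p₀ → f ≤ f₀ →
      ∃ p', p' ≤ t.2 ∧ D t.1 (p', g) := by
    intro k f
    by_cases h : ∃ t, e t = k ∧ t.2 ≤ p₀ ∧ f ≤ f₀
    · obtain ⟨t, rfl, h2, h3⟩ := h
      obtain ⟨y, h4, h5⟩ := hd t.1 (t.2, f) ⟨h2, h3⟩
      refine ⟨y.2, h4.2, fun t' h6 _ _ => ?_⟩
      rw [e.injective h6]
      exact ⟨y.1, h4.1, h5⟩
    · exact ⟨f, le_rfl, fun t h2 h3 h4 => absurd ⟨t, h2, h3, h4⟩ h⟩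
  choose Φ h2 h3 using h1
  obtain ⟨c, h4, h5⟩ := chain_lemma (fun a b : R => b ≤ a) (fun _ => le_rfl)
    (fun _ _ _ h h' => h'.trans h) (ι := K) f₀ (by
      intro i c h4 h5
      by_cases h : ∃ j, j < i
      · obtain ⟨b, hb⟩ := Tl.lb (K := K) id (fun _ => le_rfl) (Iio i) c
          fun j _ k hk hjk => h5 j k hjk hk
        obtain ⟨j, hj⟩ := h
        exact ⟨b, (hb j hj).trans (h4 j hj), hb⟩
      · exact ⟨f₀, le_rfl, fun j hj => absurd ⟨j, hj⟩ h⟩) Φ h2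
  obtain ⟨b, hb⟩ := Tl.lb (K := K) id (fun _ => le_rfl) univ c fun j _ k _ hjk => h4 j k hjk
  refine ⟨b, ?_, fun i p hp => ?_⟩
  · obtain ⟨b', h6, -, h7⟩ := h5 (kz K)
    exact (hb _ trivial).trans (h7 ▸ (h2 _ _).trans h6)
  · obtain ⟨b', h6, -, h7⟩ := h5 (e (i, p))
    obtain ⟨p', h8, h9⟩ := h3 _ b' (i, p) rfl hp h6
    have h10 : b ≤ Φ (e (i, p)) b' := h7 ▸ hb _ trivial
    exact ⟨p', h8, ho i (p', Φ (e (i, p)) b') (p', b) ⟨le_rfl, h10⟩ h9⟩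

theorem upper_lb (ζ : K) {ι : Type u} [LinearOrder ι]
    (hι : ∀ γ, Good γ → ζ < γ → #ι < #(Iio γ)) (hιK : #ι < #K) (J : Set ι) (c : ι → PC K × R)
    (hup : ∀ j ∈ J, ∀ x ∈ (c j).1.g, ζ < x.1) (hc : ∀ j ∈ J, ∀ k ∈ J, j ≤ k → c k ≤ c j) :
    ∃ b : PC K × R, (∀ x ∈ b.1.g, ζ < x.1) ∧ ∀ k ∈ J, b ≤ c k := by
  obtain ⟨k₀, hk₀⟩ := exists_le_mk_Iio hιK
  obtain ⟨f, hf⟩ := Tl.lb (K := K) (fun _ : ι => k₀) (by
    intro α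
    by_cases h : k₀ < α
    · exact (mk_set_le _).trans (hk₀.trans (mk_le_mk_of_subset (Iio_subset_Iio h.le)))
    · simp [h]) J (fun j => (c j).2) fun j hj k hk hjk => (hc j hj k hk hjk).2
  obtain ⟨q, hq⟩ := PC.exists_lb (fun j : J => (c j.1).1) (by
    intro i j ζ a ξ v v' h4 h5
    rcases le_total i.1 j.1 with h6 | h6
    · exact (c j.1).1.fn ζ a ξ v v' ((hc _ i.2 _ j.2 h6).1 h4) h5
    · exact (c i.1).1.fn ζ a ξ v v' h4 ((hc _ j.2 _ i.2 h6).1 h5))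
    ((mk_set_le _).trans_lt hιK) (by
      rintro γ hγ ⟨i, x, hx, h4⟩
      exact (mk_set_le _).trans_lt (hι γ hγ ((hup _ i.2 x hx).trans_le h4)))
  refine ⟨(q, f), fun x hx => ?_, fun k hk => ⟨fun x hx => ?_, hf k hk⟩⟩
  · rw [hq] at hx
    obtain ⟨i, hi⟩ := mem_iUnion.1 hx
    exact hup _ i.2 x hi
  · rw [hq]
    exact mem_iUnion.2 ⟨⟨k, hk⟩, hx⟩

theorem upper_fusion (ζ : K) {ι : Type u} (hι : Low ζ #ι) (D : ι → PC K × R → Prop)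
    (p₀ : ι → PC K) (w₀ : PC K) (f₀ : R) (hp₀ : ∀ i, ∀ x ∈ (p₀ i).g, x.1 ≤ ζ)
    (hw₀ : ∀ x ∈ w₀.g, ζ < x.1) (ho : ∀ i x y, y ≤ x → D i x → D i y)
    (hd : ∀ i (x : PC K × R), x.1 ≤ p₀ i → x.1 ≤ w₀ → x.2 ≤ f₀ → ∃ y, y ≤ x ∧ D i y) :
    ∃ (w : PC K) (f : R), (∀ x ∈ w.g, ζ < x.1) ∧ w ≤ w₀ ∧ f ≤ f₀ ∧ ∀ i, ∃ L : PC K, L ≤ p₀ i ∧
      (∀ x ∈ L.g, x.1 ≤ ζ) ∧ ∀ r g, r ≤ L → r ≤ w → g ≤ f → D i (r, g) := by
  classical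
  obtain ⟨_, _⟩ := exists_wellFoundedLT ι
  let Up : PC K × R → Prop := fun b => ∀ x ∈ b.1.g, ζ < x.1
  have h1 : ∀ (i : ι) (b : PC K × R), ∃ b', (b' ≤ b ∧ (Up b → Up b')) ∧ (Up b → b ≤ (w₀, f₀) →
      ∃ L : PC K, L ≤ p₀ i ∧ (∀ x ∈ L.g, x.1 ≤ ζ) ∧
        ∀ r g, r ≤ L → r ≤ b'.1 → g ≤ b'.2 → D i (r, g)) := by
    intro i b
    by_cases h : Up b ∧ b ≤ (w₀, f₀)
    · obtain ⟨r, h2, h3⟩ := PC.exists_le₂ (PC.compat_of_sep (hp₀ i) h.1)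
      obtain ⟨y, h4, h5⟩ := hd i (r, b.2) h2 (h3.trans h.2.1) h.2.2
      refine ⟨(y.1.res (Ioi ζ), y.2), ⟨⟨fun x hx => ⟨h4.1 (h3 hx), h.1 x hx⟩, h4.2⟩,
        fun _ x hx => hx.2⟩, fun _ _ => ⟨y.1.res (Iic ζ), fun x hx => ⟨h4.1 (h2 hx), hp₀ i x hx⟩,
          fun x hx => hx.2, fun r' g h6 h7 h8 => ho i y _ ⟨fun x hx => ?_, h8⟩ h5⟩⟩
      rcases le_or_gt x.1 ζ with h9 | h9
      · exact h6 ⟨hx, h9⟩
      · exact h7 ⟨hx, h9⟩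
    · exact ⟨b, ⟨le_rfl, id⟩, fun h2 h3 => absurd ⟨h2, h3⟩ h⟩
  choose Φ h2 h3 using h1
  have hU : Up (w₀, f₀) := hw₀
  obtain ⟨c, h4, h5⟩ := chain_lemma (fun a b : PC K × R => b ≤ a ∧ (Up a → Up b))
    (fun _ => ⟨le_rfl, id⟩) (fun _ _ _ h h' => ⟨h'.1.trans h.1, h'.2 ∘ h.2⟩) (ι := ι) (w₀, f₀) (by
      intro i c h4 h5
      by_cases h : ∃ j, j < i
      · obtain ⟨b, hb1, hb2⟩ := upper_lb ζ hι hι.lt_K (Iio i) c (fun j hj => (h4 j hj).2 hU)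
          fun j _ k hk hjk => (h5 j k hjk hk).1
        obtain ⟨j, hj⟩ := h
        exact ⟨b, ⟨(hb2 j hj).trans (h4 j hj).1, fun _ => hb1⟩, fun j hj => ⟨hb2 j hj, fun _ => hb1⟩⟩
      · exact ⟨_, ⟨le_rfl, id⟩, fun j hj => absurd ⟨j, hj⟩ h⟩) Φ h2
  have h6 : ∀ i, Up (c i) ∧ c i ≤ (w₀, f₀) := by
    intro i
    obtain ⟨b, h6, -, h7⟩ := h5 i
    rw [h7]
    exact ⟨(h2 i b).2 (h6.2 hU), (h2 i b).1.trans h6.1⟩
  obtain ⟨b, hb1, hb2⟩ := upper_lb ζ hι hι.lt_K univ c (fun j _ => (h6 j).1)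
    fun j _ k _ hjk => (h4 j k hjk).1
  by_cases hne : Nonempty ι
  · obtain ⟨i₀⟩ := hne
    refine ⟨b.1, b.2, hb1, (hb2 i₀ trivial).1.trans (h6 i₀).2.1,
      (hb2 i₀ trivial).2.trans (h6 i₀).2.2, fun i => ?_⟩
    obtain ⟨b', h7, -, h8⟩ := h5 i
    obtain ⟨L, h9, h10, h11⟩ := h3 i b' (h7.2 hU) h7.1
    exact ⟨L, h9, h10, fun r g h12 h13 h14 => h11 r g h12
      (h13.trans (h8 ▸ (hb2 i trivial).1)) (h14.trans (h8 ▸ (hb2 i trivial).2))⟩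
  · exact ⟨w₀, f₀, hU, le_rfl, le_rfl, fun i => absurd ⟨i⟩ hne⟩

theorem PC.le_of_split {r p : PC K} (B : Set K) (h1 : r ≤ p.res B) (h2 : r ≤ p.res Bᶜ) :
    r ≤ p := by
  intro x hx
  by_cases h : x.1 ∈ B
  · exact h1 ⟨hx, h⟩
  · exact h2 ⟨hx, h⟩

theorem Seg.rk_res {B : Set K} (hB : Seg B) (p : PC K) : rk (p.res B) ∈ B := by
  rcases hB with rfl | ⟨μ, h, -, rfl⟩
  · trivial
  · exact PC.rk_res_lt p h

/-- Fusion above a Mahlo segment. -/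
theorem Seg.fus {B : Set K} (hB : Seg B) {ι : Type u} [Rk K ι] (D : ι → PC K × R → Prop)
    (p₀ : PC K) (f₀ : R) (ho : ∀ i x y, y ≤ x → D i x → D i y)
    (hd : ∀ i x, rk i ∈ B → x ≤ (p₀, f₀) → ∃ y, y ≤ x ∧ D i y) :
    ∃ (w : PC K) (f : R), (∀ x ∈ w.g, x.1 ∉ B) ∧ w ≤ p₀.res Bᶜ ∧ f ≤ f₀ ∧
      ∀ i p, rk i ∈ B → rk p ∈ B → p ≤ p₀.res B → ∃ p', p' ≤ p ∧ rk p' ∈ B ∧
        ∀ r g, r ≤ p' → r ≤ w → g ≤ f → D i (r, g) := by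
  rcases hB with rfl | ⟨μ, h, h', rfl⟩
  · obtain ⟨f, h1, h2⟩ := R_fusion (mk_le_K ι) D p₀ f₀ ho fun i x hx => hd i x trivial hx
    refine ⟨⊤, f, fun _ h => h.elim, fun x hx => absurd trivial hx.2, h1, fun i p _ _ hp => ?_⟩
    obtain ⟨p', h3, h4⟩ := h2 i p fun x hx => hp ⟨hx, trivial⟩
    exact ⟨p', h3, trivial, fun r g h5 _ h6 => ho i (p', f) (r, g) ⟨h5, h6⟩ h4⟩
  · have hne : ∀ (p : PC K), ∀ x ∈ p.g, x.1 ≠ μ := fun p x hx e => h' (e ▸ (p.ok x hx).1)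
    obtain ⟨w, f, h1, h2, h3, h4⟩ := upper_fusion μ
      (ι := {t : ι × PC K | rk t < μ ∧ t.2 ≤ p₀.res (Iio μ)})
      ((Rk.low (ι := ι × PC K) μ).mono le_rfl (mk_le_mk_of_subset fun t ht => ht.1.le))
      (fun t => D t.1.1) (fun t => t.1.2) (p₀.res (Iio μ)ᶜ) f₀
      (fun t x hx => (PC.lt_of_rk ((le_max_right _ _).trans_lt t.2.1) x hx).le)
      (fun x hx => lt_of_le_of_ne (not_lt.1 hx.2) (hne p₀ x hx.1).symm) (fun t => ho t.1.1)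
      fun t x h1 h2 h3 => hd t.1.1 x ((le_max_left _ _).trans_lt t.2.1)
        ⟨PC.le_of_split (Iio μ) (h1.trans t.2.2) h2, h3⟩
    refine ⟨w, f, fun x hx => not_lt.2 (h1 x hx).le, h2, h3, fun i p h5 h6 h7 => ?_⟩
    obtain ⟨L, h8, h9, h10⟩ := h4 ⟨(i, p), max_lt h5 h6, h7⟩
    exact ⟨L, h8, PC.rk_lt h fun x hx => lt_of_le_of_ne (h9 x hx) (hne L x hx), h10⟩

theorem low_PC (l : K) : Low l #{p : PC K | ∀ x ∈ p.g, x.1 ≤ l} := by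
  intro γ hγ hl
  obtain ⟨β, h1, h2⟩ := hγ.bdd_fam (fun ξ : Iic l => Lam ξ.1) (hγ.mk_Iic_lt hl)
    fun ξ => hγ.lam _ (ξ.2.trans_lt hl)
  refine lt_of_le_of_lt (mk_le_mk_of_subset (t := {p : PC K | rk p ≤ max l β}) fun p hp => ?_)
    (Rk.low _ γ hγ (max_lt hl h1))
  refine (rk_Sm_le ⟨p.g, p.small⟩ _).2 fun x hx => ?_
  obtain ⟨-, h3, h4, h5⟩ := p.ok x hx
  have h6 := (hp x hx).trans (le_max_left l β)
  exact max_le h6 (max_le ((h3.trans (h2 ⟨x.1, hp x hx⟩)).le.trans (le_max_right _ _))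
    (max_le (h4.le.trans h6) (h5.le.trans h6)))

/-- Fewer than the next inaccessible many decisions are made by conditions living below `l`. -/
theorem low_fusion (l : K) (D : K → PC K × R → Prop) (x : PC K × R)
    (ho : ∀ i x y, y ≤ x → D i x → D i y)
    (hd : ∀ ξ y, ξ < l → y ≤ x → ∃ z, z ≤ y ∧ D ξ z) :
    ∃ y, y ≤ x ∧ ∀ ξ z, ξ < l → z ≤ y → ∃ L : PC K, (∀ t ∈ L.g, t.1 ≤ l) ∧
      (∃ z', z' ≤ z ∧ z'.1 ≤ L) ∧ ∀ w, w ≤ y → w.1 ≤ L → D ξ w := by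
  obtain ⟨w, f, h1, h2, h3, h4⟩ := upper_fusion l
    (ι := Iio l × {p : PC K | (∀ t ∈ p.g, t.1 ≤ l) ∧ p ≤ x.1.res (Iic l)})
    (by
      rw [mk_prod, lift_id, lift_id]
      exact (low_Iio l).mul ((low_PC l).mono le_rfl (mk_le_mk_of_subset fun p hp => hp.1)))
    (fun t => D t.1.1) (fun t => t.2.1) (x.1.res (Iic l)ᶜ) x.2 (fun t => t.2.2.1)
    (fun t ht => not_le.1 ht.2) (fun t => ho t.1.1)
    fun t y h1 h2 h3 => hd t.1.1 y t.1.2 ⟨PC.le_of_split (Iic l) (h1.trans t.2.2.2) h2, h3⟩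
  obtain ⟨r, hr⟩ := PC.exists_lb₂ (PC.compat_of_sep (p := x.1.res (Iic l)) (fun t ht => ht.2) h1)
  have h5 : r ≤ x.1.res (Iic l) := PC.le_def.2 (hr ▸ subset_union_left)
  have h6 : r ≤ w := PC.le_def.2 (hr ▸ subset_union_right)
  refine ⟨(r, f), ⟨PC.le_of_split (Iic l) h5 (h6.trans h2), h3⟩, fun ξ z hξ hz => ?_⟩
  obtain ⟨L, h7, h8, h9⟩ := h4 (⟨ξ, hξ⟩, ⟨z.1.res (Iic l), fun t ht => ht.2,
    fun t ht => ⟨hz.1 (h5 ht), ht.2⟩⟩)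
  obtain ⟨r', h10, h11⟩ := PC.exists_le₂ (p := L) (q := z.1) fun ζ a ξ v v' e1 e2 =>
    L.fn ζ a ξ v v' e1 (h7 ⟨e2, (h8 (ζ, a, ξ, v) e1 : ζ ≤ l)⟩)
  exact ⟨L, h8, ⟨(r', z.2), ⟨h11, le_rfl⟩, h10⟩, fun y h12 h13 =>
    h9 y.1 y.2 h13 (h12.1.trans h6) h12.2⟩

/-- Covering: the values of `l` many names lie in a small set of the ground. -/
theorem cover (l : K) (V : K → K → RO (PC K × R)) (x : PC K × R)
    (hV : ∀ ξ η η' y, ξ < l → y ≤ x → (V ξ η).s y → (V ξ η').s y → η = η') :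
    ∃ y, y ≤ x ∧ ∃ Z : Set K, Low l #Z ∧ ∀ ξ η w, ξ < l → w ≤ y → (V ξ η).s w → η ∈ Z := by
  classical
  obtain ⟨y, h1, h2⟩ := low_fusion l
    (fun ξ y => (∃ η, (V ξ η).s y) ∨ ∀ η w, w ≤ y → ¬ (V ξ η).s w) x
    (fun ξ a b hb h => h.imp (fun ⟨η, h⟩ => ⟨η, RO.mono h hb⟩) fun h η w hw => h η w (hw.trans hb))
    (fun ξ a _ _ => by
      by_cases h : ∃ z, z ≤ a ∧ ∃ η, (V ξ η).s z
      · exact let ⟨z, h3, h4⟩ := h; ⟨z, h3, Or.inl h4⟩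
      · exact ⟨a, le_rfl, Or.inr fun η w hw h3 => h ⟨w, hw, η, h3⟩⟩)
  let Q : Iio l × {p : PC K | ∀ t ∈ p.g, t.1 ≤ l} → K → Prop := fun t η =>
    ∀ w, w ≤ y → w.1 ≤ t.2.1 → (V t.1.1 η).s w
  refine ⟨y, h1, range fun t => if h : ∃ η, Q t η then h.choose else l, ?_,
    fun ξ η w hξ hw h3 => ?_⟩
  · refine Low.mono ?_ le_rfl mk_range_le
    rw [mk_prod, lift_id, lift_id]
    exact (low_Iio l).mul (low_PC l)
  · obtain ⟨L, h4, ⟨z, h5, h6⟩, h7⟩ := h2 ξ w hξ hw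
    obtain ⟨r, hr⟩ := PC.exists_lb₂ (p := L) (q := y.1) fun ζ a ξ v v' e1 e2 =>
      z.1.fn ζ a ξ v v' (h6 e1) ((h5.trans hw).1 e2)
    have h8 : ∀ w', w' ≤ y → w'.1 ≤ L → w' ≤ (r, y.2) := fun w' e1 e2 =>
      ⟨PC.le_def.2 (hr ▸ union_subset e2 e1.1), e1.2⟩
    have h9 := h8 z (h5.trans hw) h6
    rcases h7 (r, y.2) ⟨PC.le_def.2 (hr ▸ subset_union_right), le_rfl⟩
      (PC.le_def.2 (hr ▸ subset_union_left)) with ⟨η', h10⟩ | h10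
    · have h11 : ∃ η, Q (⟨ξ, hξ⟩, ⟨L, h4⟩) η := ⟨η', fun w' e1 e2 => RO.mono h10 (h8 w' e1 e2)⟩
      refine ⟨(⟨ξ, hξ⟩, ⟨L, h4⟩), ?_⟩
      simp only [dif_pos h11]
      exact hV ξ _ _ z hξ (h5.trans (hw.trans h1)) (h11.choose_spec z (h5.trans hw) h6)
        (RO.mono h3 h5)
    · exact absurd (RO.mono h3 h5) (h10 η z h9)

/-- Fewer than `B` many names for members of `B` are bounded in `B`. -/
theorem Seg.bdd_names {B : Set K} (hB : Seg B) {l : K} (hl : l ∈ B)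
    (V : K → K → RO (PC K × R)) (x : PC K × R)
    (hV : ∀ ξ η η' y, ξ < l → y ≤ x → (V ξ η).s y → (V ξ η').s y → η = η') :
    ∃ y, y ≤ x ∧ ∃ γ ∈ B, ∀ ξ η w, ξ < l → η ∈ B → w ≤ y → (V ξ η).s w → η < γ := by
  obtain ⟨y, h1, Z, h2, h3⟩ := cover l V x hV
  obtain ⟨γ, h4, h5⟩ := hB.bdd hl h2
  exact ⟨y, h1, γ, h4, fun ξ η w e1 e2 e3 e4 => h5 η (h3 ξ η w e1 e3 e4) e2⟩

/-- Inaccessible points stay regular. -/
theorem Good.bdd_names {ζ : K} (hζ : Good ζ) {l : K} (hl : l < ζ)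
    (V : K → K → RO (PC K × R)) (x : PC K × R)
    (hV : ∀ ξ η η' y, ξ < l → y ≤ x → (V ξ η).s y → (V ξ η').s y → η = η') :
    ∃ y, y ≤ x ∧ ∃ γ, γ < ζ ∧ ∀ ξ η w, ξ < l → η < ζ → w ≤ y → (V ξ η).s w → η < γ := by
  obtain ⟨y, h1, Z, h2, h3⟩ := cover l V x hV
  obtain ⟨γ, h4, h5⟩ := hζ.reg (Z ∩ Iio ζ) inter_subset_right
    ((mk_le_mk_of_subset inter_subset_left).trans_lt (h2 ζ hζ hl))
  exact ⟨y, h1, γ, h4, fun ξ η w e1 e2 e3 e4 => h5 η ⟨h3 ξ η w e1 e3 e4, e2⟩⟩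

end Pool.Agent.Lib.MP_c8ac39_lc.MH
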