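import Pool.Agent.Lib.MP_c8ac39_lc.MH.Grid
import Pool.Agent.Lib.MP_c8ac39_lc.SD

/-! The somewhere dense form of the Halpern-Lauchli statement, for truth-valued trees coded
on a Mahlo segment of `K`. -/

namespace Pool.Agent.Lib.MP_c8ac39_lc.MH

open Cardinal Filter Set
open Pool.Agent.Lib.MP_2739cb_lc (RO)

universe u v

variable {K : Type u} [LinearOrder K] [Mh K] [WellFoundedLT K] {R : Type u} [Preorder R]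

structure TD (B : Set K) (d : ℕ) (x₀ : PC K × R) (s₀ : K) where
  le : Fin d → K → K → RO (PC K × R)
  lv : Fin d → K → K → RO (PC K × R)
  col : (Fin d → K) → K → RO (PC K × R)
  refl : ∀ j a y, y ≤ x₀ → (le j a a).s y
  trans : ∀ j a b c y, y ≤ x₀ → (le j a b).s y → (le j b c).s y → (le j a c).s y
  ub : ∀ j (C : K → RO (PC K × R)) (η : K) y, η ∈ B → y ≤ x₀ →
    (∀ a b z, z ≤ y → (C a).s z → (C b).s z → ∃ w, w ≤ z ∧ ((le j a b).s w ∨ (le j b a).s w)) →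
    (∀ a β z, z ≤ y → (C a).s z → (lv j a β).s z → β ≤ η) →
    ∃ z, z ≤ y ∧ ∃ c ∈ B, (lv j c η).s z ∧ ∀ a w, w ≤ z → (C a).s w → (le j a c).s w
  hgt : ∀ j a y, y ≤ x₀ → ∃ z, z ≤ y ∧ ∃ η, (lv j a η).s z
  inB : ∀ j a η y, y ≤ x₀ → (lv j a η).s y → η ∈ B
  uniq : ∀ j a η η' y, y ≤ x₀ → (lv j a η).s y → (lv j a η').s y → η = η'
  cod : ∀ j η y, y ≤ x₀ → ∃ z, z ≤ y ∧ ∃ β ∈ B, ∀ a w, w ≤ z → (lv j a η).s w →
    ∃ w', w' ≤ w ∧ ∃ a', a' < β ∧ (le j a a').s w' ∧ (le j a' a).s w'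
  tot : ∀ (x : Fin d → K) η y, y ≤ x₀ → (∀ j, (lv j (x j) η).s y) →
    ∃ z, z ≤ y ∧ ∃ i, i < s₀ ∧ (col x i).s z

namespace TD

variable {B : Set K} {d : ℕ} {x₀ : PC K × R} {s₀ : K} (T : TD B d x₀ s₀)

def Gr (τ : Fin d → K) (i ζ' : K) (y : PC K × R) : Prop :=
  ∃ ζ ∈ B, ζ' ≤ ζ ∧ ∃ X : Fin d → K → RO (PC K × R),
    (∀ j a w, w ≤ y → (X j a).s w → (T.lv j a ζ).s w) ∧
    (∀ j a w, w ≤ y → (T.lv j a ζ').s w → (T.le j (τ j) a).s w →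
      ∃ w', w' ≤ w ∧ ∃ x, (X j x).s w' ∧ (T.le j a x).s w') ∧
    ∀ (x : Fin d → K) w, w ≤ y → (∀ j, (X j (x j)).s w) → (T.col x i).s w

noncomputable def Acc (j : Fin d) (s : K → K) : K → RO (PC K × R) :=
  WellFoundedLT.fix fun ξ rec =>
    RO.all fun ξ' : Iio ξ => RO.imp (rec ξ'.1 ξ'.2) (T.le j (s ξ'.1) (s ξ))

theorem Acc_eq (j : Fin d) (s : K → K) (ξ : K) : T.Acc j s ξ =
    RO.all fun ξ' : Iio ξ => RO.imp (T.Acc j s ξ'.1) (T.le j (s ξ'.1) (s ξ)) :=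
  WellFoundedLT.fix_eq _ ξ

theorem exists_stem [Tl K R] (hB : Seg B) (j : Fin d) (s : K → K) (l : K) (hl : l ∈ B)
    (y : PC K × R) (hy : y ≤ x₀) :
    ∃ z, z ≤ y ∧ ∃ c ∈ B, ∀ ξ w, ξ < l → w ≤ z → (T.Acc j s ξ).s w → (T.le j (s ξ) c).s w := by
  obtain ⟨y', h1, η, hη, h2⟩ := hB.bdd_names hl (fun ξ => T.lv j (s ξ)) y
    fun ξ η η' z _ hz => T.uniq j _ η η' z (hz.trans hy)
  obtain ⟨z, h3, c, hc, -, h4⟩ := T.ub j (fun a => RO.ex fun ξ : Iio l =>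
    RO.and (T.Acc j s ξ.1) (pr (s ξ.1 = a))) η y' hη (h1.trans hy) (by
      intro a b z hz ha hb
      obtain ⟨z₁, h5, ξ, h6, rfl⟩ := ha z le_rfl
      obtain ⟨z₂, h7, ξ', h8, rfl⟩ := hb z₁ h5
      refine ⟨z₂, h7.trans h5, ?_⟩
      rcases lt_trichotomy ξ.1 ξ'.1 with h | h | h
      · rw [Acc_eq] at h8
        exact Or.inl (h8 ⟨ξ.1, h⟩ z₂ le_rfl (RO.mono h6 h7))
      · rw [h]
        exact Or.inl (T.refl j _ z₂ (h7.trans (h5.trans (hz.trans (h1.trans hy)))))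
      · rw [Acc_eq] at h6
        exact Or.inr (h6 ⟨ξ'.1, h⟩ z₂ h7 h8)) (by
      intro a β z hz ha hb
      obtain ⟨z₁, h5, ξ, -, rfl⟩ := ha z le_rfl
      exact (h2 ξ β z₁ ξ.2 (T.inB j _ β z (hz.trans (h1.trans hy)) hb) (h5.trans hz)
        (RO.mono hb h5)).le)
  exact ⟨z, h3.trans h1, c, hc, fun ξ w h5 h6 h7 => h4 _ w h6 (RO.ex_intro ⟨ξ, h5⟩ ⟨h7, rfl⟩)⟩

end TD

def val (ζ a ξ v : K) : RO (PC K × R) := RO.dense fun y => (ζ, a, ξ, v) ∈ y.1.g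

theorem val_intro {ζ a ξ v : K} {y : PC K × R} (h : (ζ, a, ξ, v) ∈ y.1.g) : (val ζ a ξ v).s y :=
  fun z hz => ⟨z, le_rfl, hz.1 h⟩

theorem val_unique {ζ a ξ v v' : K} {y : PC K × R} (h : (val ζ a ξ v).s y)
    (h' : (val ζ a ξ v').s y) : v = v' := by
  obtain ⟨z, hz, h1⟩ := h y le_rfl
  obtain ⟨w, hw, h2⟩ := h' z hz
  exact w.1.fn _ _ _ _ _ (hw.1 h1) h2

theorem val_lt {ζ a ξ v : K} {y : PC K × R} (h : (val ζ a ξ v).s y) : v < ζ := by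
  obtain ⟨z, -, h1⟩ := h y le_rfl
  exact (z.1.ok _ h1).2.2.2

namespace TD

variable {B : Set K} {d : ℕ} {x₀ : PC K × R} {s₀ : K} (T : TD B d x₀ s₀)

noncomputable def AccG (j : Fin d) (ζ a : K) : K → RO (PC K × R) :=
  WellFoundedLT.fix fun ξ rec => RO.ex fun v => RO.and (val ζ a ξ v)
    (RO.all fun t : Iio ξ × K => RO.imp (rec t.1.1 t.1.2) (RO.imp (val ζ a t.1.1 t.2) (T.le j t.2 v)))

theorem AccG_eq (j : Fin d) (ζ a ξ : K) : T.AccG j ζ a ξ = RO.ex fun v => RO.and (val ζ a ξ v)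
    (RO.all fun t : Iio ξ × K => RO.imp (T.AccG j ζ a t.1.1)
      (RO.imp (val ζ a t.1.1 t.2) (T.le j t.2 v))) :=
  WellFoundedLT.fix_eq _ ξ

theorem accG_iff (j : Fin d) (ζ a l : K) (s : K → K) (y : PC K × R)
    (hy : ∀ ξ, ξ < l → (ζ, a, ξ, s ξ) ∈ y.1.g) (ξ : K) :
    ξ < l → ∀ w, w ≤ y → ((T.AccG j ζ a ξ).s w ↔ (T.Acc j s ξ).s w) := by
  induction ξ using WellFoundedLT.induction with
  | ind ξ ih =>
    intro hξ w hw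
    rw [AccG_eq, Acc_eq]
    constructor
    · intro h ξ' w₁ hw₁ h1
      refine RO.reg fun w₂ hw₂ => ?_
      obtain ⟨w₃, hw₃, v, h2, h3⟩ := h w₂ (hw₂.trans hw₁)
      have h4 : w₃ ≤ y := hw₃.trans (hw₂.trans (hw₁.trans hw))
      obtain rfl : v = s ξ := val_unique h2 (val_intro (h4.1 (hy ξ hξ)))
      exact ⟨w₃, hw₃, h3 (ξ', s ξ'.1) w₃ le_rfl
        ((ih ξ'.1 ξ'.2 (ξ'.2.trans hξ) w₃ h4).2 (RO.mono h1 (hw₃.trans hw₂))) w₃ le_rfl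
        (val_intro (h4.1 (hy _ (ξ'.2.trans hξ))))⟩
    · intro h
      refine RO.ex_intro (s ξ) ⟨val_intro (hw.1 (hy ξ hξ)), ?_⟩
      rintro ⟨ξ', v⟩ w₁ hw₁ h1 w₂ hw₂ h2
      have h4 : w₂ ≤ y := hw₂.trans (hw₁.trans hw)
      obtain rfl : v = s ξ'.1 := val_unique h2 (val_intro (h4.1 (hy _ (ξ'.2.trans hξ))))
      exact h ξ' w₂ (hw₂.trans hw₁) ((ih ξ'.1 ξ'.2 (ξ'.2.trans hξ) w₂ h4).1 (RO.mono h1 hw₂))

noncomputable def BG (j : Fin d) (ζ a v : K) : RO (PC K × R) :=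
  RO.ex fun ξ => RO.and (T.AccG j ζ a ξ) (val ζ a ξ v)

noncomputable def tm (j : Fin d) (ζ a : K) : K → RO (PC K × R) :=
  mn fun x => RO.and (T.lv j x ζ) (RO.all fun v => RO.imp (T.BG j ζ a v) (T.le j v x))

theorem exists_tm (j : Fin d) (ζ a : K) (hζ : ζ ∈ B) (y : PC K × R) (hy : y ≤ x₀)
    (H : ∀ a η z, a < ζ → z ≤ y → (T.lv j a η).s z → η < ζ) :
    ∃ z, z ≤ y ∧ ∃ x, (T.tm j ζ a x).s z := by
  have key : ∀ ξ ξ' v v' z, ξ < ξ' → (T.AccG j ζ a ξ).s z → (val ζ a ξ v).s z →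
      (T.AccG j ζ a ξ').s z → (val ζ a ξ' v').s z → ∃ w, w ≤ z ∧ (T.le j v v').s w := by
    intro ξ ξ' v v' z h h1 h2 h3 h4
    rw [AccG_eq] at h3
    obtain ⟨w, hw, v'', h5, h6⟩ := h3 z le_rfl
    obtain rfl : v'' = v' := val_unique h5 (RO.mono h4 hw)
    exact ⟨w, hw, h6 (⟨ξ, h⟩, v) w le_rfl (RO.mono h1 hw) w le_rfl (RO.mono h2 hw)⟩
  obtain ⟨z, h1, c, -, h2, h3⟩ := T.ub j (T.BG j ζ a) ζ y hζ hy (by
    intro v v' z hz hv hv'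
    obtain ⟨z₁, h5, ξ, h6, h6'⟩ := hv z le_rfl
    obtain ⟨z₂, h7, ξ', h8, h8'⟩ := hv' z₁ h5
    rcases lt_trichotomy ξ ξ' with h | h | h
    · obtain ⟨w, hw, h9⟩ := key ξ ξ' v v' z₂ h (RO.mono h6 h7) (RO.mono h6' h7) h8 h8'
      exact ⟨w, hw.trans (h7.trans h5), Or.inl h9⟩
    · subst h
      obtain rfl : v = v' := val_unique (RO.mono h6' h7) h8'
      exact ⟨z, le_rfl, Or.inl (T.refl j _ z (hz.trans hy))⟩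
    · obtain ⟨w, hw, h9⟩ := key ξ' ξ v' v z₂ h h8 h8' (RO.mono h6 h7) (RO.mono h6' h7)
      exact ⟨w, hw.trans (h7.trans h5), Or.inr h9⟩) (by
    intro v β z hz hv hβ
    obtain ⟨z₁, -, ξ, -, h6⟩ := hv z le_rfl
    exact (H v β z (val_lt h6) hz hβ).le)
  obtain ⟨w, hw, h4⟩ := exists_mn (Φ := fun x => RO.and (T.lv j x ζ)
    (RO.all fun v => RO.imp (T.BG j ζ a v) (T.le j v x))) (p := z) (x := c) ⟨h2, h3⟩
  exact ⟨w, hw.trans h1, h4⟩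

end TD

noncomputable def fnS (S : Sm K (K × K)) (ξ : K) : K :=
  open Classical in if h : ∃ v, (ξ, v) ∈ S.1 then h.choose else kz K

/-- Below `p`, `w₁` and `f₁`. -/
def Bl (w₁ : PC K) (f₁ : R) (p : PC K) (w : PC K × R) : Prop := w.1 ≤ p ∧ w.1 ≤ w₁ ∧ w.2 ≤ f₁

theorem Bl.mono {w₁ p : PC K} {f₁ : R} {w w' : PC K × R} (h : Bl w₁ f₁ p w) (h' : w' ≤ w) :
    Bl w₁ f₁ p w' := ⟨h'.1.trans h.1, h'.1.trans h.2.1, h'.2.trans h.2.2⟩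

theorem Bl.up {w₁ p p' : PC K} {f₁ : R} {w : PC K × R} (h : Bl w₁ f₁ p w) (h' : p ≤ p') :
    Bl w₁ f₁ p' w := ⟨h.1.trans h', h.2⟩

variable [Tl K R]

theorem TD.closure {B : Set K} (hB : Seg B) {d : ℕ} {p₀ : PC K} {f₀ : R} {s₀ : K} (hs : s₀ ∈ B)
    (T : TD B d (p₀, f₀) s₀)
    (hc : ∀ y, y ≤ (p₀, f₀) → ∀ τ i, i < s₀ →
      ∃ ζ' ∈ B, ∃ z, z ≤ y ∧ ∀ w, w ≤ z → ¬ T.Gr τ i ζ' w) :
    ∃ (w₁ : PC K) (f₁ : R), (∀ x ∈ w₁.g, x.1 ∉ B) ∧ w₁ ≤ p₀.res Bᶜ ∧ f₁ ≤ f₀ ∧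
      ∃ ζ ∈ Sset K, ζ ∈ B ∧ rk (p₀.res B) < ζ ∧ s₀ < ζ ∧
      ∀ (j : Fin d) (a : K) (τ : Fin d → K) (S : Sm K (K × K)) (p : PC K), a < ζ → rk τ < ζ →
        rk S < ζ → rk p < ζ → p ≤ p₀.res B → ∃ p', p' ≤ p ∧ rk p' < ζ ∧
          (∃ η, η < ζ ∧ ∀ w, Bl w₁ f₁ p' w → (T.lv j a η).s w) ∧
          (∃ β, β < ζ ∧ ∀ b w, Bl w₁ f₁ p' w → (T.lv j b a).s w →
            ∃ w', w' ≤ w ∧ ∃ b', b' < β ∧ (T.le j b b').s w' ∧ (T.le j b' b).s w') ∧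
          (∃ ζ', ζ' < ζ ∧ (a < s₀ → ∀ w, Bl w₁ f₁ p' w → ¬ T.Gr τ a ζ' w)) ∧
          ∃ c, c < ζ ∧ ∀ ξ w, ξ < a → Bl w₁ f₁ p' w → (T.Acc j (fnS S) ξ).s w →
            (T.le j (fnS S ξ) c).s w := by
  classical
  let I := ULift.{u} (Fin d) × K × (Fin d → K) × Sm K (K × K)
  let D : I → (K × K × K × K) → PC K × R → Prop := fun t o y =>
    (T.lv t.1.down t.2.1 o.1).s y ∧
    (∀ b w, w ≤ y → (T.lv t.1.down b t.2.1).s w → ∃ w', w' ≤ w ∧ ∃ b', b' < o.2.1 ∧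
      (T.le t.1.down b b').s w' ∧ (T.le t.1.down b' b).s w') ∧
    (t.2.1 < s₀ → ∀ w, w ≤ y → ¬ T.Gr t.2.2.1 t.2.1 o.2.2.1 w) ∧
    ∀ ξ w, ξ < t.2.1 → w ≤ y → (T.Acc t.1.down (fnS t.2.2.2) ξ).s w →
      (T.le t.1.down (fnS t.2.2.2 ξ) o.2.2.2).s w
  have hD : ∀ t o x y, y ≤ x → D t o x → D t o y := by
    rintro t o x y hy ⟨h1, h2, h3, h4⟩
    exact ⟨RO.mono h1 hy, fun b w hw => h2 b w (hw.trans hy),
      fun h w hw => h3 h w (hw.trans hy), fun ξ w h hw => h4 ξ w h (hw.trans hy)⟩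
  obtain ⟨w₁, f₁, g1, g2, h1, h2⟩ := hB.fus (ι := I) (fun t y => ∃ o, rk o ∈ B ∧ D t o y) p₀ f₀
    (fun t x y hy ⟨o, h1, h2⟩ => ⟨o, h1, hD t o x y hy h2⟩) (by
    rintro ⟨⟨j⟩, a, τ, S⟩ x ht hx
    have ha : a ∈ B := hB.low ((le_max_left _ _).trans (le_max_right _ _)) ht
    obtain ⟨y₁, l1, η, h1⟩ := T.hgt j a x hx
    obtain ⟨y₂, l2, β, hβ, h2⟩ := T.cod j a y₁ (l1.trans hx)
    obtain ⟨y₃, l3, c, hc', h3⟩ := T.exists_stem hB j (fnS S) a ha y₂ (l2.trans (l1.trans hx))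
    obtain ⟨ζ', hζ', y₄, l4, h4⟩ : ∃ ζ' ∈ B, ∃ y₄, y₄ ≤ y₃ ∧
        (a < s₀ → ∀ w, w ≤ y₄ → ¬ T.Gr τ a ζ' w) := by
      by_cases h : a < s₀
      · obtain ⟨ζ', h0, z, h4, h5⟩ := hc y₃ (l3.trans (l2.trans (l1.trans hx))) τ a h
        exact ⟨ζ', h0, z, h4, fun _ => h5⟩
      · exact ⟨a, ha, y₃, le_rfl, fun h' => absurd h' h⟩
    exact ⟨y₄, l4.trans (l3.trans (l2.trans l1)), (η, β, ζ', c),
      Seg.max_mem (T.inB j a η y₁ (l1.trans hx) h1) (Seg.max_mem hβ (Seg.max_mem hζ' hc')),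
      RO.mono h1 (l4.trans (l3.trans l2)), fun b w hw => h2 b w (hw.trans (l4.trans l3)), h4,
      fun ξ w h hw => h3 ξ w h (hw.trans l4)⟩)
  have h3 : ∀ t : I × PC K, ∃ e : PC K × K × K × K × K, rk t ∈ B → rk e ∈ B ∧ (t.2 ≤ p₀.res B →
      e.1 ≤ t.2 ∧ ∀ w, Bl w₁ f₁ e.1 w → D t.1 e.2 w) := by
    intro t
    by_cases h : rk t ∈ B ∧ t.2 ≤ p₀.res B
    · obtain ⟨p', h3, h4, h5⟩ := h2 t.1 t.2 (hB.low (le_max_left _ _) h.1)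
        (hB.low (le_max_right _ _) h.1) h.2
      obtain ⟨r, hr⟩ := PC.exists_lb₂ (p := p') (q := w₁) fun ζ a ξ v v' e1 e2 =>
        absurd (hB.low (((le_max_left _ _).trans
          ((rk_Sm_le ⟨p'.g, p'.small⟩ _).1 le_rfl _ e1))) h4) (g1 (ζ, a, ξ, v') e2)
      obtain ⟨o, h6, h7⟩ := h5 r f₁ (PC.le_def.2 (hr ▸ subset_union_left))
        (PC.le_def.2 (hr ▸ subset_union_right)) le_rfl
      exact ⟨(p', o), fun _ => ⟨Seg.max_mem h4 h6, fun _ => ⟨h3, fun w hw => hD _ _ _ _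
        ⟨PC.le_def.2 (hr ▸ union_subset hw.1 hw.2.1), hw.2.2⟩ h7⟩⟩⟩
    · exact ⟨(t.2, s₀, s₀, s₀, s₀), fun h' => ⟨Seg.max_mem (hB.low (le_max_right _ _) h')
        (Seg.max_mem hs (Seg.max_mem hs (Seg.max_mem hs hs))), fun h'' => absurd ⟨h', h''⟩ h⟩⟩
  choose e he using h3
  obtain ⟨ζ, h3, hζ, h4, h5⟩ := hB.exists_closed (fun t => rk (e t)) (fun t ht => (he t ht).1)
    (Seg.max_mem (hB.rk_res p₀) hs)
  refine ⟨w₁, f₁, g1, g2, h1, ζ, h3, hζ, (le_max_left _ _).trans_lt h4,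
    (le_max_right _ _).trans_lt h4, fun j a τ S p ha hτ hS hp hp₀ => ?_⟩
  have h0 : rk (((⟨j⟩, a, τ, S), p) : I × PC K) < ζ :=
    max_lt (max_lt h3.1.kz_lt (max_lt ha (max_lt hτ hS))) hp
  have h6 := h5 _ h0
  simp only [rk_prod, max_lt_iff, rk_K] at h6
  obtain ⟨h7, h8⟩ := (he _ (hB.low h0.le hζ)).2 hp₀
  exact ⟨_, h7, h6.1, ⟨_, h6.2.1, fun w hw => (h8 w hw).1⟩,
    ⟨_, h6.2.2.1, fun b w hw => (h8 w hw).2.1 b w le_rfl⟩,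
    ⟨_, h6.2.2.2.1, fun h w hw => (h8 w hw).2.2.1 h w le_rfl⟩, _, h6.2.2.2.2,
    fun ξ w h hw => (h8 w hw).2.2.2 ξ w h le_rfl⟩

theorem TD.sd {B : Set K} (hB : Seg B) {d : ℕ} (j₀ : Fin d) {x₀ : PC K × R} {s₀ : K}
    (hs : s₀ ∈ B) (T : TD B d x₀ s₀) :
    ∃ y, y ≤ x₀ ∧ ∃ τ i, i < s₀ ∧ ∀ ζ' ∈ B, ∀ z, z ≤ y → ∃ w, w ≤ z ∧ T.Gr τ i ζ' w := by
  classical
  obtain ⟨q₀, f₀⟩ := x₀
  by_contra hc
  push Not at hc
  obtain ⟨w₁, f₁, g1, g2, hf₁, ζ, hζS, hζB, hp₀, hs₀, hcl⟩ := T.closure hB hs hc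
  generalize hq₀ : q₀.res B = p₀ at hp₀ hcl
  have hζ := hζS.1
  have k0 := hζ.kz_lt
  let S₀ : Sm K (K × K) := ⟨∅, by simpa using aleph0_pos.trans unc_K⟩
  have hS₀ : rk S₀ < ζ := ((rk_Sm_le S₀ (kz K)).2 fun _ h => h.elim).trans_lt k0
  have hτ₀ : rk (fun _ : Fin d => kz K) < ζ := hζ.rk_pi_lt _ fun _ => k0
  have hx₁ : ∀ {y : PC K × R}, Bl w₁ f₁ p₀ y → y ≤ (q₀, f₀) := fun hy =>
    ⟨PC.le_of_split B (hq₀ ▸ hy.1) (hy.2.1.trans g2), hy.2.2.trans hf₁⟩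
  have H1 : ∀ j a η y, a < ζ → Bl w₁ f₁ p₀ y → (T.lv j a η).s y → η < ζ := by
    intro j a η y ha hy h
    obtain ⟨p', h1, h2, ⟨η', h3, h4⟩, -⟩ := hcl j a _ S₀ (y.1.res (Iio ζ)) ha hτ₀ hS₀
      (PC.rk_res_lt _ hζ) (PC.res_le_of_rk hy.1 hp₀)
    obtain ⟨r, h5, h6⟩ := PC.exists_le₂ (PC.compat_of_res (PC.lt_of_rk h2) h1)
    have h7 : ((r, y.2) : PC K × R) ≤ y := ⟨h6, le_rfl⟩
    rwa [T.uniq j a η η' (r, y.2) (h7.trans (hx₁ hy)) (RO.mono h h7)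
      (h4 _ ⟨h5, h6.trans hy.2.1, hy.2.2⟩)]
  obtain ⟨w, f₂, hw, hw₁, hf₂, hL⟩ := upper_fusion ζ (ι := {a : Fin d → K | ∀ j, a j < Lam ζ})
    (fun γ h1 h2 => h1.mk_pi_lt (h1.lam ζ h2))
    (fun a y => ∃ x : Fin d → K, ∃ i, i < s₀ ∧ (∀ j, (T.tm j ζ (a.1 j) (x j)).s y) ∧
      (T.col x i).s y) (fun _ => p₀) w₁ f₁ (fun _ x hx => (PC.lt_of_rk hp₀ x hx).le)
      (fun x hx => hB.lt_of_notMem hζB (g1 x hx)) (by
      rintro a x y hy ⟨b, i, h1, h2, h3⟩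
      exact ⟨b, i, h1, fun j => RO.mono (h2 j) hy, RO.mono h3 hy⟩) (by
      intro a y hy1 hy2 hy3
      have hy : Bl w₁ f₁ p₀ y := ⟨hy1, hy2, hy3⟩
      obtain ⟨z, h1, -, h2⟩ := fin_iter (Bl w₁ f₁ p₀)
        (fun j z => ∃ x, (T.tm j ζ (a.1 j) x).s z)
        (fun j p q hq ⟨x, hx⟩ => ⟨x, RO.mono hx hq⟩) (fun j p hp => by
          obtain ⟨z, h1, h2⟩ := T.exists_tm j ζ (a.1 j) hζB p (hx₁ hp)
            fun b η z h1 h2 => H1 j b η z h1 (hp.mono h2)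
          exact ⟨z, h1, hp.mono h1, h2⟩) y hy
      choose x hx using h2
      obtain ⟨z', h3, i, h4, h5⟩ := T.tot x ζ z (h1.trans (hx₁ hy)) fun j => (hx j).1.1
      exact ⟨z', h3.trans h1, x, i, h4, fun j => RO.mono (hx j) h3, h5⟩)
  have hL' : ∀ a : Fin d → K, ∃ (L : PC K) (i : K) (x : Fin d → K), L ≤ p₀ ∧
      (∀ x ∈ L.g, x.1 ≤ ζ) ∧ i < ζ ∧ ((∀ j, a j < Lam ζ) → i < s₀ ∧ ∀ y : PC K × R, y.1 ≤ L →
        y.1 ≤ w → y.2 ≤ f₂ → (∀ j, (T.tm j ζ (a j) (x j)).s y) ∧ (T.col x i).s y) := by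
    intro a
    by_cases ha : ∀ j, a j < Lam ζ
    · obtain ⟨L, h1, h2, h3⟩ := hL ⟨a, ha⟩
      obtain ⟨r, hr⟩ := PC.exists_lb₂ (PC.compat_of_sep h2 hw)
      obtain ⟨x, i, h4, h5, h6⟩ := h3 r f₂ (PC.le_def.2 (hr ▸ subset_union_left))
        (PC.le_def.2 (hr ▸ subset_union_right)) le_rfl
      refine ⟨L, i, x, h1, h2, h4.trans hs₀, fun _ => ⟨h4, fun y h7 h8 h9 => ?_⟩⟩
      have : y ≤ (r, f₂) := ⟨PC.le_def.2 (hr ▸ union_subset h7 h8), h9⟩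
      exact ⟨fun j => RO.mono (h5 j) this, RO.mono h6 this⟩
    · exact ⟨p₀, kz K, a, le_rfl, fun x hx => (PC.lt_of_rk hp₀ x hx).le, k0,
        fun h => absurd h ha⟩
  choose L cl xs hL1 hL2 hL3 hL4 using hL'
  obtain ⟨h, hh1, hh2, hh3⟩ := uniform hζ L cl hL2 hL3
  let G : (Fin d → K) → Fin d → K := fun a j => h j (a j)
  let a₀ : Fin d → K := fun _ => kz K
  have ha₀ : ∀ j, a₀ j < ζ := fun _ => k0
  have hSz : ∀ j, #{t : K × K | (ζ, h j (kz K), t.1, t.2) ∈ (L (G a₀)).g} < #(Iio ζ) := fun j =>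
    (mk_preimage_of_injective (fun t : K × K => (ζ, h j (kz K), t.1, t.2)) _
      fun t t' h => by simpa using h).trans_lt (mk_lt_of_le hζ (hL2 _))
  let S : Fin d → Sm K (K × K) := fun j => ⟨_, (hSz j).trans (Mh.iio ζ)⟩
  have hS : ∀ j, rk (S j) < ζ := fun j => hζ.rk_Sm_lt _ (hSz j) fun t ht =>
    max_lt ((L _).ok _ ht).2.2.1 ((L _).ok _ ht).2.2.2
  obtain ⟨l, hl1, hl2⟩ := hζ.bdd_fam (fun j : ULift.{u} (Fin d) => (rk (S j.down) : K))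
    hζ.mk_fin_lt fun j => hS j.down
  have hS2 : ∀ j ξ v, (ξ, v) ∈ (S j).1 → ξ < l ∧ v = fnS (S j) ξ := by
    intro j ξ v hv
    have h1 : ∃ v, (ξ, v) ∈ (S j).1 := ⟨v, hv⟩
    refine ⟨((le_max_left _ _).trans ((rk_Sm_le _ _).1 le_rfl _ hv)).trans_lt (hl2 ⟨j⟩), ?_⟩
    rw [fnS, dif_pos h1]
    exact (L _).fn _ _ _ _ _ hv h1.choose_spec
  have hS3 : ∀ j ξ, fnS (S j) ξ < ζ := by
    intro j ξ
    unfold fnS
    split_ifs with h1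
    · exact ((L _).ok _ h1.choose_spec).2.2.2
    · exact k0
  have hp₁ : (L (G a₀)).res (Iio ζ) ≤ p₀ := PC.res_le_of_rk (hL1 _) hp₀
  obtain ⟨p₁, l1, ⟨m1, n1⟩, h1⟩ := fin_iter (fun p : PC K => rk p < ζ ∧ p ≤ p₀)
    (fun j p => ∃ c, c < ζ ∧ ∀ ξ w, ξ < l → Bl w₁ f₁ p w → (T.Acc j (fnS (S j)) ξ).s w →
      (T.le j (fnS (S j) ξ) c).s w)
    (fun j p q hq ⟨c, h1, h2⟩ => ⟨c, h1, fun ξ w h3 h4 => h2 ξ w h3 (h4.up hq)⟩) (fun j p hp => by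
      obtain ⟨p', h1, h2, -, -, -, h3⟩ := hcl j l _ (S j) p hl1 hτ₀ (hS j) hp.1 hp.2
      exact ⟨p', h1, ⟨h2, h1.trans hp.2⟩, h3⟩) _ ⟨PC.rk_res_lt _ hζ, hp₁⟩
  choose τ hτ1 hτ2 using h1
  have hi := (hL4 (G a₀) fun j => hh1 j _ k0).1
  obtain ⟨p₂, l2, m2, -, -, ⟨ζ', hζ', h2⟩, -⟩ := hcl j₀ (cl (G a₀)) τ S₀ p₁ (hL3 _)
    (hζ.rk_pi_lt τ hτ1) hS₀ m1 n1
  obtain ⟨p₃, l3, ⟨m3, n3⟩, h3⟩ := fin_iter (fun p : PC K => rk p < ζ ∧ p ≤ p₀)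
    (fun j p => ∃ β, β < ζ ∧ ∀ b w, Bl w₁ f₁ p w → (T.lv j b ζ').s w →
      ∃ w', w' ≤ w ∧ ∃ b', b' < β ∧ (T.le j b b').s w' ∧ (T.le j b' b).s w')
    (fun j p q hq ⟨c, h1, h2⟩ => ⟨c, h1, fun b w h4 => h2 b w (h4.up hq)⟩) (fun j p hp => by
      obtain ⟨p', h1, h2, -, h3, -⟩ := hcl j ζ' _ S₀ p hζ' hτ₀ hS₀ hp.1 hp.2
      exact ⟨p', h1, ⟨h2, h1.trans hp.2⟩, h3⟩) p₂ ⟨m2, l2.trans n1⟩
  choose βs hβ1 hβ2 using h3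
  obtain ⟨β, hβ3, hβ4⟩ := hζ.bdd_fam (fun j : ULift.{u} (Fin d) => βs j.down)
    hζ.mk_fin_lt fun j => hβ1 j.down
  obtain ⟨l', hl3, hl4⟩ := hζ.exists_gt hl1
  let row : ULift.{u} (Fin d) × Iio β × Iio l' → K × K × K × K := fun t =>
    (ζ, h t.1.down t.2.1, t.2.2, if t.2.2.1 < l then fnS (S t.1.down) t.2.2 else t.2.1)
  let M := mkAt hζS ((⋃ a : {a : Fin d → K | ∀ j, a j < β}, {x ∈ (L (G a.1)).g | x.1 = ζ}) ∪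
    range row) (by
      have key : ∀ r ξ v v', (ζ, r, ξ, v) ∈ (⋃ a : {a : Fin d → K | ∀ j, a j < β},
          {x ∈ (L (G a.1)).g | x.1 = ζ}) → (ζ, r, ξ, v') ∈ range row → v = v' := by
        rintro r ξ v v' h4 ⟨⟨⟨j⟩, e, ξ'⟩, h5⟩
        obtain ⟨a, h4, -⟩ := mem_iUnion.1 h4
        simp only [row, Prod.mk.injEq, true_and] at h5
        obtain ⟨rfl, rfl, rfl⟩ := h5
        obtain ⟨h6, h7⟩ := hS2 j _ v ((hh3 a.1 a₀ (fun j => (a.2 j).trans hβ3) ha₀).2.2.2 j e.1 _ v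
          (e.2.trans hβ3) h4)
        rw [if_pos h6, h7]
      rintro r ξ v v' (h4 | h4) (h5 | h5)
      · obtain ⟨a, h4, -⟩ := mem_iUnion.1 h4
        obtain ⟨b, h5, -⟩ := mem_iUnion.1 h5
        exact (hh3 a.1 b.1 (fun j => (a.2 j).trans hβ3) fun j => (b.2 j).trans hβ3).2.2.1
          _ _ _ _ _ h4 h5
      · exact key _ _ _ _ h4 h5
      · exact (key _ _ _ _ h5 h4).symm
      · obtain ⟨⟨⟨j⟩, e, ξ₁⟩, h4⟩ := h4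
        obtain ⟨⟨⟨j'⟩, e', ξ₂⟩, h5⟩ := h5
        simp only [row, Prod.mk.injEq, true_and] at h4 h5
        obtain ⟨h6, h7⟩ := hh2 j j' e.1 e'.1 (e.2.trans hβ3) (e'.2.trans hβ3)
          (h4.1.trans h5.1.symm)
        rw [← h4.2.2, ← h5.2.2, h6, h7, h4.2.1, h5.2.1]) (by
      rintro x (hx | ⟨⟨⟨j⟩, e, ξ⟩, rfl⟩)
      · obtain ⟨a, h4, h5⟩ := mem_iUnion.1 hx
        have := (L _).ok x h4
        rw [h5] at this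
        exact ⟨h5, this.2⟩
      · refine ⟨rfl, hh1 j _ (e.2.trans hβ3), ξ.2.trans hl3, ?_⟩
        simp only [row]
        split_ifs
        · exact hS3 _ _
        · exact e.2.trans hβ3) (by
      refine (mk_union_le _ _).trans_lt (add_lt_of_lt hζ.unc.le
        (hζ.mk_iUnion_lt _ (hζ.mk_pi_lt hβ3) fun a =>
          (mk_le_mk_of_subset fun _ hx => hx.1).trans_lt (mk_lt_of_le hζ (hL2 _)))
        (mk_range_le.trans_lt ?_))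
      simp only [mk_prod, lift_id]
      exact mul_lt_of_lt hζ.unc.le hζ.mk_fin_lt
        (mul_lt_of_lt hζ.unc.le (hζ.init β hβ3) (hζ.init l' hl3)))
  have hM : ∀ x ∈ M.g, x.1 = ζ := by
    rintro x (hx | ⟨t, rfl⟩)
    · obtain ⟨a, -, h5⟩ := mem_iUnion.1 hx
      exact h5
    · rfl
  obtain ⟨r₁, hr₁⟩ := PC.exists_lb₂ (p := p₃) (q := M) fun ζ₁ a ξ v v' h4 h5 =>
    absurd (PC.lt_of_rk m3 _ h4) (not_lt.2 (hM _ h5).ge)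
  obtain ⟨r, hr1, hr2⟩ := PC.exists_le₂ (PC.compat_of_sep (p := r₁) (α := ζ) (by
    intro x hx
    rw [hr₁] at hx
    rcases hx with hx | hx
    · exact (PC.lt_of_rk m3 x hx).le
    · exact (hM x hx).le) hw)
  have hr3 : r ≤ p₃ := hr1.trans (PC.le_def.2 (hr₁ ▸ subset_union_left))
  have hr4 : r ≤ M := hr1.trans (PC.le_def.2 (hr₁ ▸ subset_union_right))
  have hr5 : ∀ a : Fin d → K, (∀ j, a j < β) → r ≤ L (G a) := by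
    intro a ha x hx
    rcases (hL2 _ x hx).eq_or_lt with h4 | h4
    · exact hr4 (Or.inl (mem_iUnion.2 ⟨⟨a, ha⟩, hx, h4⟩))
    · exact (hr3.trans (l3.trans (l2.trans l1)))
        ⟨(hh3 a a₀ (fun j => (ha j).trans hβ3) ha₀).2.1 x hx h4, h4⟩
  have hy1 : Bl w₁ f₁ p₃ (r, f₂) := ⟨hr3, hr2.trans hw₁, hf₂⟩
  have hy2 : Bl w₁ f₁ p₀ (r, f₂) := hy1.up n3
  refine h2 hi (r, f₂) (hy1.up l3) ⟨ζ, hζB, hζ'.le,
    fun j x => RO.ex fun a : Iio β => T.tm j ζ (h j a.1) x, ?_, ?_, ?_⟩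
  · intro j x y _ hx
    refine RO.reg fun z hz => ?_
    obtain ⟨z', hz', a, h4⟩ := hx z hz
    exact ⟨z', hz', h4.1.1⟩
  · intro j b y hy h4 h5
    obtain ⟨y₁, hy₁, b', h6, h7, h8⟩ := hβ2 j b y (hy1.mono hy) h4
    have h9 : b' < β := h6.trans (hβ4 ⟨j⟩)
    have hy3 : y₁ ≤ (r, f₂) := hy₁.trans hy
    obtain ⟨y₂, hy₂, x, h10⟩ := T.exists_tm j ζ (h j b') hζB y₁ (hy3.trans (hx₁ hy2))
      fun a η z h1 h2 => H1 j a η z h1 (hy2.mono (h2.trans hy3))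
    have hy4 : y₂ ≤ (r, f₂) := hy₂.trans hy3
    have h11 : ∀ ξ, ξ < l → (ζ, h j b', ξ, fnS (S j) ξ) ∈ y₂.1.g := fun ξ hξ =>
      hy4.1 (hr4 (Or.inr ⟨(⟨j⟩, ⟨b', h9⟩, ⟨ξ, hξ.trans hl4⟩), by simp [row, hξ]⟩))
    have h12 : (val ζ (h j b') l b').s y₂ :=
      val_intro (hy4.1 (hr4 (Or.inr ⟨(⟨j⟩, ⟨b', h9⟩, ⟨l, hl4⟩), by simp [row]⟩)))
    have h13 : (T.AccG j ζ (h j b') l).s y₂ := by
      rw [TD.AccG_eq]
      refine RO.ex_intro b' ⟨h12, ?_⟩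
      rintro ⟨ξ, v⟩ z hz h13 z' hz' h14
      have hz1 : z' ≤ y₂ := hz'.trans hz
      have hz2 : z' ≤ (q₀, f₀) := hz1.trans (hy4.trans (hx₁ hy2))
      obtain rfl : v = fnS (S j) ξ.1 := val_unique h14 (val_intro (hz1.1 (h11 _ ξ.2)))
      have h15 := hτ2 j ξ.1 z' ξ.2 ((hy1.up (l3.trans l2)).mono (hz1.trans hy4))
        ((T.accG_iff j ζ _ l _ y₂ h11 ξ.1 ξ.2 z' hz1).1 (RO.mono h13 hz'))
      exact T.trans j _ _ _ z' hz2 (T.trans j _ _ _ z' hz2 h15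
        (RO.mono h5 (hz1.trans (hy₂.trans hy₁)))) (RO.mono h7 (hz1.trans hy₂))
    exact ⟨y₂, hy₂.trans hy₁, x, RO.ex_intro ⟨b', h9⟩ h10,
      T.trans j _ _ _ y₂ (hy4.trans (hx₁ hy2)) (RO.mono h7 hy₂)
        (h10.1.2 b' y₂ le_rfl (RO.ex_intro l ⟨h13, h12⟩))⟩
  · intro x y hy h4
    refine RO.reg fun z hz => ?_
    obtain ⟨z', h5, -, h6⟩ := fin_iter (fun z => z ≤ y)
      (fun j z => ∃ a : Iio β, (T.tm j ζ (h j a.1) (x j)).s z)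
      (fun j p q hq ⟨a, ha⟩ => ⟨a, RO.mono ha hq⟩) (fun j p hp => by
        obtain ⟨q, h5, h6⟩ := h4 j p hp
        exact ⟨q, h5, h5.trans hp, h6⟩) z hz
    choose a ha using h6
    have h7 : z' ≤ (r, f₂) := h5.trans (hz.trans hy)
    obtain ⟨h8, h9⟩ := (hL4 (G fun j => (a j).1) fun j => hh1 j _ ((a j).2.trans hβ3)).2 z'
      (h7.1.trans (hr5 _ fun j => (a j).2)) (h7.1.trans hr2) h7.2
    obtain rfl : x = xs (G fun j => (a j).1) := funext fun j => mn_unique (ha j) (h8 j)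
    refine ⟨z', h5, ?_⟩
    rwa [(hh3 a₀ (fun j => (a j).1) ha₀ fun j => (a j).2.trans hβ3).1]

end Pool.Agent.Lib.MP_c8ac39_lc.MH
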