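import Pool.Agent.Lib.MP_c8ac39_lc.MH.BigM
import Pool.Agent.Lib.MP_c8ac39_lc.MH.Pos

/-! The cardinal `K` stays Mahlo in the quotient model. -/

namespace Pool.Agent.Lib.MP_c8ac39_lc.MH

open Cardinal Filter Set Pool.Agent.Lib.MP_2739cb_lc Nm

universe u

set_option synthInstance.maxSize 4000

variable {K : Type u} [LinearOrder K] [Mh K] [WellFoundedLT K]

theorem omega_lt_kap : Ordinal.omega0 < kap K := by
  by_contra h
  have := Ordinal.card_le_card (not_lt.1 h)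
  rw [kap, Ordinal.card_type, Ordinal.card_omega0] at this
  exact absurd (unc_K (K := K)) (not_lt.2 this)

theorem isSuccLimit_kap : Order.IsSuccLimit (kap K) := by
  refine ⟨(Ordinal.omega0_pos.trans omega_lt_kap).not_isMin, ?_⟩
  rw [Order.isSuccPrelimit_iff_succ_lt]
  intro a ha
  obtain ⟨k, rfl⟩ := exists_oK ha
  obtain ⟨k', hk⟩ := exists_gt_K k
  exact (Order.succ_le_of_lt (oK_lt_oK.2 hk)).trans_lt (oK_lt_kap k')

variable {R : Type u} [Preorder R] [OrderTop R] [Tl K R]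

theorem mh_bdd_kN (φ : Mod (PC K × R) → Mod (PC K × R) → Prop) [Df2 φ] (C : Mod (PC K × R))
    (hC : Small EM C (cls (kN K))) (hφ : ∀ c η η', EM c C → φ c η → φ c η' → η = η') :
    ∃ γ, EM γ (cls (kN K)) ∧ ∀ c η, EM c C → EM η (cls (kN K)) → φ c η → EM η γ := by
  obtain ⟨Φ, e2, e3, h2⟩ := Df2.exists φ
  obtain ⟨α, hα, f, hf⟩ := hC
  have H1 : T (RO.all fun c => RO.all fun η => RO.all fun η' => RO.imp (RO.mem c (rep C))
      (RO.imp (Φ c η) (RO.imp (Φ c η') (RO.eq η η')))) := by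
    simpa only [T_all, T_imp, T_mem, T_eq, h2, cls_rep] using hφ
  have : T (RO.ex fun γ => RO.and (RO.mem γ (kN K)) (RO.all fun c => RO.all fun η =>
      RO.imp (RO.mem c (rep C)) (RO.imp (RO.mem η (kN K)) (RO.imp (Φ c η) (RO.mem η γ))))) := by
    refine ((T_and _ _).2 ⟨H1, (T_and _ _).2 ⟨T_total hf.1, (T_and _ _).2 ⟨T_injective hf,
      T_mem_rep hα⟩⟩⟩).mono ?_
    rintro p ⟨h3, h4, h5, h6⟩ q hq
    obtain ⟨q₁, hq₁, k, hk⟩ := mem_kN h6 q hq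
    have hq₂ := hq₁.trans hq
    obtain ⟨y, hy, γ, -, h7⟩ := seg_univ.bdd_names (l := k) trivial (fun i η => RO.ex fun c =>
      RO.and (RO.mem c (rep C)) (RO.and (appR (rep f) c (nk i)) (Φ c (nk η)))) q₁ (by
        intro i η η' y _ hy h7 h8
        obtain ⟨y₁, hy₁, c, h9, h10, h11⟩ := h7 y le_rfl
        obtain ⟨y₂, hy₂, c', -, h12, h13⟩ := h8 y₁ hy₁
        have hp : y₂ ≤ p := hy₂.trans (hy₁.trans (hy.trans hq₂))
        have h14 := h5 c' c _ y₂ hp h12 y₂ le_rfl (RO.mono h10 hy₂)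
        exact nk_inj (h3 c _ _ y₂ hp (FMem.mono h9 hy₂) y₂ le_rfl (RO.mono h11 hy₂) y₂ le_rfl
          (Ext.subst (fun c => Φ c (nk η')) h14 h13)))
    refine ⟨y, hy.trans hq₁, nk γ, nk_mem_kN _ _, fun c η w₁ hw₁ h8 w₂ hw₂ h9 w₃ hw₃ h10 =>
      FMem.reg fun w₄ hw₄ => ?_⟩
    obtain ⟨w₅, hw₅, e, he⟩ := mem_kN h9 w₄ (hw₄.trans hw₃)
    have hw : w₅ ≤ w₁ := hw₅.trans (hw₄.trans (hw₃.trans hw₂))
    obtain ⟨w₆, hw₆, b, h11, h12⟩ := h4 c w₁ (hw₁.trans (hy.trans hq₂)) h8 w₅ hw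
    obtain ⟨w₇, hw₇, i, hi, h13⟩ := mem_nk (FMem.subst_right h12
      (hk.mono (hw₆.trans (hw.trans (hw₁.trans hy))))) w₆ le_rfl
    have hw' : w₇ ≤ w₅ := hw₇.trans hw₆
    have h14 := h7 i e w₇ hi trivial (hw'.trans (hw.trans hw₁)) (RO.ex_intro c
      ⟨FMem.mono h8 (hw'.trans hw), Ext.subst (fun b => appR (rep f) c b) h13 (RO.mono h11 hw₇),
        Ext.subst (Φ c) (he.mono hw') (RO.mono h10 (hw'.trans (hw₅.trans hw₄)))⟩)
    exact ⟨w₇, hw'.trans hw₅, (nk_mem_nk h14 w₇).subst_left (he.mono hw').symm⟩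
  simpa only [T_all, T_imp, T_ex, T_and, T_mem, h2, cls_rep] using this

theorem big_kN : Big (cls (kN K : Nm (PC K × R))) := by
  exact ⟨isOrd_on _, isLimit_on isSuccLimit_kap, fun ψ φ _ _ => greedy_kN ψ φ,
    fun φ _ => mh_bdd_kN φ⟩

/-- Inaccessible points stay regular. -/
theorem good_bddR {ζ : K} (hζ : Good ζ) (p : PC K × R) : (bddR (nk ζ)).s p := by
  intro l F q _ h1 q₁ hq₁ h2 q₂ hq₂
  obtain ⟨r, hr, k, hk, h3⟩ := mem_nk h1 q₂ (hq₂.trans hq₁)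
  obtain ⟨y, hy, γ, h4, h5⟩ := hζ.bdd_names hk (fun ξ η => appR F (nk ξ) (nk η)) r
    fun ξ η η' y _ hy h4 h5 =>
      nk_inj (h2 _ _ _ y (hy.trans (hr.trans hq₂)) h4 y le_rfl h5)
  refine ⟨y, hy.trans hr, nk γ, nk_mem_nk h4 _, fun a b w₁ hw₁ h6 w₂ hw₂ h7 w₃ hw₃ h8 =>
    FMem.reg fun w₄ hw₄ => ?_⟩
  obtain ⟨w₅, hw₅, η, hη, h9⟩ := mem_nk h7 w₄ (hw₄.trans hw₃)
  obtain ⟨w₆, hw₆, ξ, hξ, h10⟩ := mem_nk (FMem.subst_right h6 (h3.mono (hw₁.trans hy))) w₅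
    (hw₅.trans (hw₄.trans (hw₃.trans hw₂)))
  have hw : w₆ ≤ w₃ := hw₆.trans (hw₅.trans hw₄)
  have h11 := h5 ξ η w₆ hξ hη (hw.trans (hw₃.trans (hw₂.trans hw₁)))
    (Ext.subst (fun b => appR F (nk ξ) b) (h9.mono hw₆)
      (Ext.subst (fun a => appR F a b) h10 (RO.mono h8 hw)))
  exact ⟨w₆, hw₆.trans hw₅, (nk_mem_nk h11 w₆).subst_left (h9.mono hw₆).symm⟩

theorem good_limR {ζ : K} (hζ : Good ζ) (p : PC K × R) : (limR (nk ζ)).s p := by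
  obtain ⟨β, hβ⟩ := hζ.exists_lt
  refine ⟨RO.ex_intro (nk β) (nk_mem_nk hβ p), fun α q _ h r hr => ?_⟩
  obtain ⟨t, ht, a, ha, h1⟩ := mem_nk h r hr
  obtain ⟨b, h2, h3⟩ := hζ.exists_gt ha
  exact ⟨t, ht, nk b, nk_mem_nk h2 t, (nk_mem_nk h3 t).subst_left h1.symm⟩

/-- `K` stays a strong limit. -/
theorem strong_kN (α W : Mod (PC K × R)) (hα : EM α (cls (kN K)))
    (hW : ∀ z, EM z W ↔ Sub EM z α) : Small EM W (cls (kN K)) := by
  have : T (RO.ex fun β => RO.ex fun F => RO.and (RO.mem β (kN K : Nm (PC K × R))) (RO.and (fnR F)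
      (RO.all fun z => RO.imp (subR z (rep α))
        (RO.ex fun b => RO.and (RO.mem b β) (appR F b z))))) := by
    refine (T_mem_rep hα).mono₂ T_pairInj ?_
    intro p h1 h2 q hq
    obtain ⟨x₀, hx₀, l, hl⟩ := mem_kN h1 q hq
    have hp : x₀ ≤ p := hx₀.trans hq
    let Cd := Set (Iio l × {L : PC K | ∀ t ∈ L.g, t.1 ≤ l})
    have hCd : #Cd < #K := by
      refine Low.lt_K (β := l) ?_
      rw [mk_set, mk_prod, lift_id, lift_id]
      exact ((low_Iio l).mul (low_PC l)).pow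
    obtain ⟨β, ⟨e⟩⟩ := exists_le_mk_Iio hCd
    let σ : Cd → Nm (PC K × R) := fun c => famNm (I := Iio l) (fun ξ => nk ξ.1)
      fun ξ => RO.dense fun w => ∃ L, (ξ, L) ∈ c ∧ w.1 ≤ L.1
    let F : Nm (PC K × R) := relNm (I := Cd) (fun c => nk (e c).1) σ fun _ => pr True
    refine ⟨x₀, hx₀, nk β, RO.ex_intro F ⟨nk_mem_kN _ _, ?_, ?_⟩⟩
    · intro a b b' w hw h3 w' hw' h4
      have hw2 : w' ≤ p := hw'.trans (hw.trans hp)
      refine FEq.reg fun r hr => ?_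
      obtain ⟨r₁, hr₁, c, -, h5, h6⟩ := of_app_relNm (RO.mono h2 hw2) (RO.mono h3 hw') r hr
      obtain ⟨r₂, hr₂, c', -, h7, h8⟩ := of_app_relNm (RO.mono h2 hw2) h4 r₁ (hr₁.trans hr)
      obtain rfl : c = c' := e.injective (Subtype.ext (nk_inj ((h5.mono hr₂).symm.trans h7)))
      exact ⟨r₂, hr₂.trans hr₁, (h6.mono hr₂).trans h8.symm⟩
    · intro z x hx hz x' hx'
      obtain ⟨y, hy, h3⟩ := low_fusion l
        (fun ξ y => FMem (nk ξ) z y ∨ (RO.not (RO.mem (nk ξ) z)).s y) x'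
        (fun ξ a b hb h => h.imp (fun h => h.mono hb) fun h => RO.mono h hb)
        fun ξ y _ _ => RO.decide (RO.mem (nk ξ) z) y
      let c : Cd := {t | ∀ w, w ≤ y → w.1 ≤ t.2.1 → FMem (nk t.1.1) z w}
      refine ⟨y, hy, nk (e c).1, nk_mem_nk (e c).2 _, Ext.subst (appR F (nk (e c).1))
        (?_ : FEq (σ c) z y) (app_relNm (I := Cd) c trivial)⟩
      refine FEq.ext fun t w hw => ⟨fun h => FMem.reg fun w₁ hw₁ => ?_,
        fun h => FMem.reg fun w₁ hw₁ => ?_⟩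
      · obtain ⟨w₂, hw₂, ξ, h4, h5⟩ := (fmem_famNm _ _ _ _).1 h w₁ hw₁
        obtain ⟨w₃, hw₃, L, h6, h7⟩ := h4 w₂ le_rfl
        exact ⟨w₃, hw₃.trans hw₂, FMem.subst_left
          (h6 w₃ (hw₃.trans (hw₂.trans (hw₁.trans hw))) h7) (FEq.symm (FEq.mono h5 hw₃))⟩
      · have hw₁x : w₁ ≤ x := hw₁.trans (hw.trans (hy.trans hx'))
        obtain ⟨w₂, hw₂, ξ, hξ, h4⟩ := mem_nk (FMem.subst_right (hz t w₁ hw₁x (h.mono hw₁))
          (hl.mono (hw₁x.trans hx))) w₁ le_rfl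
        have hw₂y : w₂ ≤ y := hw₂.trans (hw₁.trans hw)
        obtain ⟨L, h5, ⟨z', h6, h7⟩, h8⟩ := h3 ξ w₂ hξ hw₂y
        obtain ⟨r, hr⟩ := PC.exists_lb₂ (p := L) (q := y.1) fun ζ a ξ v v' e1 e2 =>
          z'.1.fn ζ a ξ v v' (h7 e1) ((h6.trans hw₂y).1 e2)
        have h9 : ∀ w', w' ≤ y → w'.1 ≤ L → w' ≤ (r, y.2) := fun w' e1 e2 =>
          ⟨PC.le_def.2 (hr ▸ union_subset e2 e1.1), e1.2⟩
        have h10 : ((⟨ξ, hξ⟩, ⟨L, h5⟩) : Iio l × {L : PC K | ∀ t ∈ L.g, t.1 ≤ l}) ∈ c := by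
          rcases h8 (r, y.2) ⟨PC.le_def.2 (hr ▸ subset_union_right), le_rfl⟩
            (PC.le_def.2 (hr ▸ subset_union_left)) with h11 | h11
          · exact fun w' e1 e2 => h11.mono (h9 w' e1 e2)
          · exact absurd ((h.mono (h6.trans (hw₂.trans hw₁))).subst_left (h4.mono h6))
              (h11 z' (h9 z' (h6.trans hw₂y) h7))
        exact ⟨z', h6.trans hw₂, (fmem_famNm _ _ _ _).2 (RO.ex_intro ⟨ξ, hξ⟩
          ⟨fun s hs => ⟨s, le_rfl, ⟨L, h5⟩, h10, hs.1.trans h7⟩, h4.mono h6⟩)⟩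
  simp only [T_all, T_imp, T_ex, T_and, T_mem, T_app, T_sub, T_fnR, cls_rep] at this
  obtain ⟨β, F, h1, h2, h3⟩ := this
  exact ⟨β, h1, cardLe_of_surj h2 fun z hz => h3 z ((hW z).1 hz)⟩

/-- The regular cardinals stay stationary. -/
theorem club_kN (C : Mod (PC K × R)) (h1 : Sub EM C (cls (kN K)))
    (h2 : ∀ α, EM α (cls (kN K)) → ∃ γ, EM γ C ∧ EM α γ)
    (h3 : ∀ β, EM β (cls (kN K)) → IsLimit EM β →
      (∀ α, EM α β → ∃ γ, EM γ C ∧ EM α γ ∧ EM γ β) → EM β C) :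
    ∃ β, EM β C ∧ IsRegIn EM β := by
  have H1 : T (RO.all fun z => RO.imp (RO.mem z (rep C)) (RO.mem z (kN K))) := by
    simpa only [T_all, T_imp, T_mem, cls_rep, Sub] using h1
  have H2 : T (RO.all fun α => RO.imp (RO.mem α (kN K)) (RO.ex fun γ =>
      RO.and (RO.mem γ (rep C)) (RO.mem α γ))) := by
    simpa only [T_all, T_imp, T_ex, T_and, T_mem, cls_rep] using h2
  have H3 : T (RO.all fun β => RO.imp (RO.mem β (kN K)) (RO.imp (limR β) (RO.imp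
      (RO.all fun α => RO.imp (RO.mem α β) (RO.ex fun γ => RO.and (RO.mem γ (rep C))
        (RO.and (RO.mem α γ) (RO.mem γ β)))) (RO.mem β (rep C))))) := by
    simpa only [T_all, T_imp, T_ex, T_and, T_mem, T_limR, cls_rep] using h3
  have : T (RO.ex fun β => RO.and (RO.mem β (rep C)) (RO.and (limR β) (bddR β))) := by
    refine ((T_and _ _).2 ⟨H1, (T_and _ _).2 ⟨H2, H3⟩⟩).mono ?_
    rintro p ⟨g1, g2, g3⟩ ⟨p₀, f₀⟩ hq
    obtain ⟨f₁, hf, g4⟩ := R_fusion (ι := K) le_rfl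
      (fun k y => ∃ γ, k < γ ∧ FMem (nk γ) (rep C) y) p₀ f₀
      (fun k x y hy ⟨γ, a, b⟩ => ⟨γ, a, b.mono hy⟩) (fun k x hx => by
        obtain ⟨r, hr, γ, a, b⟩ := g2 (nk k) x (hx.trans hq) (nk_mem_kN _ _) x le_rfl
        obtain ⟨t, ht, k', e⟩ := mem_kN (g1 γ r (hr.trans (hx.trans hq)) a) r le_rfl
        exact ⟨t, ht.trans hr, k', nk_lt ((FMem.mono b ht).subst_right e),
          (FMem.mono a ht).subst_left e⟩)
    have g5 : ∀ t : K × PC K, ∃ e : PC K × K, t.2 ≤ p₀ →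
        e.1 ≤ t.2 ∧ t.1 < e.2 ∧ FMem (nk e.2) (rep C) (e.1, f₁) := by
      intro t
      by_cases c : t.2 ≤ p₀
      · obtain ⟨p', a, γ, b, d⟩ := g4 t.1 t.2 c
        exact ⟨(p', γ), fun _ => ⟨a, b, d⟩⟩
      · exact ⟨(t.2, t.1), fun x => absurd x c⟩
    choose e he using g5
    obtain ⟨ζ, hζ, -, z1, z2⟩ := seg_univ.exists_closed (fun t : K × PC K => (Rk.rk (e t) : K))
      (fun _ _ => trivial) (β₀ := Rk.rk p₀) trivial
    have hy : ((p₀, f₁) : PC K × R) ≤ (p₀, f₀) := ⟨le_rfl, hf⟩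
    refine ⟨(p₀, f₁), hy, nk ζ, g3 (nk ζ) _ (hy.trans hq) (nk_mem_kN _ _) _ le_rfl
      (good_limR hζ.1 _) _ le_rfl fun α w hw hα r hr => ?_, good_limR hζ.1 _, good_bddR hζ.1 _⟩
    obtain ⟨t, ht, k, hk, e1⟩ := mem_nk hα r hr
    have ht' : t ≤ (p₀, f₁) := ht.trans (hr.trans hw)
    obtain ⟨a1, a2, a3⟩ := he (k, t.1.res (Iio ζ)) (PC.res_le_of_rk ht'.1 z1)
    have a4 := max_lt_iff.1 (z2 (k, t.1.res (Iio ζ)) (max_lt hk (PC.rk_res_lt _ hζ.1)))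
    obtain ⟨s, s1, s2⟩ := PC.exists_le₂ (PC.compat_of_res (PC.lt_of_rk a4.1) a1)
    have s3 : ((s, t.2) : PC K × R) ≤ t := ⟨s2, le_rfl⟩
    exact ⟨(s, t.2), s3.trans ht, nk (e (k, t.1.res (Iio ζ))).2, a3.mono ⟨s1, ht'.2⟩,
      (nk_mem_nk a2 _).subst_left (e1.mono s3).symm, nk_mem_nk a4.2 _⟩
  simp only [T_ex, T_and, T_mem, T_limR, T_bddR, cls_rep] at this
  obtain ⟨β, b1, b2, b3⟩ := this
  have b4 := h1 β b1
  exact ⟨β, b1, isRegIn_of_bddIn ⟨fun x hx z hz => big_kN.trans hz hx b4,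
    fun x y hx hy => big_kN.ord.2 x y (big_kN.up hx b4) (big_kN.up hy b4)⟩ b2 b3⟩

theorem mahlo_kN : IsMahloIn EM (cls (kN K : Nm (PC K × R))) :=
  ⟨big_isRegIn big_kN, ⟨_, EM_on omega_lt_kap, isLimit_on Ordinal.isSuccLimit_omega0⟩,
    strong_kN, club_kN⟩

end Pool.Agent.Lib.MP_c8ac39_lc.MH
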